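import Mathlib
import Pool.Agent.H436R3.Fol.LogDer

/-!
# The Jacobian inequality for orders
-/

set_option autoImplicit false

namespace Pool.Agent.W497.Mld

open Pool.Agent.H436R3.Fol Matrix

section mat

variable {K : Type} [Field K]

theorem det_mem' {n : Type} [Fintype n] [DecidableEq n] (S : Subring K) (M : Matrix n n K)
    (h : ∀ i j, M i j ∈ S) : M.det ∈ S := by
  rw [Matrix.det_apply']
  exact sum_mem fun σ _ => mul_mem (intCast_mem _ _) (prod_mem fun i _ => h _ _)

/-- A rank one perturbation of a matrix with regular entries. -/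
theorem det_rankOne_mem' {n : Type} [Fintype n] [DecidableEq n] (S : Subring K)
    {N : Matrix n n K} {b m : n → K} {π : K}
    (hN : ∀ i j, N i j - b i * m j ∈ S) (hb : ∀ i, π * b i ∈ S) (hm : ∀ j, m j ∈ S)
    (hπ : π ∈ S) : π * N.det ∈ S := by
  let B : Matrix Unit n K := Matrix.of fun _ j => -m j
  let C : Matrix n Unit K := Matrix.of fun i _ => b i
  let D : Matrix n n K := Matrix.of fun i j => N i j - b i * m j
  have h1 : (fromBlocks 1 B C D).det = N.det := by
    rw [det_fromBlocks_one₁₁]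
    congr 1
    ext i j
    simp [D, C, B, Matrix.mul_apply]
  have h2 : (Matrix.of fun i j => (Sum.elim (fun _ : Unit => π) (fun _ : n => (1 : K)) j) *
      (fromBlocks 1 B C D) i j).det = π * N.det := by
    rw [det_mul_row, h1]
    simp
  rw [← h2]
  apply det_mem'
  rintro (i | i) (j | j)
  · simp only [of_apply, Sum.elim_inl, fromBlocks_apply₁₁]
    rw [Subsingleton.elim j i, Matrix.one_apply_eq, mul_one]
    exact hπ
  · simp only [of_apply, Sum.elim_inr, fromBlocks_apply₁₂, one_mul, B]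
    exact neg_mem (hm j)
  · simp only [of_apply, Sum.elim_inl, fromBlocks_apply₂₁, C]
    exact hb i
  · simp only [of_apply, Sum.elim_inr, fromBlocks_apply₂₂, one_mul, D]
    exact hN i j

end mat

variable {K : Type} [Field K] [Algebra ℂ K] (v : DVal K)

theorem der_sum_apply {n : Type} (s : Finset n) (g : n → K)
    (D : n → Derivation ℂ K K) (f : K) : (∑ i ∈ s, g i • D i) f = ∑ i ∈ s, g i * D i f := by
  classical
  induction s using Finset.induction_on with
  | empty => simp
  | insert a s ha ih => rw [Finset.sum_insert ha, Finset.sum_insert ha, Derivation.add_apply, ih,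
      Derivation.smul_apply, smul_eq_mul]

theorem jac_factor {r : ℕ} (T : Fin r → Derivation ℂ K K) (A : Matrix (Fin r) (Fin r) K)
    (h : Fin r → K) :
    (Matrix.of fun i k => (∑ j, A i j • T j) (h k) / h k).det =
      (∏ k, h k)⁻¹ * (A.det * (Matrix.of fun j k => T j (h k)).det) := by
  have h1 : (Matrix.of fun i k => (∑ j, A i j • T j) (h k) / h k) =
      Matrix.of fun i k => (h k)⁻¹ * (A * (Matrix.of fun j k => T j (h k))) i k := by
    ext i k
    rw [of_apply, of_apply, der_sum_apply, Matrix.mul_apply, div_eq_inv_mul]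
    rfl
  rw [h1, det_mul_row, det_mul, Finset.prod_inv_distrib]

/-- The Jacobian inequality. -/
theorem gji {r : ℕ} (T : Fin r → Derivation ℂ K K) (A : Matrix (Fin r) (Fin r) K)
    (hA0 : A.det ≠ 0) (hA : ∀ i, Preserves v (∑ j, A i j • T j))
    (h : Fin r → K) (h0 : ∀ k, h k ≠ 0) (hJ : (Matrix.of fun j k => T j (h k)).det ≠ 0) :
    ∑ k, v.ord (h k) - 1 ≤ v.ord A.det + v.ord (Matrix.of fun j k => T j (h k)).det := by
  obtain ⟨π, hπ, h1⟩ := v.surj
  set N : Matrix (Fin r) (Fin r) K := Matrix.of fun i k => (∑ j, A i j • T j) (h k) / h k with hN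
  have hp : ∏ k, h k ≠ 0 := Finset.prod_ne_zero_iff.2 fun k _ => h0 k
  have hNd := jac_factor T A h
  rw [← hN] at hNd
  have hN0 : N.det ≠ 0 := by
    rw [hNd]
    exact mul_ne_zero (inv_ne_zero hp) (mul_ne_zero hA0 hJ)
  have h2 : π * N.det ∈ v.O := by
    refine det_rankOne_mem' v.O (b := fun i => (∑ j, A i j • T j) π / π)
      (m := fun k => (v.ord (h k) : K)) ?_ ?_ ?_ ?_
    · intro i k
      rw [DVal.mem_O]
      have := logDer_sub v (hA i) hπ h1 (h0 k)
      rwa [mul_comm] at this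
    · intro i
      exact reg_pi_logDer v (hA i) hπ h1
    · intro k
      exact intCast_mem _ _
    · exact Or.inr (by rw [h1]; norm_num)
  have h3 := v.neg_one_le hπ h1 hN0 h2
  rw [hNd, v.map_mul _ _ (inv_ne_zero hp) (mul_ne_zero hA0 hJ), v.ord_inv hp,
    v.map_mul _ _ hA0 hJ, v.ord_prod _ _ (fun k _ => h0 k)] at h3
  omega

/-- The Jacobian inequality for units. -/
theorem gji_zero {r : ℕ} (T : Fin r → Derivation ℂ K K) (A : Matrix (Fin r) (Fin r) K)
    (hA0 : A.det ≠ 0) (hA : ∀ i, Preserves v (∑ j, A i j • T j))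
    (h : Fin r → K) (h0 : ∀ k, h k ≠ 0) (hJ : (Matrix.of fun j k => T j (h k)).det ≠ 0)
    (hz : ∀ k, v.ord (h k) = 0) :
    0 ≤ v.ord A.det + v.ord (Matrix.of fun j k => T j (h k)).det := by
  obtain ⟨π, hπ, h1⟩ := v.surj
  set N : Matrix (Fin r) (Fin r) K := Matrix.of fun i k => (∑ j, A i j • T j) (h k) / h k with hN
  have hp : ∏ k, h k ≠ 0 := Finset.prod_ne_zero_iff.2 fun k _ => h0 k
  have hNd := jac_factor T A h
  rw [← hN] at hNd
  have hN0 : N.det ≠ 0 := by
    rw [hNd]
    exact mul_ne_zero (inv_ne_zero hp) (mul_ne_zero hA0 hJ)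
  have h2 : N.det ∈ v.O := by
    refine det_mem' v.O _ ?_
    intro i k
    rw [DVal.mem_O]
    have := logDer_sub v (hA i) hπ h1 (h0 k)
    rwa [hz k, Int.cast_zero, zero_mul, sub_zero] at this
  have h3 := v.ord_nonneg hN0 h2
  rw [hNd, v.map_mul _ _ (inv_ne_zero hp) (mul_ne_zero hA0 hJ), v.ord_inv hp,
    v.map_mul _ _ hA0 hJ, v.ord_prod _ _ (fun k _ => h0 k),
    Finset.sum_eq_zero (fun k _ => hz k)] at h3
  omega

section can

variable {ι : Type} [Fintype ι] [DecidableEq ι] {r : ℕ} {F : Foliation K r} {n : ℤ}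

/-- The Jacobian inequality for canonical orders. -/
theorem can_ge (hn : IsCanOrd F v n) (e : Fin r ≃ ι) (T : ι → Derivation ℂ K K)
    (hT : ∀ i, F.D i = T (e i)) (h : ι → K) (h0 : ∀ k, h k ≠ 0)
    (hJ : (Matrix.of fun j k => T j (h k)).det ≠ 0) :
    ∑ k, v.ord (h k) - 1 ≤ n + v.ord (Matrix.of fun j k => T j (h k)).det := by
  obtain ⟨A, hA0, hA, hn'⟩ := hn.1
  have h1 : (Matrix.of fun (j : Fin r) (k : Fin r) => F.D j (h (e k))).det =
      (Matrix.of fun j k => T j (h k)).det := by
    rw [← det_submatrix_equiv_self e (Matrix.of fun j k => T j (h k))]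
    congr 1
    ext j k
    simp [hT]
  have h2 := gji v F.D A hA0 hA (fun k => h (e k)) (fun k => h0 _) (by rw [h1]; exact hJ)
  rw [h1, hn'] at h2
  have h3 : ∑ k, v.ord (h (e k)) = ∑ k, v.ord (h k) := e.sum_comp fun k => v.ord (h k)
  rw [h3] at h2
  exact h2

theorem can_ge_zero (hn : IsCanOrd F v n) (e : Fin r ≃ ι) (T : ι → Derivation ℂ K K)
    (hT : ∀ i, F.D i = T (e i)) (h : ι → K) (h0 : ∀ k, h k ≠ 0)
    (hJ : (Matrix.of fun j k => T j (h k)).det ≠ 0) (hz : ∀ k, v.ord (h k) = 0) :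
    0 ≤ n + v.ord (Matrix.of fun j k => T j (h k)).det := by
  obtain ⟨A, hA0, hA, hn'⟩ := hn.1
  have h1 : (Matrix.of fun (j : Fin r) (k : Fin r) => F.D j (h (e k))).det =
      (Matrix.of fun j k => T j (h k)).det := by
    rw [← det_submatrix_equiv_self e (Matrix.of fun j k => T j (h k))]
    congr 1
    ext j k
    simp [hT]
  have h2 := gji_zero v F.D A hA0 hA (fun k => h (e k)) (fun k => h0 _) (by rw [h1]; exact hJ)
    (fun k => hz _)
  rw [h1, hn'] at h2
  exact h2

end can


omit [Algebra ℂ K] in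
/-- The determinant of a matrix that is triangular with respect to a level function. -/
theorem det_lev {ι : Type} [Fintype ι] [DecidableEq ι] (M : Matrix ι ι K) (lev : ι → ℕ)
    (h : ∀ j k, j ≠ k → lev k ≤ lev j → M j k = 0) : M.det = ∏ k, M k k := by
  rw [Matrix.det_apply', Finset.sum_eq_single (1 : Equiv.Perm ι)]
  · simp
  · intro σ _ hσ
    have h1 : ∃ k, σ k ≠ k ∧ lev k ≤ lev (σ k) := by
      by_contra hc
      push Not at hc
      have hle : ∀ k, lev (σ k) ≤ lev k := by
        intro k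
        by_cases hk : σ k = k
        · rw [hk]
        · exact (hc k hk).le
      have hs : ∑ k, lev (σ k) = ∑ k, lev k := Equiv.sum_comp σ lev
      apply hσ
      ext k
      by_contra hk
      have h2 := hc k hk
      have h3 : ∑ k, lev (σ k) < ∑ k, lev k :=
        Finset.sum_lt_sum (fun k _ => hle k) ⟨k, Finset.mem_univ _, h2⟩
      omega
    obtain ⟨k, hk, hl⟩ := h1
    have h2 : ∏ i, M (σ i) i = 0 :=
      Finset.prod_eq_zero (f := fun i => M (σ i) i) (Finset.mem_univ k) (h _ _ hk hl)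
    rw [h2, mul_zero]
  · intro h1
    exact absurd (Finset.mem_univ _) h1

end Pool.Agent.W497.Mld
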