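import Mathlib
import Pool.Agent.H436R3.KT.Defs
import Pool.Agent.H436R3.Fol.LogDer
import Pool.Agent.H436R3.Fol.Div
import Pool.Agent.H135R2.VS.Der
import Pool.Agent.W497.Mld.Jac

/-!
# The affine space
-/

set_option autoImplicit false
set_option linter.unusedSectionVars false

namespace Pool.Agent.W497.Mld

open Pool.Agent.H436R3.Fol Pool.Agent.H436R3.KT Matrix MvPolynomial

section basic

variable {ι : Type} {K : Type} [Field K] [Algebra ℂ K]
  [Algebra (MvPolynomial ι ℂ) K] [IsFractionRing (MvPolynomial ι ℂ) K]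
  [IsScalarTower ℂ (MvPolynomial ι ℂ) K]

variable (ι K) in
/-- The inclusion of the polynomial ring. -/
noncomputable def jo : MvPolynomial ι ℂ →ₐ[ℂ] K := IsScalarTower.toAlgHom ℂ (MvPolynomial ι ℂ) K

theorem jo_apply (q : MvPolynomial ι ℂ) : jo ι K q = algebraMap (MvPolynomial ι ℂ) K q := rfl

theorem jo_inj : Function.Injective (jo ι K) := IsFractionRing.injective (MvPolynomial ι ℂ) K

variable (K) in
/-- The variables. -/
noncomputable def cv (i : ι) : K := jo ι K (X i)

theorem cv_ne (i : ι) : cv K i ≠ 0 := (map_ne_zero_iff _ jo_inj).2 (X_ne_zero _)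

theorem jo_ne {q : MvPolynomial ι ℂ} (h : q ≠ 0) : jo ι K q ≠ 0 := (map_ne_zero_iff _ jo_inj).2 h

theorem aeval_cv : (aeval (cv K) : MvPolynomial ι ℂ →ₐ[ℂ] K) = jo ι K := by
  apply MvPolynomial.algHom_ext
  intro i
  rw [aeval_X]
  rfl

theorem algInd_cv : AlgebraicIndependent ℂ (cv K : ι → K) := by
  rw [algebraicIndependent_iff_injective_aeval, aeval_cv]
  exact jo_inj

theorem jo_C (c : ℂ) : jo ι K (C c) = algebraMap ℂ K c := by
  rw [← MvPolynomial.algebraMap_eq]
  exact (jo ι K).commutes c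

/-- The chain rule. -/
theorem der_aeval_sum {κ : Type} [Fintype κ] {L : Type} [Field L] [Algebra ℂ L]
    (D : Derivation ℂ L L) (u : κ → L) (P : MvPolynomial κ ℂ) :
    D (aeval u P) = ∑ b, aeval u (pderiv b P) * D (u b) := by
  classical
  induction P using MvPolynomial.induction_on with
  | C a => simp
  | add p q hp hq =>
    rw [map_add, map_add, hp, hq, ← Finset.sum_add_distrib]
    refine Finset.sum_congr rfl fun b _ => ?_
    rw [map_add, map_add, add_mul]
  | mul_X p j hp =>
    rw [map_mul, aeval_X, Derivation.leibniz, hp]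
    simp only [Derivation.leibniz, map_add, smul_eq_mul, map_mul, aeval_X, pderiv_X,
      Pi.single_apply, add_mul, Finset.sum_add_distrib, Finset.mul_sum]
    congr 1
    · rw [Finset.sum_eq_single j]
      · simp
      · intro b _ hb
        rw [if_neg hb.symm]
        simp
      · intro h
        exact absurd (Finset.mem_univ _) h
    · refine Finset.sum_congr rfl fun b _ => ?_
      ring

theorem der_ext {D D' : Derivation ℂ K K} (h : ∀ i : ι, D (cv K i) = D' (cv K i)) : D = D' := by
  have h1 : ∀ q : MvPolynomial ι ℂ, D (jo ι K q) = D' (jo ι K q) := by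
    intro q
    induction q using MvPolynomial.induction_on with
    | C a => rw [jo_C, Derivation.map_algebraMap, Derivation.map_algebraMap]
    | add p q hp hq => rw [map_add, map_add, map_add, hp, hq]
    | mul_X p j hp =>
      rw [map_mul, Derivation.leibniz, Derivation.leibniz, hp]
      have := h j
      rw [cv] at this
      rw [this]
  ext f
  obtain ⟨a, b, hb, rfl⟩ := exists_frac (MvPolynomial ι ℂ) f
  rw [← jo_apply, ← jo_apply, Derivation.leibniz_div, Derivation.leibniz_div, h1, h1]

variable [DecidableEq ι]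

variable (K) in
theorem exists_pd (i : ι) : ∃ D : Derivation ℂ K K, ∀ j, D (cv K j) = if i = j then 1 else 0 :=
  Pool.Agent.H135R2.VS.exists_der algInd_cv _

variable (K) in
/-- The partial derivatives. -/
noncomputable def pd (i : ι) : Derivation ℂ K K := (exists_pd K i).choose

theorem pd_cv (i j : ι) : pd K i (cv K j) = if i = j then 1 else 0 := (exists_pd K i).choose_spec j

theorem pd_cv_self (i : ι) : pd K i (cv K i) = 1 := by rw [pd_cv, if_pos rfl]

theorem pd_cv_ne {i j : ι} (h : i ≠ j) : pd K i (cv K j) = 0 := by rw [pd_cv, if_neg h]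

theorem pd_jo (i : ι) (P : MvPolynomial ι ℂ) : pd K i (jo ι K P) = jo ι K (pderiv i P) := by
  rw [← aeval_cv]
  refine Pool.Agent.H135R2.VS.der_aeval (pd K i) i (fun j => ?_) P
  rw [pd_cv]
  simp [eq_comm]

variable [Fintype ι]

theorem der_eq_sum' (D : Derivation ℂ K K) : D = ∑ i : ι, D (cv K i) • pd K i := by
  apply der_ext (ι := ι)
  intro j
  rw [der_sum_apply]
  simp only [pd_cv, mul_ite, mul_one, mul_zero, Finset.sum_ite_eq', Finset.mem_univ, if_true]

theorem pd_indep : LinearIndependent K (pd K : ι → Derivation ℂ K K) := by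
  rw [Fintype.linearIndependent_iff]
  intro g hg i
  have h := DFunLike.congr_fun hg (cv K i)
  rw [Derivation.coe_zero, Pi.zero_apply, der_sum_apply] at h
  simpa only [pd_cv, mul_ite, mul_one, mul_zero, Finset.sum_ite_eq', Finset.mem_univ, if_true]
    using h

theorem span_pd : Submodule.span K (Set.range (pd K : ι → Derivation ℂ K K)) = ⊤ := by
  rw [eq_top_iff]
  intro D _
  rw [der_eq_sum' (ι := ι) D]
  exact Submodule.sum_mem _ fun i _ => Submodule.smul_mem _ _ (Submodule.subset_span ⟨i, rfl⟩)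

/-- Algebraic independence from the Jacobian determinant. -/
theorem algInd_of_jac (u : ι → K) (h : (Matrix.of fun j k => pd K j (u k)).det ≠ 0) :
    AlgebraicIndependent ℂ u := by
  apply Pool.Agent.H135R2.VS.algInd_of_der
  intro w
  set M : Matrix ι ι K := Matrix.of fun j k => pd K j (u k) with hM
  have h1 : IsUnit M.det := isUnit_iff_ne_zero.2 h
  refine ⟨∑ j, (vecMul w M⁻¹) j • pd K j, fun i => ?_⟩
  rw [der_sum_apply]
  have h2 : ∑ j, (vecMul w M⁻¹) j * pd K j (u i) = (vecMul (vecMul w M⁻¹) M) i := rfl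
  rw [h2, Matrix.vecMul_vecMul, Matrix.nonsing_inv_mul _ h1, Matrix.vecMul_one]

end basic

section var

variable {ι : Type} {K : Type} [Field K] [Algebra ℂ K]
  [Algebra (MvPolynomial ι ℂ) K] [IsFractionRing (MvPolynomial ι ℂ) K]
  [IsScalarTower ℂ (MvPolynomial ι ℂ) K]

variable (ι K) in
/-- The coordinate ring of the affine space. -/
noncomputable def RA : Subalgebra ℂ K := (jo ι K).range

theorem mem_RA {f : K} : f ∈ RA ι K ↔ ∃ q, jo ι K q = f := Iff.rfl

theorem jo_mem (q : MvPolynomial ι ℂ) : jo ι K q ∈ RA ι K := ⟨q, rfl⟩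

theorem cv_mem (i : ι) : cv K i ∈ RA ι K := jo_mem _

theorem RA_frac (f : K) : ∃ a b : K, a ∈ RA ι K ∧ b ∈ RA ι K ∧ b ≠ 0 ∧ f * b = a := by
  obtain ⟨a, b, hb, rfl⟩ := exists_frac (MvPolynomial ι ℂ) f
  refine ⟨jo ι K a, jo ι K b, jo_mem _, jo_mem _, jo_ne hb, ?_⟩
  rw [← jo_apply, ← jo_apply, div_mul_cancel₀ _ (jo_ne hb)]

theorem RA_normal {f : K} (hf : IsIntegral (RA ι K) f) : f ∈ RA ι K := by
  obtain ⟨p, hp, h0⟩ := hf
  let e : MvPolynomial ι ℂ ≃ₐ[ℂ] (jo ι K).range := AlgEquiv.ofInjective (jo ι K) jo_inj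
  let θ : RA ι K →+* MvPolynomial ι ℂ := (e.symm : (jo ι K).range →+* MvPolynomial ι ℂ)
  have hθ : (algebraMap (MvPolynomial ι ℂ) K).comp θ = algebraMap (RA ι K) K := by
    ext s
    have h1 : jo ι K (e.symm s) = (e (e.symm s) : K) := rfl
    rw [AlgEquiv.apply_symm_apply] at h1
    exact h1
  have h2 : IsIntegral (MvPolynomial ι ℂ) f := by
    refine ⟨p.map θ, hp.map _, ?_⟩
    rw [Polynomial.eval₂_map, hθ]
    exact h0
  obtain ⟨q, hq⟩ := IsIntegrallyClosed.algebraMap_eq_of_integral h2
  exact ⟨q, hq⟩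

theorem reg_RA {v : DVal K} (h : ∀ i : ι, v.Reg (cv K i)) {f : K} (hf : f ∈ RA ι K) : v.Reg f := by
  obtain ⟨q, rfl⟩ := hf
  change v.Reg (jo ι K q)
  induction q using MvPolynomial.induction_on with
  | C a => rw [jo_C]; exact v.reg_const a
  | add p q hp hq => rw [map_add]; exact v.reg_add hp hq
  | mul_X p j hp => rw [map_mul]; exact v.reg_mul hp (h j)

theorem valP_local {p : MvPolynomial ι ℂ} (hp : Prime p) :
    IsLocalRing' (RA ι K) (valP K p hp) := by
  refine ⟨?_, fun f hf => ?_⟩
  · rintro _ ⟨q, rfl⟩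
    exact valP_reg hp q
  · obtain ⟨a, b, hb, hpb, rfl⟩ := exists_frac_of_reg hp hf
    have h1 : (valP K p hp).ord (algebraMap (MvPolynomial ι ℂ) K b) = (multiplicity p b : ℤ) :=
      valP_ord hp hb
    refine ⟨jo ι K a, jo ι K b, jo_mem _, jo_mem _, jo_ne hb, ?_, ?_⟩
    · rw [jo_apply, h1, multiplicity_eq_zero.2 hpb]
      rfl
    · rw [← jo_apply, ← jo_apply, div_mul_cancel₀ _ (jo_ne hb)]

/-- The prime divisors of the affine space. -/
theorem exists_prime_of_local {v : DVal K} (hv : IsLocalRing' (RA ι K) v) :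
    ∃ (p : MvPolynomial ι ℂ) (hp : Prime p), ∀ f : K, f ≠ 0 → v.ord f = (valP K p hp).ord f := by
  obtain ⟨π, hπ, h1⟩ := v.surj
  obtain ⟨a, b, ha, hb, hb0, hab⟩ := RA_frac (ι := ι) π
  have ha0 : a ≠ 0 := by
    rw [← hab]
    exact mul_ne_zero hπ hb0
  have h2 : 0 < v.ord a := by
    rw [← hab, v.map_mul _ _ hπ hb0, h1]
    have := v.ord_nonneg hb0 (hv.1 b hb)
    omega
  obtain ⟨q, rfl⟩ := ha
  change 0 < v.ord (jo ι K q) at h2
  change jo ι K q ≠ 0 at ha0
  have hq0 : q ≠ 0 := by
    rintro rfl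
    rw [map_zero] at ha0
    exact ha0 rfl
  -- the centre
  let I : Ideal (MvPolynomial ι ℂ) :=
    { carrier := {q | v.Pos (jo ι K q)}
      add_mem' := by
        intro a b ha hb
        change v.Pos (jo ι K (a + b))
        rw [map_add]
        exact v.pos_add ha hb
      zero_mem' := Or.inl (map_zero _)
      smul_mem' := by
        intro c a ha
        change v.Pos (jo ι K (c * a))
        rw [map_mul]
        exact v.pos_mul_left (hv.1 _ (jo_mem _)) ha }
  have hI : I.IsPrime := by
    constructor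
    · intro h
      have : (1 : MvPolynomial ι ℂ) ∈ I := by rw [h]; trivial
      rcases (this : v.Pos (jo ι K 1)) with h | h
      · rw [map_one] at h
        exact one_ne_zero h
      · rw [map_one, v.ord_one] at h
        exact lt_irrefl _ h
    · intro a b hab
      change v.Pos (jo ι K (a * b)) at hab
      by_cases ha : a = 0
      · left; rw [ha]; exact I.zero_mem
      by_cases hb : b = 0
      · right; rw [hb]; exact I.zero_mem
      rw [map_mul] at hab
      have h3 := hab.resolve_left (mul_ne_zero (jo_ne ha) (jo_ne hb))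
      rw [v.map_mul _ _ (jo_ne ha) (jo_ne hb)] at h3
      rcases lt_or_ge 0 (v.ord (jo ι K a)) with h4 | h4
      · left; exact Or.inr h4
      · right
        refine Or.inr ?_
        omega
  have hI0 : I ≠ ⊥ := by
    intro h
    have : q ∈ I := Or.inr h2
    rw [h, Ideal.mem_bot] at this
    exact hq0 this
  obtain ⟨p, hpI, hp⟩ := hI.exists_mem_prime_of_ne_bot hI0
  refine ⟨p, hp, fun f hf => ?_⟩
  refine agree_of_key hv ?_ ?_ hf
  · rintro _ ⟨g, rfl⟩
    exact valP_reg hp g
  · rintro _ ⟨g, rfl⟩ hg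
    obtain ⟨c, rfl⟩ := (valP_pos_iff (K := K) hp g).1 hg
    change v.Pos (jo ι K (p * c))
    rw [map_mul, mul_comm]
    exact v.pos_mul_left (hv.1 _ (jo_mem _)) hpI

variable [Fintype ι] [DecidableEq ι] {d : ℕ}

/-- The rational vector fields on the affine space. -/
noncomputable def affFol (K : Type) [Field K] [Algebra ℂ K]
    [Algebra (MvPolynomial ι ℂ) K] [IsFractionRing (MvPolynomial ι ℂ) K]
    [IsScalarTower ℂ (MvPolynomial ι ℂ) K] (e : Fin d ≃ ι) : Foliation K d where
  D := fun i => pd K (e i)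
  indep := pd_indep.comp e e.injective
  closed := by
    intro i j
    have h : Set.range (fun i => pd K (e i)) = Set.range (pd K : ι → Derivation ℂ K K) :=
      e.surjective.range_comp (pd K)
    rw [h, span_pd]
    trivial

theorem affFol_D (e : Fin d ≃ ι) (i : Fin d) : (affFol K e).D i = pd K (e i) := rfl

/-- The affine space. -/
noncomputable def affVar (K : Type) [Field K] [Algebra ℂ K]
    [Algebra (MvPolynomial ι ℂ) K] [IsFractionRing (MvPolynomial ι ℂ) K]
    [IsScalarTower ℂ (MvPolynomial ι ℂ) K] (e : Fin d ≃ ι) : AffVar K where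
  R := RA ι K
  fg := by
    have h : Algebra.FiniteType ℂ (MvPolynomial ι ℂ) := inferInstance
    have h2 : Algebra.FiniteType ℂ (jo ι K).range :=
      Algebra.FiniteType.of_surjective (jo ι K).rangeRestrict (jo ι K).rangeRestrict_surjective
    exact (Subalgebra.fg_iff_finiteType _).2 h2
  frac := RA_frac
  d := d
  T := affFol K e
  top := by
    have h : Set.range (fun i => pd K (e i)) = Set.range (pd K : ι → Derivation ℂ K K) :=
      e.surjective.range_comp (pd K)
    change Submodule.span K (Set.range (fun i => pd K (e i))) = ⊤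
    rw [h, span_pd]

theorem affVar_R (e : Fin d ≃ ι) : (affVar K e).R = RA ι K := rfl

theorem affVar_d (e : Fin d ≃ ι) : (affVar K e).d = d := rfl

theorem affVar_T (e : Fin d ≃ ι) : (affVar K e).T = affFol K e := rfl

theorem affVar_normal (e : Fin d ≃ ι) : IsNormal (affVar K e) := fun _ hf => RA_normal hf

theorem pd_pres {v : DVal K} {S : Subalgebra ℂ K} (hv : IsLocalRing' S v) (hS : S = RA ι K)
    (i : ι) : Preserves v (pd K i) := by
  subst hS
  refine preserves_of v hv fun f hf => ?_
  obtain ⟨q, rfl⟩ := hf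
  change v.Reg (pd K i (jo ι K q))
  rw [pd_jo]
  exact hv.1 _ (jo_mem _)

theorem det_pd_cv : (Matrix.of fun j k => pd K j (cv K k) : Matrix ι ι K).det = 1 := by
  have : (Matrix.of fun j k => pd K j (cv K k) : Matrix ι ι K) = 1 := by
    ext j k
    rw [of_apply, pd_cv, Matrix.one_apply]
  rw [this, det_one]

/-- Log discrepancies of the affine space are at least the sum of the orders of the variables. -/
theorem can_ge_sum (e : Fin d ≃ ι) {v : DVal K} {n : ℤ} (hn : IsCanOrd (affFol K e) v n) :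
    ∑ k : ι, v.ord (cv K k) ≤ n + 1 := by
  have := can_ge v hn e (pd K) (fun _ => rfl) (cv K) cv_ne
    (by rw [det_pd_cv]; exact one_ne_zero)
  rw [det_pd_cv, v.ord_one] at this
  omega

theorem can_nonneg (e : Fin d ≃ ι) {v : DVal K} {n : ℤ} (hn : IsCanOrd (affFol K e) v n)
    (hv : ∀ i : ι, 0 ≤ v.ord (cv K i)) : 0 ≤ n := by
  by_cases h : ∀ i : ι, v.ord (cv K i) = 0
  · have := can_ge_zero v hn e (pd K) (fun _ => rfl) (cv K) cv_ne
      (by rw [det_pd_cv]; exact one_ne_zero) h
    rw [det_pd_cv, v.ord_one] at this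
    omega
  · push Not at h
    obtain ⟨i, hi⟩ := h
    have h1 := can_ge_sum e hn
    have h2 : v.ord (cv K i) ≤ ∑ k : ι, v.ord (cv K k) :=
      Finset.single_le_sum (f := fun k => v.ord (cv K k)) (fun k _ => hv k) (Finset.mem_univ i)
    have h3 := hv i
    omega

/-- The canonical order exists. -/
theorem exists_can (e : Fin d ≃ ι) {v : DVal K}
    (hv : ∃ S : Subalgebra ℂ K, S.FG ∧ (affVar K e).R ≤ S ∧ IsLocalRing' S v) :
    ∃ n : ℤ, IsCanOrd (affFol K e) v n ∧ 0 ≤ n := by
  obtain ⟨S, hS, hRS, hSv⟩ := hv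
  have hreg : ∀ i : ι, 0 ≤ v.ord (cv K i) := fun i =>
    v.ord_nonneg (cv_ne i) (hSv.1 _ (hRS (cv_mem i)))
  let X : NormalAffine K :=
    { R := RA ι K
      fg := (affVar K e).fg
      frac := RA_frac
      normal := fun _ hf => RA_normal hf }
  have hX : IsDivisorOver X v := ⟨S, hS, hRS, hSv⟩
  refine exists_isCanOrd v hX (affFol K e) (c := 0) ?_
  intro A hA0 hA
  by_cases h : ∀ i : ι, v.ord (cv K i) = 0
  · have h1 : (Matrix.of fun (j : Fin d) (k : Fin d) => (affFol K e).D j (cv K (e k))).det =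
        (1 : K) := by
      rw [← det_pd_cv (ι := ι), ← det_submatrix_equiv_self e (Matrix.of fun j k => pd K j (cv K k))]
      congr 1
    have := gji_zero v (affFol K e).D A hA0 hA (fun k => cv K (e k)) (fun k => cv_ne _)
      (by rw [h1]; exact one_ne_zero) (fun k => h _)
    rw [h1, v.ord_one] at this
    omega
  · push Not at h
    obtain ⟨i, hi⟩ := h
    have h1 : (Matrix.of fun (j : Fin d) (k : Fin d) => (affFol K e).D j (cv K (e k))).det =
        (1 : K) := by
      rw [← det_pd_cv (ι := ι), ← det_submatrix_equiv_self e (Matrix.of fun j k => pd K j (cv K k))]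
      congr 1
    have h5 := gji v (affFol K e).D A hA0 hA (fun k => cv K (e k)) (fun k => cv_ne _)
      (by rw [h1]; exact one_ne_zero)
    rw [h1, v.ord_one, e.sum_comp fun k => v.ord (cv K k)] at h5
    have h2 : v.ord (cv K i) ≤ ∑ k : ι, v.ord (cv K k) :=
      Finset.single_le_sum (f := fun k => v.ord (cv K k)) (fun k _ => hreg k) (Finset.mem_univ i)
    have h3 := hreg i
    omega

/-- The canonical order at a prime divisor of the affine space. -/
theorem can_zero (e : Fin d ≃ ι) {v : DVal K} (hv : IsLocalRing' (RA ι K) v) :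
    IsCanOrd (affFol K e) v 0 := by
  obtain ⟨n, hn, hn0⟩ := exists_can e (v := v) ⟨RA ι K, (affVar K e).fg, le_rfl, hv⟩
  have h1 : n ≤ 0 := by
    refine hn.2 ⟨1, by rw [det_one]; exact one_ne_zero, fun i => ?_, by rw [det_one, v.ord_one]⟩
    have h2 : (∑ j, (1 : Matrix (Fin d) (Fin d) K) i j • (affFol K e).D j) = pd K (e i) := by
      rw [Finset.sum_eq_single i]
      · rw [Matrix.one_apply_eq, one_smul]
        rfl
      · intro j _ hj
        rw [Matrix.one_apply_ne hj.symm, zero_smul]
      · intro h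
        exact absurd (Finset.mem_univ _) h
    change Preserves v (∑ j, (1 : Matrix (Fin d) (Fin d) K) i j • (affFol K e).D j)
    rw [h2]
    exact pd_pres hv rfl (e i)
  have h3 : n = 0 := le_antisymm h1 hn0
  rwa [h3] at hn

end var

end Pool.Agent.W497.Mld
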