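import Mathlib
import Pool.Agent.H436R3.KT.Defs

/-!
# Minimal log discrepancies and divisorial contractions

An affine variety `X` is an `AffVar K`: its coordinate ring `X.R` is a subalgebra of the function
field `K`, and `X.T` is a basis of the rational vector fields, which fixes the canonical divisor
`K_X`. Prime divisors on normal birational models are given by their valuations `DVal`, see
`Pool.Agent.H436R3.Fol.Defs` and `Pool.Agent.H436R3.KT.Defs`.
-/

set_option autoImplicit false

namespace Pool.Agent.W497.Mld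

open Pool.Agent.H436R3.Fol Pool.Agent.H436R3.KT

variable {K : Type} [Field K] [Algebra ℂ K] {X : AffVar K}

/-- The valuations `v` and `w` belong to the same prime divisor. -/
def SameDiv (v w : DVal K) : Prop := ∀ f : K, f ≠ 0 → v.ord f = w.ord f

/-- `v` is the valuation of a prime divisor over the germ `X ∋ P`: a prime divisor on some normal
variety with a proper birational morphism to `X`, whose centre on `X` is the closed point `P`. -/
def IsOverGerm (P : Pt X) (v : DVal K) : Prop :=
  (∃ S : Subalgebra ℂ K, S.FG ∧ X.R ≤ S ∧ IsLocalRing' S v) ∧ ∀ f : X.R, v.Pos (f : K) ↔ P f = 0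

/-- The divisor `0`. -/
def zeroDiv (X : AffVar K) : EffDiv X where
  n := 0
  D := Fin.elim0
  on := fun i => i.elim0
  a := Fin.elim0
  nonneg := fun i => i.elim0

/-- A local equation of `K_X + B` at the closed point `P`: near `P`, `K_X + B` is the real linear
combination `∑ ρ_i div (g_i)` of principal divisors. In particular, `K_X + B` is `ℝ`-Cartier
at `P`. -/
structure LocEq (B : EffDiv X) (P : Pt X) where
  n : ℕ
  ρ : Fin n → ℝ
  g : Fin n → K
  ne : ∀ i, g i ≠ 0
  eq : ∀ v, OnAt P v → ∃ a : ℤ, IsCanOrd X.T v a ∧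
    (a : ℝ) + B.mult v = ∑ i, ρ i * (v.ord (g i) : ℝ)

/-- `a` is the log discrepancy `a(v, X, B)` of a prime divisor `v` over `X` whose centre contains
`P`: one plus the order at `v` of the canonical divisor, minus the order at `v` of the pull-back of
`K_X + B`. -/
def IsLogDisc {B : EffDiv X} {P : Pt X} (e : LocEq B P) (v : DVal K) (a : ℝ) : Prop :=
  ∃ n : ℤ, IsCanOrd X.T v n ∧ a = 1 + (n : ℝ) - ∑ i, e.ρ i * (v.ord (e.g i) : ℝ)

/-- `K_X + B` is `ℝ`-Cartier at `P`, and `(X, B)` is log canonical at `P`: `a(v, X, B) ≥ 0` for all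
prime divisors `v` over `X` whose centre contains `P`. -/
def IsLcAt (B : EffDiv X) (P : Pt X) : Prop :=
  ∃ e : LocEq B P, ∀ v, OverAt P v → ∃ a, IsLogDisc e v a ∧ 0 ≤ a

/-- `X` is klt at `P`: `K_X` is `ℚ`-Cartier at `P`, and `a(v, X, 0) > 0` for all prime divisors `v`
over `X` whose centre contains `P`. -/
def IsKltPt (P : Pt X) : Prop :=
  ∃ e : LocEq (zeroDiv X) P, (∀ i, ∃ q : ℚ, e.ρ i = q) ∧
    ∀ v, OverAt P v → ∃ a, IsLogDisc e v a ∧ 0 < a

/-- `m` is the minimal log discrepancy `mld (X ∋ P, B)`. -/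
def IsMld {B : EffDiv X} {P : Pt X} (e : LocEq B P) (m : ℝ) : Prop :=
  IsLeast {a | ∃ v, IsOverGerm P v ∧ IsLogDisc e v a} m

/-- A projective birational morphism `Y → X`: `Y` is an integral closed subscheme of the projective
space `ℙ^n` over `X`, it is contained in no coordinate hyperplane, and `ξ_0, ..., ξ_n` are the
homogeneous coordinates of its generic point. -/
structure ProjBir (X : AffVar K) where
  n : ℕ
  ξ : Fin (n + 1) → K
  ne : ∀ i, ξ i ≠ 0

/-- The coordinate ring of the affine chart of `Y` where the `i`-th homogeneous coordinate does not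
vanish. -/
def ProjBir.chart (Y : ProjBir X) (i : Fin (Y.n + 1)) : Subalgebra ℂ K :=
  X.R ⊔ Algebra.adjoin ℂ (Set.range fun j => Y.ξ j / Y.ξ i)

/-- `Y` is normal. -/
def ProjBir.IsNormal (Y : ProjBir X) : Prop :=
  ∀ i, ∀ f : K, IsIntegral (Y.chart i) f → f ∈ Y.chart i

/-- The closed point `p` of the chart lies on the prime divisor `v` of `Y`. -/
def ProjBir.Lies (Y : ProjBir X) (v : DVal K) (i : Fin (Y.n + 1)) (p : Y.chart i →ₐ[ℂ] ℂ) : Prop :=
  IsLocalRing' (Y.chart i) v ∧ ∀ f : Y.chart i, v.Pos (f : K) → p f = 0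

/-- `Y → X` is an isomorphism near the closed point `p` of `Y`: the local ring of `Y` at `p` is the
local ring of `X` at the image of `p`. -/
def ProjBir.IsoAt (Y : ProjBir X) (i : Fin (Y.n + 1)) (p : Y.chart i →ₐ[ℂ] ℂ) : Prop :=
  ∀ f : Y.chart i, ∃ a b : Y.chart i, (a : K) ∈ X.R ∧ (b : K) ∈ X.R ∧ p b ≠ 0 ∧ f * b = a

/-- `Y → X` is a divisorial contraction of the prime divisor `v`, which we call `E`: `Y` is normal,
`E` is a prime divisor on `Y`, the exceptional locus of `Y → X` is exactly `E`, and `-E` is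
`ℝ`-Cartier and ample over `X`. The latter means that, for some projective embedding of `Y` over `X`
(we take it for the given one), the sheaf `𝒪_Y (1)`, which is generated by `ξ_i` on the `i`-th
chart, is `𝒪_Y (-N E)` for a positive integer `N`. -/
structure IsDivContraction (Y : ProjBir X) (v : DVal K) : Prop where
  normal : Y.IsNormal
  on : ∃ i, IsLocalRing' (Y.chart i) v
  exc : ∀ i (p : Y.chart i →ₐ[ℂ] ℂ), ¬ Y.IsoAt i p ↔ Y.Lies v i p
  ample : ∃ N : ℤ, 0 < N ∧ ∀ i w, IsLocalRing' (Y.chart i) w →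
    (SameDiv w v → w.ord (Y.ξ i) = N) ∧ (¬ SameDiv w v → w.ord (Y.ξ i) = 0)

/-- The prime divisor `v` is the exceptional divisor of a divisorial contraction to `X`. -/
def IsExtractable (X : AffVar K) (v : DVal K) : Prop := ∃ Y : ProjBir X, IsDivContraction Y v

/-- `U` is a principal open neighbourhood of the closed point `P` of `X`: its coordinate ring is
obtained from the one of `X` by inverting a function `g` with `g (P) ≠ 0`. -/
def IsNbhd (P : Pt X) (U : AffVar K) : Prop :=
  ∃ g : X.R, P g ≠ 0 ∧ U.R = X.R ⊔ Algebra.adjoin ℂ {(g : K)⁻¹}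

/-- `X` is isomorphic to the affine space of dimension `d`. -/
def IsAffineSpace (X : AffVar K) (d : ℕ) : Prop :=
  X.d = d ∧ Nonempty (X.R ≃ₐ[ℂ] MvPolynomial (Fin d) ℂ)

/-- All coefficients of `B` lie in `Γ`. -/
def CoeffIn (B : EffDiv X) (Γ : Set ℝ) : Prop :=
  ∀ v, IsLocalRing' X.R v → B.mult v ≠ 0 → B.mult v ∈ Γ

/-- The descending chain condition: there is no strictly decreasing infinite sequence. -/
def IsDCC (Γ : Set ℝ) : Prop := ∀ x : ℕ → ℝ, (∀ n, x n ∈ Γ) → ¬ StrictAnti x

end Pool.Agent.W497.Mld
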