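import Mathlib
import Pool.Agent.H436R3.Fol.Val
import Pool.Agent.H436R3.Fol.LogDer
import Pool.Agent.H774R3.LemA

/-!
# Prime divisors from prime ideals of height one
-/

set_option autoImplicit false
set_option linter.unusedSectionVars false

namespace Pool.Agent.W497.Mld

open Pool.Agent.H436R3.Fol

variable {K : Type} [Field K] [Algebra ℂ K]

theorem fractionRing_of {S : Subalgebra ℂ K}
    (hfrac : ∀ f : K, ∃ a b : K, a ∈ S ∧ b ∈ S ∧ b ≠ 0 ∧ f * b = a) : IsFractionRing S K := by
  refine IsFractionRing.of_field S K fun z => ?_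
  obtain ⟨a, b, ha, hb, hb0, hab⟩ := hfrac z
  refine ⟨⟨a, ha⟩, ⟨b, hb⟩, ?_⟩
  change z = a / b
  rw [← hab, mul_div_cancel_right₀ _ hb0]

/-- The prime divisor of a prime ideal of height one. -/
theorem exists_dval {S : Subalgebra ℂ K} (hfg : S.FG)
    (hfrac : ∀ f : K, ∃ a b : K, a ∈ S ∧ b ∈ S ∧ b ≠ 0 ∧ f * b = a)
    (hn : ∀ f : K, IsIntegral S f → f ∈ S) (P : Ideal S) (hP : P.IsPrime) (hP0 : P ≠ ⊥)
    (hht : ∀ Q : Ideal S, Q.IsPrime → Q ≤ P → Q = ⊥ ∨ Q = P) :
    ∃ w : DVal K, IsLocalRing' S w ∧ ∀ f : S, w.Pos (f : K) ↔ f ∈ P := by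
  have hfr : IsFractionRing S K := fractionRing_of hfrac
  have hft : Algebra.FiniteType ℂ S := (Subalgebra.fg_iff_finiteType _).1 hfg
  have hnoe : IsNoetherianRing S := Algebra.FiniteType.isNoetherianRing ℂ S
  have hic : IsIntegrallyClosed S := by
    rw [isIntegrallyClosed_iff K]
    intro x hx
    exact ⟨⟨x, hn x hx⟩, rfl⟩
  have hS : P.primeCompl ≤ nonZeroDivisors S := P.primeCompl_le_nonZeroDivisors
  let A : Subalgebra S K := Localization.subalgebra.ofField K P.primeCompl hS
  have hloc : IsLocalization.AtPrime A P :=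
    Localization.subalgebra.isLocalization_ofField K P.primeCompl hS
  have hlr : IsLocalRing A := IsLocalization.AtPrime.isLocalRing A P
  have hnA : IsNoetherianRing A := IsLocalization.isNoetherianRing P.primeCompl A hnoe
  have hicA : IsIntegrallyClosed A := isIntegrallyClosed_of_isLocalization A P.primeCompl hS
  have hinjA : Function.Injective (algebraMap S A) := IsLocalization.injective A hS
  have hmem : ∀ f : S, algebraMap S A f ∈ IsLocalRing.maximalIdeal A ↔ f ∈ P := fun f =>
    IsLocalization.AtPrime.to_map_mem_maximal_iff A P f hlr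
  obtain ⟨f0, hf0P, hf0⟩ := Submodule.exists_mem_ne_zero_of_ne_bot hP0
  have hnf : ¬ IsField A := by
    intro h
    have h1 := IsLocalRing.isField_iff_maximalIdeal_eq.1 h
    have h2 := (hmem f0).2 hf0P
    rw [h1, Ideal.mem_bot] at h2
    exact hf0 (hinjA (by rw [h2, map_zero]))
  have hmc : ∀ Q : Ideal A, (Q.comap (algebraMap S A)).map (algebraMap S A) = Q := fun Q =>
    IsLocalization.map_under P.primeCompl A Q
  have huniq : ∃! Q : Ideal A, Q ≠ ⊥ ∧ Q.IsPrime := by
    refine ⟨IsLocalRing.maximalIdeal A, ⟨?_, inferInstance⟩, ?_⟩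
    · intro h
      exact hnf (IsLocalRing.isField_iff_maximalIdeal_eq.2 h)
    · rintro Q ⟨hQ0, hQ⟩
      have h1 : Q.comap (algebraMap S A) ≤ P := by
        intro f hf
        rw [← hmem]
        exact IsLocalRing.le_maximalIdeal hQ.ne_top hf
      have h2 : Q.comap (algebraMap S A) ≠ ⊥ := by
        intro h
        apply hQ0
        rw [← hmc Q, h, Ideal.map_bot]
      have h3 : Q.comap (algebraMap S A) = P :=
        (hht _ (Ideal.comap_isPrime _ _) h1).resolve_left h2
      have h4 : (IsLocalRing.maximalIdeal A).comap (algebraMap S A) = P := by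
        ext f
        exact hmem f
      change Q = IsLocalRing.maximalIdeal A
      rw [← hmc Q, h3, ← hmc (IsLocalRing.maximalIdeal A), h4]
  have hdvr : IsDiscreteValuationRing A := by
    have h := (IsDiscreteValuationRing.TFAE A hnf).out 3 0
    exact h.1 ⟨hicA, huniq⟩
  obtain ⟨π, hπ⟩ := IsDiscreteValuationRing.exists_irreducible A
  have hπp : Prime π := hπ.prime
  have hπm : ∀ a : A, π ∣ a ↔ a ∈ IsLocalRing.maximalIdeal A := by
    intro a
    rw [(IsDiscreteValuationRing.irreducible_iff_uniformizer π).1 hπ, Ideal.mem_span_singleton]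
  refine ⟨valP K π hπp, ⟨?_, ?_⟩, ?_⟩
  · intro f hf
    exact valP_reg hπp (algebraMap S A ⟨f, hf⟩)
  · intro f hf
    obtain ⟨a, b, hb, hpb, rfl⟩ := exists_frac_of_reg hπp hf
    have hbu : IsUnit b := by
      by_contra h
      exact hpb ((hπm b).2 ((IsLocalRing.mem_maximalIdeal b).2 h))
    obtain ⟨c, hc⟩ := hbu.exists_left_inv
    have h1 : algebraMap A K a / algebraMap A K b = algebraMap A K (a * c) := by
      have hb' : algebraMap A K b ≠ 0 := by
        intro h0
        exact hb ((map_eq_zero_iff _ (IsFractionRing.injective A K)).1 h0)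
      rw [div_eq_iff hb', ← map_mul, mul_assoc, hc, mul_one]
    obtain ⟨s, t, hst⟩ := IsLocalization.exists_mk'_eq P.primeCompl (a * c)
    have h2 : algebraMap A K (a * c) * ((t : S) : K) = ((s : S) : K) := by
      have h3 := IsLocalization.mk'_spec A s t
      rw [hst] at h3
      have h4 := congrArg (algebraMap A K) h3
      rw [map_mul] at h4
      exact h4
    have ht0 : (t : S) ≠ 0 := by
      intro h0
      apply t.2
      rw [h0]
      exact P.zero_mem
    refine ⟨((s : S) : K), ((t : S) : K), s.2, (t : S).2, ?_, ?_, ?_⟩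
    · intro h0
      exact ht0 (Subtype.ext h0)
    · have h5 : (valP K π hπp).ord (algebraMap A K (algebraMap S A t)) =
          (multiplicity π (algebraMap S A t) : ℤ) := valP_ord hπp (by
            intro h0
            exact ht0 (hinjA (by rw [h0, map_zero])))
      have h6 : ¬ π ∣ algebraMap S A t := by
        rw [hπm, hmem]
        exact t.2
      rw [multiplicity_eq_zero.2 h6] at h5
      exact h5
    · rw [h1]
      exact h2
  · intro f
    have h1 := valP_pos_iff (K := K) hπp (algebraMap S A f)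
    rw [hπm, hmem] at h1
    exact h1

/-- Rational functions without poles along prime divisors are regular. -/
theorem hartogs {S : Subalgebra ℂ K} (hfg : S.FG)
    (hfrac : ∀ f : K, ∃ a b : K, a ∈ S ∧ b ∈ S ∧ b ≠ 0 ∧ f * b = a)
    (hn : ∀ f : K, IsIntegral S f → f ∈ S) {F : K}
    (h : ∀ w : DVal K, IsLocalRing' S w → w.Reg F) : F ∈ S := by
  have hft : Algebra.FiniteType ℂ S := (Subalgebra.fg_iff_finiteType _).1 hfg
  apply hn
  refine Pool.Agent.H774R3.integral_of_height_one (k := ℂ) (S := S) (R := K)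
    Subtype.val_injective F ?_ ?_
  · obtain ⟨a, b, ha, hb, hb0, hab⟩ := hfrac F
    refine ⟨⟨b, hb⟩, ?_, ⟨a, ha⟩, ?_⟩
    · intro h0
      exact hb0 (congrArg Subtype.val h0)
    · change b * F = a
      rw [mul_comm]
      exact hab
  · intro P hP hP0 hht
    obtain ⟨w, hw, hwP⟩ := exists_dval hfg hfrac hn P hP hP0 hht
    obtain ⟨a, b, ha, hb, hb0, hob, hab⟩ := hw.2 F (h w hw)
    refine ⟨⟨b, hb⟩, ?_, ⟨a, ha⟩, ?_⟩
    · rw [← hwP]
      rintro (h0 | h0)
      · exact hb0 h0
      · change 0 < w.ord b at h0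
        omega
    · change b * F = a
      rw [mul_comm]
      exact hab

end Pool.Agent.W497.Mld
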