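import Mathlib
import Pool.Agent.W497.Mld.Defs
import Pool.Agent.W497.Mld.Dvr
import Pool.Agent.W497.Mld.Aff

/-!
# Divisorial contractions to the affine space
-/

set_option autoImplicit false
set_option linter.unusedSectionVars false

namespace Pool.Agent.W497.Mld

open Pool.Agent.H436R3.Fol Pool.Agent.H436R3.KT

section charts

variable {K : Type} [Field K] [Algebra ℂ K] {X : AffVar K} (Y : ProjBir X)

theorem R_le_chart (i : Fin (Y.n + 1)) : X.R ≤ Y.chart i := le_sup_left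

theorem div_mem_chart (i j : Fin (Y.n + 1)) : Y.ξ j / Y.ξ i ∈ Y.chart i :=
  (le_sup_right : _ ≤ Y.chart i) (Algebra.subset_adjoin ⟨j, rfl⟩)

theorem chart_fg (i : Fin (Y.n + 1)) : (Y.chart i).FG :=
  X.fg.sup (Subalgebra.fg_def.2 ⟨_, Set.finite_range _, rfl⟩)

theorem chart_frac (i : Fin (Y.n + 1)) (f : K) :
    ∃ a b : K, a ∈ Y.chart i ∧ b ∈ Y.chart i ∧ b ≠ 0 ∧ f * b = a := by
  obtain ⟨a, b, ha, hb, hb0, hab⟩ := X.frac f
  exact ⟨a, b, R_le_chart Y i ha, R_le_chart Y i hb, hb0, hab⟩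

/-- A subalgebra containing the coordinate ring and the quotients of the homogeneous coordinates
contains the chart. -/
theorem chart_le {i : Fin (Y.n + 1)} {T : Subalgebra ℂ K} (h1 : X.R ≤ T)
    (h2 : ∀ j, Y.ξ j / Y.ξ i ∈ T) : Y.chart i ≤ T := by
  refine sup_le h1 (Algebra.adjoin_le ?_)
  rintro _ ⟨j, rfl⟩
  exact h2 j

/-- The elements that are regular for a valuation of an extension field. -/
noncomputable def regSub {L : Type} [Field L] [Algebra ℂ L] (w : DVal L) (φ : K →+* L)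
    (hc : ∀ c : ℂ, w.Reg (φ (algebraMap ℂ K c))) : Subalgebra ℂ K where
  carrier := {f | w.Reg (φ f)}
  mul_mem' := by
    intro a b ha hb
    change w.Reg (φ (a * b))
    rw [map_mul]
    exact w.reg_mul ha hb
  add_mem' := by
    intro a b ha hb
    change w.Reg (φ (a + b))
    rw [map_add]
    exact w.reg_add ha hb
  algebraMap_mem' := hc

theorem chart_reg {L : Type} [Field L] [Algebra ℂ L] (w : DVal L) (φ : K →+* L)
    (hR : ∀ f ∈ X.R, w.Reg (φ f)) {i : Fin (Y.n + 1)}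
    (hi : ∀ j, w.ord (φ (Y.ξ i)) ≤ w.ord (φ (Y.ξ j))) {f : K} (hf : f ∈ Y.chart i) :
    w.Reg (φ f) := by
  have h1 : Y.chart i ≤ regSub w φ (fun c => hR _ (X.R.algebraMap_mem c)) := by
    refine chart_le Y (fun f hf => hR f hf) fun j => ?_
    change w.Reg (φ (Y.ξ j / Y.ξ i))
    refine w.reg_of_ord ?_
    have h2 : φ (Y.ξ i) ≠ 0 := (map_ne_zero _).2 (Y.ne i)
    have h3 : φ (Y.ξ j) ≠ 0 := (map_ne_zero _).2 (Y.ne j)
    rw [map_div₀, w.ord_div h3 h2]
    have := hi j
    omega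
  exact h1 hf

theorem exists_min {n : ℕ} (f : Fin (n + 1) → ℤ) : ∃ i, ∀ j, f i ≤ f j := by
  obtain ⟨i, _, hi⟩ := Finset.exists_min_image Finset.univ f ⟨0, Finset.mem_univ _⟩
  exact ⟨i, fun j => hi j (Finset.mem_univ _)⟩

end charts

section aff

variable {ι : Type} {K : Type} [Field K] [Algebra ℂ K]
  [Algebra (MvPolynomial ι ℂ) K] [IsFractionRing (MvPolynomial ι ℂ) K]
  [IsScalarTower ℂ (MvPolynomial ι ℂ) K] [Fintype ι] [DecidableEq ι] {d : ℕ} (e : Fin d ≃ ι)

include e in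
/-- Elements that are regular at all prime divisors of the affine space are polynomials. -/
theorem mem_RA_of_reg {f : K}
    (h : ∀ (p : MvPolynomial ι ℂ) (hp : Prime p), (valP K p hp).Reg f) : f ∈ RA ι K :=
  hartogs (affVar K e).fg RA_frac (fun _ hf => RA_normal hf) fun w hw => by
    obtain ⟨p, hp, hpw⟩ := exists_prime_of_local hw
    rcases h p hp with h0 | h0
    · exact Or.inl h0
    · by_cases hf : f = 0
      · exact Or.inl hf
      · right
        rw [hpw f hf]
        exact h0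

theorem prime_totalDegree {p : MvPolynomial ι ℂ} (hp : Prime p) : 1 ≤ p.totalDegree := by
  by_contra h
  have h0 : p.totalDegree = 0 := by omega
  rw [MvPolynomial.totalDegree_eq_zero_iff_eq_C] at h0
  have h1 : MvPolynomial.coeff 0 p ≠ 0 := by
    intro h2
    rw [h2, MvPolynomial.C_0] at h0
    exact hp.ne_zero h0
  apply hp.not_isUnit
  rw [h0]
  exact (isUnit_iff_ne_zero.2 h1).map MvPolynomial.C

theorem totalDegree_pow_eq {p : MvPolynomial ι ℂ} (hp : p ≠ 0) (n : ℕ) :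
    (p ^ n).totalDegree = n * p.totalDegree := by
  induction n with
  | zero => rw [pow_zero, MvPolynomial.totalDegree_one, Nat.zero_mul]
  | succ n ih =>
    rw [pow_succ, MvPolynomial.totalDegree_mul_of_isDomain (pow_ne_zero _ hp) hp, ih]
    ring

theorem mult_le_totalDegree {p b : MvPolynomial ι ℂ} (hp : Prime p) (hb : b ≠ 0) :
    multiplicity p b ≤ b.totalDegree := by
  obtain ⟨c, hc⟩ := pow_multiplicity_dvd p b
  have hc0 : c ≠ 0 := by
    rintro rfl
    rw [mul_zero] at hc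
    exact hb hc
  have h1 : b.totalDegree = multiplicity p b * p.totalDegree + c.totalDegree := by
    conv_lhs => rw [hc]
    rw [MvPolynomial.totalDegree_mul_of_isDomain (pow_ne_zero _ hp.ne_zero) hc0,
      totalDegree_pow_eq hp.ne_zero]
  have h2 := prime_totalDegree hp
  nlinarith [h1, h2]

variable (g : MvPolynomial ι ℂ) {U : AffVar K}

/-- The functions on the principal open subset. -/
theorem exists_pow_mul_mem (hg : g ≠ 0) (hU : U.R = RA ι K ⊔ Algebra.adjoin ℂ {(jo ι K g)⁻¹})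
    {f : K} (hf : f ∈ U.R) : ∃ m : ℕ, jo ι K g ^ m * f ∈ RA ι K := by
  have hg' : jo ι K g ≠ 0 := jo_ne hg
  let T : Subalgebra ℂ K :=
    { carrier := {f | ∃ m : ℕ, jo ι K g ^ m * f ∈ RA ι K}
      mul_mem' := by
        rintro a b ⟨m, hm⟩ ⟨n, hn⟩
        refine ⟨m + n, ?_⟩
        have : jo ι K g ^ (m + n) * (a * b) = (jo ι K g ^ m * a) * (jo ι K g ^ n * b) := by ring
        rw [this]
        exact mul_mem hm hn
      add_mem' := by
        rintro a b ⟨m, hm⟩ ⟨n, hn⟩
        refine ⟨m + n, ?_⟩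
        have : jo ι K g ^ (m + n) * (a + b) = jo ι K g ^ n * (jo ι K g ^ m * a) +
            jo ι K g ^ m * (jo ι K g ^ n * b) := by ring
        rw [this]
        exact add_mem (mul_mem (pow_mem (jo_mem g) _) hm) (mul_mem (pow_mem (jo_mem g) _) hn)
      algebraMap_mem' := fun c => ⟨0, by
        rw [pow_zero, one_mul]
        exact (RA ι K).algebraMap_mem c⟩ }
  have h1 : U.R ≤ T := by
    rw [hU]
    refine sup_le (fun f hf => ⟨0, by rw [pow_zero, one_mul]; exact hf⟩) (Algebra.adjoin_le ?_)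
    rintro _ rfl
    refine ⟨1, ?_⟩
    rw [pow_one, mul_inv_cancel₀ hg']
    exact one_mem _
  exact h1 hf

/-- A valuation that is regular on the affine space and at which `g` is a unit is regular on the
principal open subset. -/
theorem reg_U {L : Type} [Field L] [Algebra ℂ L] (w : DVal L) (φ : K →+* L) (hg : g ≠ 0)
    (hU : U.R = RA ι K ⊔ Algebra.adjoin ℂ {(jo ι K g)⁻¹})
    (hR : ∀ f ∈ RA ι K, w.Reg (φ f)) (hwg : w.ord (φ (jo ι K g)) = 0) {f : K} (hf : f ∈ U.R) :
    w.Reg (φ f) := by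
  obtain ⟨m, hm⟩ := exists_pow_mul_mem g hg hU hf
  have hg' : φ (jo ι K g) ≠ 0 := (map_ne_zero _).2 (jo_ne hg)
  by_cases hf0 : f = 0
  · left
    rw [hf0, map_zero]
  have hf1 : φ f ≠ 0 := (map_ne_zero _).2 hf0
  have h1 := hR _ hm
  rw [map_mul, map_pow] at h1
  have h2 := w.ord_nonneg (mul_ne_zero (pow_ne_zero _ hg') hf1) h1
  rw [w.map_mul _ _ (pow_ne_zero _ hg') hf1, w.ord_pow hg', hwg, mul_zero, zero_add] at h2
  exact Or.inr h2

variable (Y : ProjBir U) {v : DVal K}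

/-- The prime divisors of the principal open subset are prime divisors on `Y`. -/
theorem valP_on_chart (hg : g ≠ 0) (hU : U.R = RA ι K ⊔ Algebra.adjoin ℂ {(jo ι K g)⁻¹})
    {p : MvPolynomial ι ℂ} (hp : Prime p) (hpg : ¬ p ∣ g) {i : Fin (Y.n + 1)}
    (hi : ∀ j, (valP K p hp).ord (Y.ξ i) ≤ (valP K p hp).ord (Y.ξ j)) :
    IsLocalRing' (Y.chart i) (valP K p hp) := by
  have hle : RA ι K ≤ Y.chart i := by
    refine le_trans ?_ (R_le_chart Y i)
    rw [hU]
    exact le_sup_left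
  have h0 : (valP K p hp).ord (jo ι K g) = 0 := by
    have h1 : (valP K p hp).ord (jo ι K g) = (multiplicity p g : ℤ) := valP_ord hp hg
    rw [h1, multiplicity_eq_zero.2 hpg]
    rfl
  refine ⟨fun f hf => ?_, fun f hf => ?_⟩
  · exact chart_reg Y (valP K p hp) (RingHom.id K) (fun f hf => reg_U g (valP K p hp)
      (RingHom.id K) hg hU (fun f hf => (valP_local hp).1 f hf) h0 hf) hi hf
  · obtain ⟨a, b, ha, hb, h⟩ := (valP_local hp).2 f hf
    exact ⟨a, b, hle ha, hle hb, h⟩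

variable (hY : IsDivContraction Y v)

include e hY in
/-- The main consequence of the existence of a divisorial contraction. -/
theorem dc_main (hg : g ≠ 0) (hU : U.R = RA ι K ⊔ Algebra.adjoin ℂ {(jo ι K g)⁻¹})
    (hv : ∀ (p : MvPolynomial ι ℂ) (hp : Prime p), ¬ SameDiv (valP K p hp) v) :
    ∃ N : ℕ, 0 < N ∧ (∀ i, (∃ m : ℕ, jo ι K g ^ m * Y.ξ i ∈ RA ι K) ∧ (N : ℤ) ≤ v.ord (Y.ξ i)) ∧
      ∀ f ∈ RA ι K, f ≠ 0 → ∀ j : ℕ, (j * N : ℤ) ≤ v.ord f → ∀ i, f / Y.ξ i ^ j ∈ Y.chart i := by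
  obtain ⟨N, hN, hNw⟩ := hY.ample
  obtain ⟨N', rfl⟩ := Int.eq_ofNat_of_zero_le hN.le
  have hN' : 0 < N' := by exact_mod_cast hN
  obtain ⟨i0, hi0⟩ := hY.on
  have hvN : v.ord (Y.ξ i0) = N' := (hNw i0 v hi0).1 fun f _ => rfl
  have hg' : jo ι K g ≠ 0 := jo_ne hg
  refine ⟨N', hN', fun i => ⟨?_, ?_⟩, ?_⟩
  · obtain ⟨a, b, hb, hab⟩ := exists_frac (MvPolynomial ι ℂ) (Y.ξ i)
    have ha : a ≠ 0 := by
      rintro rfl
      rw [map_zero, zero_div] at hab
      exact Y.ne i hab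
    refine ⟨b.totalDegree, mem_RA_of_reg e fun p hp => ?_⟩
    refine DVal.reg_of_ord _ ?_
    rw [DVal.map_mul _ _ _ (pow_ne_zero _ hg') (Y.ne i), DVal.ord_pow _ hg']
    have h1 : (valP K p hp).ord (jo ι K g) = (multiplicity p g : ℤ) := valP_ord hp hg
    by_cases hpg : p ∣ g
    · have h2 : 1 ≤ multiplicity p g := Nat.one_le_iff_ne_zero.2 fun h0 =>
        multiplicity_eq_zero.1 h0 hpg
      have h3 : (valP K p hp).ord (Y.ξ i) = (multiplicity p a : ℤ) - multiplicity p b := by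
        rw [hab]
        exact ordP_div hp ha hb
      have h4 := mult_le_totalDegree hp hb
      rw [h1, h3]
      have h5 : (b.totalDegree : ℤ) ≤ (b.totalDegree : ℤ) * (multiplicity p g : ℤ) := by
        have : (1 : ℤ) ≤ multiplicity p g := by exact_mod_cast h2
        nlinarith [Int.natCast_nonneg b.totalDegree]
      have h6 : (multiplicity p b : ℤ) ≤ b.totalDegree := by exact_mod_cast h4
      have h7 : (0 : ℤ) ≤ multiplicity p a := Int.natCast_nonneg _
      linarith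
    · obtain ⟨j, hj⟩ := exists_min fun j => (valP K p hp).ord (Y.ξ j)
      have h2 := valP_on_chart g Y hg hU hp hpg hj
      have h3 := (hNw j _ h2).2 (hv p hp)
      have h4 := hj i
      rw [h3] at h4
      rw [h1, multiplicity_eq_zero.2 hpg]
      push_cast
      linarith
  · have h1 : v.Reg (Y.ξ i / Y.ξ i0) := hi0.1 _ (div_mem_chart Y i0 i)
    have h2 := v.ord_nonneg (div_ne_zero (Y.ne i) (Y.ne i0)) h1
    rw [v.ord_div (Y.ne i) (Y.ne i0), hvN] at h2
    omega
  · intro f hf hf0 j hj i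
    refine hartogs (chart_fg Y i) (chart_frac Y i) (fun g hg => hY.normal i g hg) fun w hw => ?_
    have hpow : Y.ξ i ^ j ≠ 0 := pow_ne_zero _ (Y.ne i)
    refine w.reg_of_ord ?_
    rw [w.ord_div hf0 hpow, w.ord_pow (Y.ne i)]
    by_cases hwv : SameDiv w v
    · rw [(hNw i w hw).1 hwv, hwv f hf0]
      have : ((N' : ℕ) : ℤ) = Int.ofNat N' := rfl
      rw [this] at hj ⊢
      linarith
    · rw [(hNw i w hw).2 hwv, mul_zero, sub_zero]
      refine w.ord_nonneg hf0 (hw.1 f (R_le_chart Y i ?_))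
      rw [hU]
      exact (le_sup_left : RA ι K ≤ _) hf

end aff

end Pool.Agent.W497.Mld
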