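import Mathlib

/-!
# Polynomials on the cuspidal cubic vanishing along a curve of non-torsion points
-/

set_option autoImplicit false
set_option linter.unusedSectionVars false

namespace Pool.Agent.W497.Mld

open Polynomial

variable {A : Type} [CommRing A] [IsDomain A] [CharZero A]

/-- The total degree is less than `n`. -/
def DegLt (p : A[X][X]) (n : ℕ) : Prop := ∀ l m, n ≤ l + m → (p.coeff l).coeff m = 0

theorem DegLt.mono {p : A[X][X]} {n m : ℕ} (h : DegLt p n) (hnm : n ≤ m) : DegLt p m :=
  fun l k hk => h l k (hnm.trans hk)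

theorem DegLt.add {p q : A[X][X]} {n : ℕ} (hp : DegLt p n) (hq : DegLt q n) :
    DegLt (p + q) n := by
  intro l m h
  rw [coeff_add, coeff_add, hp l m h, hq l m h, add_zero]

theorem DegLt.sum {ι : Type} (s : Finset ι) {p : ι → A[X][X]} {n : ℕ}
    (hp : ∀ i ∈ s, DegLt (p i) n) : DegLt (∑ i ∈ s, p i) n := by
  classical
  induction s using Finset.induction_on with
  | empty => intro l m _; simp
  | insert a s ha ih =>
    rw [Finset.sum_insert ha]
    exact (hp a (Finset.mem_insert_self _ _)).add
      (ih fun i hi => hp i (Finset.mem_insert_of_mem hi))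

theorem DegLt.zero {p : A[X][X]} (h : DegLt p 0) : p = 0 := by
  ext l m
  rw [h l m (Nat.zero_le _)]
  simp

theorem DegLt.mul {p q : A[X][X]} {n m : ℕ} (hp : DegLt p (n + 1)) (hq : DegLt q (m + 1)) :
    DegLt (p * q) (n + m + 1) := by
  intro l k hlk
  rw [coeff_mul, finsetSum_coeff]
  refine Finset.sum_eq_zero fun a ha => ?_
  rw [Finset.HasAntidiagonal.mem_antidiagonal] at ha
  rw [coeff_mul]
  refine Finset.sum_eq_zero fun b hb => ?_
  rw [Finset.HasAntidiagonal.mem_antidiagonal] at hb
  by_cases h : n + 1 ≤ a.1 + b.1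
  · rw [hp _ _ h, zero_mul]
  · rw [hq a.2 b.2 (by omega), mul_zero]

theorem exists_degLt (p : A[X][X]) : ∃ n, DegLt p n := by
  refine ⟨p.natDegree + 1 + (∑ l ∈ Finset.range (p.natDegree + 1), (p.coeff l).natDegree) + 1,
    fun l m h => ?_⟩
  by_cases hl : p.natDegree < l
  · rw [coeff_eq_zero_of_natDegree_lt hl, coeff_zero]
  · apply coeff_eq_zero_of_natDegree_lt
    have h1 : (p.coeff l).natDegree ≤ ∑ l ∈ Finset.range (p.natDegree + 1), (p.coeff l).natDegree :=
      Finset.single_le_sum (f := fun l => (p.coeff l).natDegree) (fun _ _ => Nat.zero_le _)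
        (Finset.mem_range.2 (by omega))
    omega

variable (A) in
/-- The equation of the cuspidal cubic. -/
noncomputable def cub : A[X][X] := X - C (X ^ 3)

theorem coeff_cub_mul (p : A[X][X]) (l m : ℕ) : ((cub A * p).coeff l).coeff (m + 3) =
    (if l = 0 then 0 else (p.coeff (l - 1)).coeff (m + 3)) - (p.coeff l).coeff m := by
  rw [cub, sub_mul, coeff_sub, coeff_sub, coeff_C_mul, coeff_X_pow_mul]
  congr 1
  rcases l with _ | l
  · simp
  · rw [coeff_X_mul, if_neg (Nat.succ_ne_zero l)]
    rfl

theorem DegLt.of_cub_mul {p : A[X][X]} {n : ℕ} (h : DegLt (cub A * p) n) : DegLt p (n - 3) := by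
  have h1 : ∀ N, n - 3 ≤ N → DegLt p (N + 1) → DegLt p N := by
    intro N hN hp l m hlm
    by_cases h2 : N + 1 ≤ l + m
    · exact hp l m h2
    have h3 := h l (m + 3) (by omega)
    rw [coeff_cub_mul] at h3
    have h4 : (if l = 0 then 0 else (p.coeff (l - 1)).coeff (m + 3)) = 0 := by
      split_ifs with hl
      · rfl
      · exact hp _ _ (by omega)
    rw [h4, zero_sub, neg_eq_zero] at h3
    exact h3
  obtain ⟨N, hN⟩ := exists_degLt p
  have h2 : ∀ j, DegLt p (n - 3 + j) → DegLt p (n - 3) := by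
    intro j
    induction j with
    | zero => exact id
    | succ j ih => exact fun hj => ih (h1 _ (by omega) hj)
  exact h2 N (hN.mono (by omega))

theorem degLt_cub : DegLt (cub A) (3 + 1) := by
  intro l m h
  rw [cub, coeff_sub, coeff_sub, coeff_X, coeff_C]
  split_ifs with h1 h2 h2
  · omega
  · rw [coeff_one, if_neg (by omega), coeff_zero, sub_zero]
  · rw [coeff_X_pow, if_neg (by omega), coeff_zero, sub_zero]
  · simp

theorem DegLt.cub_mul {p : A[X][X]} {n : ℕ} (h : DegLt p (n + 1)) :
    DegLt (cub A * p) (3 + n + 1) := degLt_cub.mul h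

/-- The expansion along the cuspidal cubic. -/
noncomputable def tay (p : A[X][X]) : A[X][X] := taylor (X ^ 3) p

theorem tay_zero (p : A[X][X]) : (tay p).coeff 0 = p.eval (X ^ 3) := taylor_coeff_zero _ _

theorem tay_cub_mul (p : A[X][X]) : tay (cub A * p) = X * tay p := by
  rw [tay, taylor_mul, cub, map_sub, taylor_X, taylor_C, add_sub_cancel_right]
  rfl

theorem tay_add (p q : A[X][X]) : tay (p + q) = tay p + tay q := map_add _ _ _

theorem exists_cub_mul {p : A[X][X]} (h : (tay p).coeff 0 = 0) : ∃ q, p = cub A * q := by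
  rw [tay_zero] at h
  exact dvd_iff_isRoot.2 h

variable (u : A)

/-- The curve. -/
noncomputable def TT : A[X] := X ^ 9 - X ^ 8 - C u

theorem TT_eq : TT u = X ^ 9 + (-(X ^ 8) - C u) := by rw [TT]; ring

theorem TT_deg_aux : (-(X ^ 8 : A[X]) - C u).degree < (9 : ℕ) := by
  refine lt_of_le_of_lt (degree_sub_le _ _) (max_lt ?_ ?_)
  · rw [degree_neg, degree_X_pow]
    norm_num
  · exact lt_of_le_of_lt degree_C_le (by norm_num)

theorem TT_monic : (TT u).Monic := by
  rw [TT_eq]
  exact monic_X_pow_add (TT_deg_aux u)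

theorem TT_natDegree : (TT u).natDegree = 9 := by
  rw [TT_eq, natDegree_add_eq_left_of_degree_lt, natDegree_X_pow]
  rw [degree_X_pow]
  exact TT_deg_aux u

theorem TT_next : (TT u).nextCoeff = -1 := by
  rw [nextCoeff_of_natDegree_pos (by rw [TT_natDegree]; norm_num), TT_natDegree, TT]
  simp [coeff_X_pow, coeff_C]

theorem TT_pow_natDegree (k : ℕ) : (TT u ^ k).natDegree = 9 * k := by
  rw [(TT_monic u).natDegree_pow, TT_natDegree, mul_comm]

theorem TT_pow_coeff (k : ℕ) : (TT u ^ (k + 1)).coeff (9 * (k + 1) - 1) = -((k : A) + 1) := by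
  have h1 := (TT_monic u).nextCoeff_pow (k + 1)
  rw [TT_next, nextCoeff_of_natDegree_pos (by rw [TT_pow_natDegree]; omega),
    TT_pow_natDegree] at h1
  rw [h1, nsmul_eq_mul]
  push_cast
  ring

theorem eval_coeff_eq_zero {p : A[X][X]} {n N : ℕ} (h : DegLt p n)
    (hN : ∀ l, 3 * l ≤ N → n ≤ l + (N - 3 * l)) : (p.eval (X ^ 3)).coeff N = 0 := by
  rw [eval_eq_sum_range, finsetSum_coeff]
  refine Finset.sum_eq_zero fun l _ => ?_
  rw [← pow_mul, coeff_mul_X_pow']
  split_ifs with h1
  · exact h _ _ (hN l h1)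
  · rfl

/-- The key lemma: polynomials of degree at most `i` that vanish to order `k` along the curve. -/
theorem lemC : ∀ (k i : ℕ) (p : A[X][X]), p ≠ 0 → DegLt p (i + 1) →
    (∀ l < k, TT u ^ (k - l) ∣ (tay p).coeff l) →
    3 * k ≤ i ∧ (1 ≤ k → i = 3 * k → (tay p).coeff 0 = 0) := by
  intro k
  induction k with
  | zero => intro i p _ _ _; exact ⟨by omega, fun h => by omega⟩
  | succ k ih =>
    intro i p hp hd hT
    by_cases h0 : (tay p).coeff 0 = 0
    · obtain ⟨q, rfl⟩ := exists_cub_mul h0
      have hq : q ≠ 0 := right_ne_zero_of_mul hp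
      have hdq := hd.of_cub_mul
      have hi : 3 ≤ i := by
        by_contra hc
        have : i + 1 - 3 = 0 := by omega
        rw [this] at hdq
        exact hq hdq.zero
      have h1 := (ih (i - 3) q hq (hdq.mono (by omega)) (by
        intro l hl
        have h2 := hT (l + 1) (by omega)
        rw [tay_cub_mul, coeff_X_mul] at h2
        have : k + 1 - (l + 1) = k - l := by omega
        rwa [this] at h2)).1
      exact ⟨by omega, fun _ _ => h0⟩
    · have h1 := hT 0 (by omega)
      rw [Nat.sub_zero] at h1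
      obtain ⟨q, hq⟩ := h1
      have hq0 : q ≠ 0 := by
        rintro rfl
        rw [mul_zero] at hq
        exact h0 hq
      have hdeg : (p.eval (X ^ 3)).natDegree ≤ 3 * i := by
        rw [natDegree_le_iff_coeff_eq_zero]
        intro N hN
        exact eval_coeff_eq_zero hd fun l hl => by omega
      have hnd : (TT u ^ (k + 1) * q).natDegree = 9 * (k + 1) + q.natDegree := by
        rw [((TT_monic u).pow (k + 1)).natDegree_mul' hq0, TT_pow_natDegree]
      rw [← tay_zero, hq, hnd] at hdeg
      refine ⟨by omega, fun _ hi => ?_⟩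
      exfalso
      have hq1 : q.natDegree = 0 := by omega
      rw [natDegree_eq_zero] at hq1
      obtain ⟨a, rfl⟩ := hq1
      have h2 : (p.eval (X ^ 3)).coeff (9 * (k + 1) - 1) = 0 :=
        eval_coeff_eq_zero hd fun l hl => by omega
      rw [← tay_zero, hq, coeff_mul_C, TT_pow_coeff] at h2
      have h3 : -((k : A) + 1) ≠ 0 := neg_ne_zero.2 (Nat.cast_add_one_ne_zero k)
      have h4 : a = 0 := (mul_eq_zero.1 h2).resolve_left h3
      exact hq0 (by rw [h4, C_0])

/-- Writing a polynomial as a polynomial of small degree on the cuspidal cubic. -/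
theorem exists_red (r : A[X]) (n b : ℕ) (hr : r.natDegree ≤ n)
    (hb : ∀ m ≤ n, m / 3 + m % 3 < b) : ∃ p : A[X][X], p.eval (X ^ 3) = r ∧ DegLt p b := by
  refine ⟨∑ m ∈ Finset.range (n + 1), C (C (r.coeff m) * X ^ (m % 3)) * X ^ (m / 3), ?_, ?_⟩
  · rw [eval_finsetSum]
    have h1 : ∀ m ∈ Finset.range (n + 1),
        (C (C (r.coeff m) * X ^ (m % 3)) * X ^ (m / 3) : A[X][X]).eval (X ^ 3) =
          C (r.coeff m) * X ^ m := by
      intro m _
      rw [eval_mul, eval_C, eval_pow, eval_X, ← pow_mul, mul_assoc, ← pow_add]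
      congr 2
      omega
    rw [Finset.sum_congr rfl h1]
    exact (as_sum_range_C_mul_X_pow' r (by omega)).symm
  · refine DegLt.sum _ fun m hm => ?_
    intro l k hlk
    rw [Finset.mem_range] at hm
    have h2 := hb m (by omega)
    rw [coeff_C_mul, coeff_X_pow]
    split_ifs with h3
    · rw [mul_one, coeff_C_mul, coeff_X_pow, if_neg (by omega), mul_zero]
    · rw [mul_zero, coeff_zero]

theorem tay_cub_coeff_succ (p : A[X][X]) (l : ℕ) :
    (tay (cub A * p)).coeff (l + 1) = (tay p).coeff l := by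
  rw [tay_cub_mul, coeff_X_mul]

theorem tay_cub_coeff_zero (p : A[X][X]) : (tay (cub A * p)).coeff 0 = 0 := by
  rw [tay_cub_mul, coeff_X_mul_zero]

/-- Interpolation. -/
theorem interp : ∀ (k : ℕ) (r : ℕ → A[X]), ∃ p : A[X][X], DegLt p (3 * k + 2) ∧
    ∀ l < k, TT u ^ (k - l) ∣ (tay p).coeff l - r l := by
  intro k
  induction k with
  | zero => exact fun r => ⟨0, fun l m _ => by simp, fun l hl => absurd hl (Nat.not_lt_zero l)⟩
  | succ k ih =>
    intro r
    have hm := (TT_monic u).pow (k + 1)
    have hd : (r 0 %ₘ (TT u ^ (k + 1))).natDegree ≤ 9 * k + 8 := by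
      have h1 := natDegree_modByMonic_lt (r 0) hm (by
        intro h
        have := congrArg natDegree h
        rw [TT_pow_natDegree, natDegree_one] at this
        omega)
      rw [TT_pow_natDegree] at h1
      omega
    obtain ⟨N, hN, hNd⟩ := exists_red (r 0 %ₘ (TT u ^ (k + 1))) (9 * k + 8) (3 * (k + 1) + 2) hd
      (fun m hm => by omega)
    obtain ⟨p, hp, hpT⟩ := ih fun l => r (l + 1) - (tay N).coeff (l + 1)
    refine ⟨N + cub A * p, hNd.add ?_, fun l hl => ?_⟩
    · exact (DegLt.cub_mul (n := 3 * k + 1) hp).mono (by omega)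
    · rcases l with _ | l
      · rw [tay_add, coeff_add, tay_cub_coeff_zero, add_zero, tay_zero, hN, Nat.sub_zero]
        have h2 := modByMonic_add_div (r 0) (TT u ^ (k + 1))
        refine ⟨-(r 0 /ₘ (TT u ^ (k + 1))), ?_⟩
        linear_combination h2
      · rw [tay_add, coeff_add, tay_cub_coeff_succ]
        have h2 := hpT l (by omega)
        have h3 : k + 1 - (l + 1) = k - l := by omega
        rw [h3]
        have h4 : (tay N).coeff (l + 1) + (tay p).coeff l - r (l + 1) =
            (tay p).coeff l - (r (l + 1) - (tay N).coeff (l + 1)) := by ring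
        rw [h4]
        exact h2

/-- The polynomials that show that the valuation algebra is not finitely generated. -/
theorem exists_pk (k : ℕ) : ∃ p : A[X][X], DegLt p (3 * k + 2) ∧ (tay p).coeff 0 = TT u ^ k ∧
    ∀ l < k, TT u ^ (k - l) ∣ (tay p).coeff l := by
  obtain ⟨N, hN, hNd⟩ := exists_red (TT u ^ k) (9 * k) (3 * k + 2)
    (by rw [TT_pow_natDegree]) (fun m hm => by omega)
  rcases k with _ | k
  · refine ⟨N, hNd, ?_, fun l hl => absurd hl (Nat.not_lt_zero l)⟩
    rw [tay_zero, hN]
  · obtain ⟨p, hp, hpT⟩ := interp u k fun l => - (tay N).coeff (l + 1)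
    refine ⟨N + cub A * p, hNd.add ?_, ?_, fun l hl => ?_⟩
    · exact (DegLt.cub_mul (n := 3 * k + 1) hp).mono (by omega)
    · rw [tay_add, coeff_add, tay_cub_coeff_zero, add_zero, tay_zero, hN]
    · rcases l with _ | l
      · rw [tay_add, coeff_add, tay_cub_coeff_zero, add_zero, tay_zero, hN, Nat.sub_zero]
      · rw [tay_add, coeff_add, tay_cub_coeff_succ]
        have h2 := hpT l (by omega)
        have h3 : k + 1 - (l + 1) = k - l := by omega
        rw [h3]
        have h4 : (tay N).coeff (l + 1) + (tay p).coeff l =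
            (tay p).coeff l - -(tay N).coeff (l + 1) := by ring
        rw [h4]
        exact h2

end Pool.Agent.W497.Mld
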