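import Mathlib
import Pool.Agent.W497.Mld.Aff

/-!
# The example: three hypersurfaces in the affine space of dimension 24
-/

set_option autoImplicit false
set_option linter.unusedSectionVars false

namespace Pool.Agent.W497.Mld

open Pool.Agent.H436R3.Fol Pool.Agent.H436R3.KT Matrix MvPolynomial

/-- The degrees of the three forms. -/
def sz : Fin 3 → ℕ := ![3, 5, 5]

/-- The index set of the variables. -/
abbrev Ix : Type := Fin 5 ⊕ (Fin 3 ⊕ (Fin 3 ⊕ (Σ i : Fin 3, Fin (sz i))))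

/-- The variables `z, x, y, w_0, w_1`. -/
abbrev ia (a : Fin 5) : Ix := Sum.inl a
abbrev ip (i : Fin 3) : Ix := Sum.inr (Sum.inl i)
abbrev it (l : Fin 3) : Ix := Sum.inr (Sum.inr (Sum.inl l))
abbrev iy (p : Σ i : Fin 3, Fin (sz i)) : Ix := Sum.inr (Sum.inr (Sum.inr p))

theorem card_Ix : Fintype.card Ix = 24 := rfl

/-- The three forms in five variables `z, x, y, w_0, w_1`. -/
noncomputable def gq : Fin 3 → MvPolynomial (Fin 5) ℂ :=
  ![X 2 * X 0 ^ 2 - X 1 ^ 3,
    X 4 * X 0 ^ 4 - X 3 * (X 2 ^ 3 * X 0 - X 1 ^ 2 * X 2 ^ 2),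
    X 4 * X 0 ^ 2 * (X 2 * X 0 + X 1 ^ 2) - X 3 * (X 2 ^ 4 - X 1 * X 2 ^ 3)]

/-- The equations of the three hypersurfaces. -/
noncomputable def Fq (i : Fin 3) : MvPolynomial Ix ℂ :=
  (∏ j : Fin (sz i), X (iy ⟨i, j⟩)) * X (ip i) + rename ia (gq i)

theorem gq_ne (i : Fin 3) : gq i ≠ 0 := by
  intro h
  have h1 : aeval (![(1 : ℂ), 0, 1, 1, 2]) (gq i) = 0 := by rw [h, map_zero]
  fin_cases i
  · simp [gq] at h1
  · simp [gq] at h1
    norm_num at h1
  · simp [gq] at h1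
    norm_num at h1

theorem ia_inj : Function.Injective ia := Sum.inl_injective

theorem rename_ne (i : Fin 3) : rename ia (gq i) ≠ 0 := by
  rw [Ne, map_eq_zero_iff _ (rename_injective _ ia_inj)]
  exact gq_ne i

theorem ip_notMem (i k : Fin 3) : ip i ∉ (rename ia (gq k)).vars := by
  intro h
  have h1 := vars_rename ia (gq k) h
  rw [Finset.mem_image] at h1
  obtain ⟨a, _, ha⟩ := h1
  exact absurd ha (by simp [ia, ip])

theorem ip_notMem_prod (i k : Fin 3) :
    ip i ∉ (∏ j : Fin (sz k), (X (iy ⟨k, j⟩) : MvPolynomial Ix ℂ)).vars := by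
  intro h
  have h1 := vars_prod (R := ℂ) (s := Finset.univ)
    (fun j : Fin (sz k) => (X (iy ⟨k, j⟩) : MvPolynomial Ix ℂ)) h
  rw [Finset.mem_biUnion] at h1
  obtain ⟨a, _, ha⟩ := h1
  rw [vars_X, Finset.mem_singleton] at ha
  exact absurd ha (by simp [iy, ip])

theorem prod_ne (k : Fin 3) :
    (∏ j : Fin (sz k), (X (iy ⟨k, j⟩) : MvPolynomial Ix ℂ)) ≠ 0 :=
  Finset.prod_ne_zero_iff.2 fun _ _ => X_ne_zero _

theorem not_X_dvd (k : Fin 3) (p : Σ i : Fin 3, Fin (sz i)) : ¬ X (iy p) ∣ rename ia (gq k) := by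
  classical
  rintro ⟨c, hc⟩
  have h1 := congrArg (aeval (Function.update (X : Ix → MvPolynomial Ix ℂ) (iy p) 0)) hc
  rw [map_mul, aeval_X, Function.update_self, zero_mul, aeval_rename] at h1
  have h2 : (Function.update (X : Ix → MvPolynomial Ix ℂ) (iy p) 0) ∘ ia = X ∘ ia := by
    funext a
    simp [ia, iy]
  rw [h2] at h1
  have h3 : aeval (X ∘ ia : Fin 5 → MvPolynomial Ix ℂ) (gq k) = rename ia (gq k) := by
    rw [← aeval_rename, aeval_X_left_apply]
  rw [h3] at h1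
  exact rename_ne k h1

theorem Fq_prime (i : Fin 3) : Prime (Fq i) := by
  rw [← irreducible_iff_prime]
  refine irreducible_mul_X_add _ _ (ip i) (prod_ne i) (ip_notMem_prod i i) (ip_notMem i i) ?_
  intro d hd1 hd2
  by_contra hd
  have hd0 : d ≠ 0 := by
    rintro rfl
    exact prod_ne i (zero_dvd_iff.1 hd1)
  obtain ⟨p, hp, hpd⟩ := WfDvdMonoid.exists_irreducible_factor hd hd0
  have hp' := hp.prime
  obtain ⟨j, _, hj⟩ := (Prime.dvd_finsetProd_iff hp' _).1 (hpd.trans hd1)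
  have h1 : Associated p (X (iy ⟨i, j⟩)) := hp'.associated_of_dvd X_prime hj
  exact not_X_dvd i ⟨i, j⟩ ((h1.symm.dvd.trans hpd).trans hd2)

/-- The three hypersurfaces are different. -/
theorem Fq_not_dvd {i k : Fin 3} (h : i ≠ k) : ¬ Fq i ∣ Fq k := by
  rintro ⟨c, hc⟩
  let pt : Ix → ℂ := Sum.elim 0 (Sum.elim (Pi.single k 1) (Sum.elim 0 (fun _ => 1)))
  have h1 := congrArg (aeval pt) hc
  have hg : ∀ m, aeval pt (rename ia (gq m)) = 0 := by
    intro m
    rw [aeval_rename]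
    have : pt ∘ ia = fun _ => 0 := rfl
    rw [this]
    fin_cases m <;> simp [gq]
  rw [map_mul, Fq, Fq, map_add, map_add, hg, hg, map_mul, map_mul, aeval_X, aeval_X, map_prod,
    map_prod] at h1
  simp only [aeval_X] at h1
  have h2 : pt (ip i) = 0 := by
    change (Pi.single k (1 : ℂ) : Fin 3 → ℂ) i = 0
    rw [Pi.single_apply, if_neg h]
  have h3 : pt (ip k) = 1 := by
    change (Pi.single k (1 : ℂ) : Fin 3 → ℂ) k = 1
    rw [Pi.single_apply, if_pos rfl]
  have h4 : ∀ p, pt (iy p) = 1 := fun p => rfl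
  rw [h2, h3] at h1
  simp [h4] at h1

section K

variable {K : Type} [Field K] [Algebra ℂ K]
  [Algebra (MvPolynomial Ix ℂ) K] [IsFractionRing (MvPolynomial Ix ℂ) K]
  [IsScalarTower ℂ (MvPolynomial Ix ℂ) K]

variable (K) in
/-- The equations of the three hypersurfaces. -/
noncomputable def fk (i : Fin 3) : K := jo Ix K (Fq i)

theorem fk_ne (i : Fin 3) : fk K i ≠ 0 := jo_ne (Fq_prime i).ne_zero

theorem fk_eq (i : Fin 3) : fk K i =
    (∏ j : Fin (sz i), cv K (iy ⟨i, j⟩)) * cv K (ip i) + aeval (fun a => cv K (ia a)) (gq i) := by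
  rw [fk, Fq, map_add, map_mul, map_prod, ← aeval_cv (K := K), aeval_rename]
  simp only [aeval_X]
  rfl

/-- The partial derivatives of the equations. -/
theorem pd_fk_ip (i : Fin 3) : pd K (ip i) (fk K i) = ∏ j : Fin (sz i), cv K (iy ⟨i, j⟩) := by
  rw [fk, pd_jo, Fq, map_add, Derivation.leibniz, pderiv_X_self,
    pderiv_eq_zero_of_notMem_vars (ip_notMem i i), pderiv_eq_zero_of_notMem_vars
      (ip_notMem_prod i i), smul_zero, add_zero, add_zero, smul_eq_mul, mul_one, map_prod]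
  rfl

theorem pd_fk_ne {i k : Fin 3} (h : i ≠ k) : pd K (ip i) (fk K k) = 0 := by
  rw [fk, pd_jo, Fq, map_add, Derivation.leibniz, pderiv_X_of_ne (by simp [ip]; exact h.symm),
    pderiv_eq_zero_of_notMem_vars (ip_notMem i k), pderiv_eq_zero_of_notMem_vars
      (ip_notMem_prod i k), smul_zero, smul_zero, add_zero, add_zero, map_zero]

end K

end Pool.Agent.W497.Mld
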