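import Mathlib
import Pool.Agent.W497.Mld.Ex

/-!
# Prime ideals of the polynomial ring in five variables containing the forms
-/

set_option autoImplicit false
set_option linter.unusedSectionVars false

namespace Pool.Agent.W497.Mld

open MvPolynomial

abbrev Q5 : Type := MvPolynomial (Fin 5) ℂ

/-- A triangular system of polynomials, `r` of which lie in the prime ideal `𝔮`, with partial
derivatives that do not lie in `𝔮`. -/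
def Rk (𝔮 : Ideal Q5) (r : ℕ) : Prop :=
  ∃ P : Fin 5 → Q5, (∀ a b, a < b → pderiv b (P a) = 0) ∧ (∀ a, pderiv a (P a) ∉ 𝔮) ∧
    ∃ A : Finset (Fin 5), (∀ a ∈ A, P a ∈ 𝔮) ∧ r = A.card

variable {𝔮 : Ideal Q5}

theorem one_notMem [h𝔮 : 𝔮.IsPrime] : (1 : Q5) ∉ 𝔮 := fun h => h𝔮.ne_top ((Ideal.eq_top_iff_one _).2 h)

theorem Rk_mk [h𝔮 : 𝔮.IsPrime] (p1 p2 p4 : Q5) (t1 : ∀ b : Fin 5, 1 < b → pderiv b p1 = 0)
    (t2 : ∀ b : Fin 5, 2 < b → pderiv b p2 = 0) (d1 : pderiv 1 p1 ∉ 𝔮) (d2 : pderiv 2 p2 ∉ 𝔮)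
    (d4 : pderiv 4 p4 ∉ 𝔮) (A : Finset (Fin 5))
    (hA : ∀ a ∈ A, (![X 0, p1, p2, X 3, p4] : Fin 5 → Q5) a ∈ 𝔮) : Rk 𝔮 A.card := by
  refine ⟨![X 0, p1, p2, X 3, p4], ?_, ?_, A, hA, rfl⟩
  · intro a b hab
    fin_cases a
    · change pderiv b (X 0 : Q5) = 0
      exact pderiv_X_of_ne (by rintro rfl; exact absurd hab (lt_irrefl _))
    · exact t1 b hab
    · exact t2 b hab
    · change pderiv b (X 3 : Q5) = 0
      exact pderiv_X_of_ne (by rintro rfl; exact absurd hab (lt_irrefl _))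
    · exact absurd hab (not_lt.2 (Fin.le_last b))
  · intro a
    fin_cases a
    · change pderiv 0 (X 0 : Q5) ∉ 𝔮
      rw [pderiv_X_self]
      exact one_notMem
    · exact d1
    · exact d2
    · change pderiv 3 (X 3 : Q5) ∉ 𝔮
      rw [pderiv_X_self]
      exact one_notMem
    · exact d4

theorem tX (a : Fin 5) : ∀ b : Fin 5, a < b → pderiv b (X a : Q5) = 0 := fun _ hb =>
  pderiv_X_of_ne hb.ne

theorem dX [h𝔮 : 𝔮.IsPrime] (a : Fin 5) : pderiv a (X a : Q5) ∉ 𝔮 := by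
  rw [pderiv_X_self]
  exact one_notMem

theorem tXX : ∀ b : Fin 5, 1 < b → pderiv b (X 1 + X 0 : Q5) = 0 := by
  intro b hb
  rw [map_add, pderiv_X_of_ne hb.ne, pderiv_X_of_ne (by
    rintro rfl
    exact absurd hb (by decide)), add_zero]

theorem dXX [h𝔮 : 𝔮.IsPrime] : pderiv 1 (X 1 + X 0 : Q5) ∉ 𝔮 := by
  rw [map_add, pderiv_X_self, pderiv_X_of_ne (by decide), add_zero]
  exact one_notMem

/-- The conic. -/
noncomputable def qc : Q5 := X 2 * X 0 + X 1 ^ 2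

theorem pd_aux0 {b : Fin 5} (hb : 2 < b) : pderiv b (X 0 : Q5) = 0 :=
  pderiv_X_of_ne (by rintro rfl; exact absurd hb (by decide))

theorem pd_aux1 {b : Fin 5} (hb : 2 < b) : pderiv b (X 1 : Q5) = 0 :=
  pderiv_X_of_ne (by rintro rfl; exact absurd hb (by decide))

theorem pd_aux2 {b : Fin 5} (hb : 2 < b) : pderiv b (X 2 : Q5) = 0 :=
  pderiv_X_of_ne (by rintro rfl; exact absurd hb (by decide))

theorem tqc : ∀ b : Fin 5, 2 < b → pderiv b qc = 0 := by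
  intro b hb
  rw [qc, map_add, Derivation.leibniz, Derivation.leibniz_pow, pd_aux0 hb, pd_aux1 hb, pd_aux2 hb]
  simp

theorem dqc_eq : pderiv 2 qc = X 0 := by
  rw [qc, map_add, Derivation.leibniz, Derivation.leibniz_pow, pderiv_X_self,
    pderiv_X_of_ne (by decide), pderiv_X_of_ne (by decide)]
  simp

theorem g0_eq : gq 0 = X 2 * X 0 ^ 2 - X 1 ^ 3 := rfl
theorem g1_eq : gq 1 = X 4 * X 0 ^ 4 - X 3 * (X 2 ^ 3 * X 0 - X 1 ^ 2 * X 2 ^ 2) := rfl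
theorem g2_eq : gq 2 = X 4 * X 0 ^ 2 * (X 2 * X 0 + X 1 ^ 2) - X 3 * (X 2 ^ 4 - X 1 * X 2 ^ 3) :=
  rfl

theorem tg0 : ∀ b : Fin 5, 2 < b → pderiv b (gq 0) = 0 := by
  intro b hb
  rw [g0_eq, map_sub, Derivation.leibniz, Derivation.leibniz_pow, Derivation.leibniz_pow,
    pd_aux0 hb, pd_aux1 hb, pd_aux2 hb]
  simp

theorem dg0_eq : pderiv 2 (gq 0) = X 0 ^ 2 := by
  rw [g0_eq, map_sub, Derivation.leibniz, Derivation.leibniz_pow, Derivation.leibniz_pow,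
    pderiv_X_self, pderiv_X_of_ne (by decide), pderiv_X_of_ne (by decide)]
  simp

theorem dg1_eq : pderiv 4 (gq 1) = X 0 ^ 4 := by
  rw [g1_eq]
  simp [Derivation.leibniz, Derivation.leibniz_pow, pderiv_X, Pi.single_apply]

theorem dg2_eq : pderiv 4 (gq 2) = X 0 ^ 2 * qc := by
  rw [g2_eq]
  simp [Derivation.leibniz, Derivation.leibniz_pow, pderiv_X, Pi.single_apply, qc]
  ring

section prime

variable [h𝔮 : 𝔮.IsPrime]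

theorem dqc (hz : X 0 ∉ 𝔮) : pderiv 2 qc ∉ 𝔮 := by rwa [dqc_eq]

theorem dg0 (hz : X 0 ∉ 𝔮) : pderiv 2 (gq 0) ∉ 𝔮 := by
  rw [dg0_eq]
  exact fun h => hz (h𝔮.mem_of_pow_mem _ h)

theorem dg1 (hz : X 0 ∉ 𝔮) : pderiv 4 (gq 1) ∉ 𝔮 := by
  rw [dg1_eq]
  exact fun h => hz (h𝔮.mem_of_pow_mem _ h)

theorem dg2 (hz : X 0 ∉ 𝔮) (hq : qc ∉ 𝔮) : pderiv 4 (gq 2) ∉ 𝔮 := by
  rw [dg2_eq]
  intro h
  rcases h𝔮.mem_or_mem h with h | h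
  · exact hz (h𝔮.mem_of_pow_mem _ h)
  · exact hq h

theorem Rk_zero : Rk 𝔮 0 :=
  Rk_mk (X 1) (X 2) (X 4) (tX 1) (tX 2) (dX 1) (dX 2) (dX 4) ∅ (by simp)

theorem Rk_one (h : ∃ i, gq i ∈ 𝔮) : Rk 𝔮 1 := by
  by_cases hz : X 0 ∈ 𝔮
  · exact Rk_mk (X 1) (X 2) (X 4) (tX 1) (tX 2) (dX 1) (dX 2) (dX 4) {0} (by simpa using hz)
  obtain ⟨i, hi⟩ := h
  fin_cases i
  · exact Rk_mk (X 1) (gq 0) (X 4) (tX 1) tg0 (dX 1) (dg0 hz) (dX 4) {2} (by simpa using hi)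
  · exact Rk_mk (X 1) (X 2) (gq 1) (tX 1) (tX 2) (dX 1) (dX 2) (dg1 hz) {4} (by simpa using hi)
  · by_cases hq : qc ∈ 𝔮
    · exact Rk_mk (X 1) qc (X 4) (tX 1) tqc (dX 1) (dqc hz) (dX 4) {2} (by simpa using hq)
    · exact Rk_mk (X 1) (X 2) (gq 2) (tX 1) (tX 2) (dX 1) (dX 2) (dg2 hz hq) {4}
        (by simpa using hi)

theorem x_mem (h0 : gq 0 ∈ 𝔮) (hz : X 0 ∈ 𝔮) : X 1 ∈ 𝔮 := by
  apply h𝔮.mem_of_pow_mem 3
  have h1 : (X 1 ^ 3 : Q5) = (X 2 * X 0) * X 0 - gq 0 := by rw [g0_eq]; ring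
  rw [h1]
  exact 𝔮.sub_mem (𝔮.mul_mem_left _ hz) h0

theorem Rk_two01 (h0 : gq 0 ∈ 𝔮) (h1 : gq 1 ∈ 𝔮) : Rk 𝔮 2 := by
  by_cases hz : X 0 ∈ 𝔮
  · have hx := x_mem h0 hz
    exact Rk_mk (X 1) (X 2) (X 4) (tX 1) (tX 2) (dX 1) (dX 2) (dX 4) {0, 1} (by simp [hz, hx])
  · exact Rk_mk (X 1) (gq 0) (gq 1) (tX 1) tg0 (dX 1) (dg0 hz) (dg1 hz) {2, 4} (by simp [h0, h1])

theorem Rk_two02 (h0 : gq 0 ∈ 𝔮) (h2 : gq 2 ∈ 𝔮) : Rk 𝔮 2 := by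
  by_cases hz : X 0 ∈ 𝔮
  · have hx := x_mem h0 hz
    exact Rk_mk (X 1) (X 2) (X 4) (tX 1) (tX 2) (dX 1) (dX 2) (dX 4) {0, 1} (by simp [hz, hx])
  by_cases hq : qc ∈ 𝔮
  · have h3 : (X 1 * X 1) * (X 1 + X 0) ∈ 𝔮 := by
      have : ((X 1 * X 1) * (X 1 + X 0) : Q5) = X 0 * qc - gq 0 := by
        rw [g0_eq, qc]; ring
      rw [this]
      exact 𝔮.sub_mem (𝔮.mul_mem_left _ hq) h0
    rcases h𝔮.mem_or_mem h3 with h4 | h4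
    · have hx : X 1 ∈ 𝔮 := by
        rcases h𝔮.mem_or_mem h4 with h | h <;> exact h
      exact Rk_mk (X 1) qc (X 4) (tX 1) tqc (dX 1) (dqc hz) (dX 4) {1, 2} (by simp [hx, hq])
    · exact Rk_mk (X 1 + X 0) qc (X 4) tXX tqc dXX (dqc hz) (dX 4) {1, 2} (by simp [h4, hq])
  · exact Rk_mk (X 1) (gq 0) (gq 2) (tX 1) tg0 (dX 1) (dg0 hz) (dg2 hz hq) {2, 4}
      (by simp [h0, h2])

theorem Rk_two12 (h1 : gq 1 ∈ 𝔮) (h2 : gq 2 ∈ 𝔮) : Rk 𝔮 2 := by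
  by_cases hz : X 0 ∈ 𝔮
  · have h3 : X 3 * ((X 1 * X 1) * (X 2 * X 2)) ∈ 𝔮 := by
      have : (X 3 * ((X 1 * X 1) * (X 2 * X 2)) : Q5) =
          gq 1 - (X 4 * X 0 ^ 3 - X 3 * X 2 ^ 3) * X 0 := by
        rw [g1_eq]; ring
      rw [this]
      exact 𝔮.sub_mem h1 (𝔮.mul_mem_left _ hz)
    rcases h𝔮.mem_or_mem h3 with h4 | h4
    · exact Rk_mk (X 1) (X 2) (X 4) (tX 1) (tX 2) (dX 1) (dX 2) (dX 4) {0, 3} (by simp [hz, h4])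
    rcases h𝔮.mem_or_mem h4 with h5 | h5
    · have hx : X 1 ∈ 𝔮 := by
        rcases h𝔮.mem_or_mem h5 with h | h <;> exact h
      exact Rk_mk (X 1) (X 2) (X 4) (tX 1) (tX 2) (dX 1) (dX 2) (dX 4) {0, 1} (by simp [hz, hx])
    · have hx : X 2 ∈ 𝔮 := by
        rcases h𝔮.mem_or_mem h5 with h | h <;> exact h
      exact Rk_mk (X 1) (X 2) (X 4) (tX 1) (tX 2) (dX 1) (dX 2) (dX 4) {0, 2} (by simp [hz, hx])
  have h3 : X 3 * ((X 2 * X 2) * (X 1 * gq 0)) ∈ 𝔮 := by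
    have : (X 3 * ((X 2 * X 2) * (X 1 * gq 0)) : Q5) = X 0 ^ 2 * gq 2 - qc * gq 1 := by
      rw [g0_eq, g1_eq, g2_eq, qc]; ring
    rw [this]
    exact 𝔮.sub_mem (𝔮.mul_mem_left _ h2) (𝔮.mul_mem_left _ h1)
  have hw : X 4 * X 0 ^ 4 ∈ 𝔮 → X 4 ∈ 𝔮 := by
    intro h
    rcases h𝔮.mem_or_mem h with h | h
    · exact h
    · exact absurd (h𝔮.mem_of_pow_mem _ h) hz
  rcases h𝔮.mem_or_mem h3 with h4 | h4
  · have h5 : X 4 ∈ 𝔮 := by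
      apply hw
      have : (X 4 * X 0 ^ 4 : Q5) = gq 1 + (X 2 ^ 3 * X 0 - X 1 ^ 2 * X 2 ^ 2) * X 3 := by
        rw [g1_eq]; ring
      rw [this]
      exact 𝔮.add_mem h1 (𝔮.mul_mem_left _ h4)
    exact Rk_mk (X 1) (X 2) (X 4) (tX 1) (tX 2) (dX 1) (dX 2) (dX 4) {3, 4} (by simp [h4, h5])
  rcases h𝔮.mem_or_mem h4 with h5 | h5
  · have hy : X 2 ∈ 𝔮 := by
      rcases h𝔮.mem_or_mem h5 with h | h <;> exact h
    have h6 : X 4 ∈ 𝔮 := by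
      apply hw
      have : (X 4 * X 0 ^ 4 : Q5) = gq 1 + (X 3 * (X 2 ^ 2 * X 0 - X 1 ^ 2 * X 2)) * X 2 := by
        rw [g1_eq]; ring
      rw [this]
      exact 𝔮.add_mem h1 (𝔮.mul_mem_left _ hy)
    exact Rk_mk (X 1) (X 2) (X 4) (tX 1) (tX 2) (dX 1) (dX 2) (dX 4) {2, 4} (by simp [hy, h6])
  rcases h𝔮.mem_or_mem h5 with h6 | h6
  · exact Rk_mk (X 1) (X 2) (gq 1) (tX 1) (tX 2) (dX 1) (dX 2) (dg1 hz) {1, 4}
      (by simp [h6, h1])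
  · exact Rk_two01 h6 h1

theorem Rk_three (h0 : gq 0 ∈ 𝔮) (h1 : gq 1 ∈ 𝔮) (h2 : gq 2 ∈ 𝔮) (h : X 0 ∈ 𝔮 ∨ X 3 ∈ 𝔮) :
    Rk 𝔮 3 := by
  by_cases hz : X 0 ∈ 𝔮
  · have hx := x_mem h0 hz
    have h3 : X 3 * X 2 ^ 4 ∈ 𝔮 := by
      have : (X 3 * X 2 ^ 4 : Q5) = (X 4 * X 0 * (X 2 * X 0 + X 1 ^ 2)) * X 0 +
          (X 3 * X 2 ^ 3) * X 1 - gq 2 := by
        rw [g2_eq]; ring
      rw [this]
      exact 𝔮.sub_mem (𝔮.add_mem (𝔮.mul_mem_left _ hz) (𝔮.mul_mem_left _ hx)) h2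
    rcases h𝔮.mem_or_mem h3 with h4 | h4
    · exact Rk_mk (X 1) (X 2) (X 4) (tX 1) (tX 2) (dX 1) (dX 2) (dX 4) {0, 1, 3}
        (by simp [hz, hx, h4])
    · have hy := h𝔮.mem_of_pow_mem _ h4
      exact Rk_mk (X 1) (X 2) (X 4) (tX 1) (tX 2) (dX 1) (dX 2) (dX 4) {0, 1, 2}
        (by simp [hz, hx, hy])
  · have h4 := h.resolve_left hz
    have h5 : X 4 ∈ 𝔮 := by
      have h6 : X 4 * X 0 ^ 4 ∈ 𝔮 := by
        have : (X 4 * X 0 ^ 4 : Q5) = gq 1 + (X 2 ^ 3 * X 0 - X 1 ^ 2 * X 2 ^ 2) * X 3 := by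
          rw [g1_eq]; ring
        rw [this]
        exact 𝔮.add_mem h1 (𝔮.mul_mem_left _ h4)
      rcases h𝔮.mem_or_mem h6 with h | h
      · exact h
      · exact absurd (h𝔮.mem_of_pow_mem _ h) hz
    exact Rk_mk (X 1) (gq 0) (X 4) (tX 1) tg0 (dX 1) (dg0 hz) (dX 4) {2, 3, 4}
      (by simp [h0, h4, h5])

end prime

end Pool.Agent.W497.Mld
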