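import Mathlib
import Pool.Agent.W497.Mld.Rk

/-!
# Lower bounds for log discrepancies in the example
-/

set_option autoImplicit false
set_option linter.unusedSectionVars false

namespace Pool.Agent.W497.Mld

open Pool.Agent.H436R3.Fol Pool.Agent.H436R3.KT Matrix MvPolynomial

variable {K : Type} [Field K] [Algebra ℂ K]
  [Algebra (MvPolynomial Ix ℂ) K] [IsFractionRing (MvPolynomial Ix ℂ) K]
  [IsScalarTower ℂ (MvPolynomial Ix ℂ) K]

theorem sum_Ix {M : Type} [AddCommMonoid M] (f : Ix → M) :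
    ∑ k, f k = ∑ a, f (ia a) + (∑ i, f (ip i) + (∑ l, f (it l) + ∑ p, f (iy p))) := by
  rw [Fintype.sum_sum_type, Fintype.sum_sum_type, Fintype.sum_sum_type]

theorem prod_Ix {M : Type} [CommMonoid M] (f : Ix → M) :
    ∏ k, f k = (∏ a, f (ia a)) * ((∏ i, f (ip i)) * ((∏ l, f (it l)) * ∏ p, f (iy p))) := by
  rw [Fintype.prod_sum_type, Fintype.prod_sum_type, Fintype.prod_sum_type]

theorem sum_iy {M : Type} [AddCommMonoid M] (f : (Σ i : Fin 3, Fin (sz i)) → M) :
    ∑ p, f p = ∑ i, ∑ j : Fin (sz i), f ⟨i, j⟩ := Fintype.sum_sigma _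

variable (v : DVal K) {n : ℤ} (e : Fin 24 ≃ Ix)

/-- The system of functions. -/
noncomputable def hs (H : Fin 5 → K) (G : Fin 3 → K) : Ix → K :=
  Sum.elim H (Sum.elim G (Sum.elim (fun l => cv K (it l)) fun p => cv K (iy p)))

/-- Levels. -/
def lv : Ix → ℕ :=
  Sum.elim (fun a => 1 + (a : ℕ)) (Sum.elim (fun _ => 6) (Sum.elim (fun _ => 0) fun _ => 0))

theorem hs_det (H : Fin 5 → K) (G : Fin 3 → K)
    (h1 : ∀ a b : Fin 5, a < b → pd K (ia b) (H a) = 0)
    (h2 : ∀ i a, pd K (ip i) (H a) = 0)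
    (h3 : ∀ i k, i ≠ k → pd K (ip i) (G k) = 0) :
    (Matrix.of fun j k => pd K j (hs H G k)).det =
      (∏ a, pd K (ia a) (H a)) * ∏ i, pd K (ip i) (G i) := by
  rw [det_lev _ lv]
  · simp only [of_apply]
    rw [prod_Ix (fun k => pd K k (hs H G k))]
    have e1 : ∀ l, pd K (it l) (hs H G (it l)) = 1 := fun l => pd_cv_self _
    have e2 : ∀ p, pd K (iy p) (hs H G (iy p)) = 1 := fun p => pd_cv_self _
    simp only [e1, e2, Finset.prod_const_one, mul_one]
    rfl
  · rintro j (a | i | l | p) hjk hl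
    · rcases j with b | i | l | p
      · refine h1 a b ?_
        have hl' : 1 + (a : ℕ) ≤ 1 + (b : ℕ) := hl
        have hab : a ≠ b := by
          rintro rfl
          exact hjk rfl
        have : (a : ℕ) ≠ b := fun h => hab (Fin.ext h)
        rw [Fin.lt_def]
        omega
      · exact h2 i a
      · have hl' : 1 + (a : ℕ) ≤ 0 := hl
        omega
      · have hl' : 1 + (a : ℕ) ≤ 0 := hl
        omega
    · rcases j with b | i' | l | p
      · have hl' : 6 ≤ 1 + (b : ℕ) := hl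
        have := b.2
        omega
      · refine h3 i' i ?_
        rintro rfl
        exact hjk rfl
      · have hl' : 6 ≤ 0 := hl
        omega
      · have hl' : 6 ≤ 0 := hl
        omega
    · exact pd_cv_ne hjk
    · exact pd_cv_ne hjk

/-- The inequality for the system of functions. -/
theorem hs_bound (hn : IsCanOrd (affFol K e) v n) (H : Fin 5 → K) (G : Fin 3 → K)
    (h0 : ∀ a, H a ≠ 0) (h0' : ∀ i, G i ≠ 0)
    (h1 : ∀ a b : Fin 5, a < b → pd K (ia b) (H a) = 0)
    (h2 : ∀ i a, pd K (ip i) (H a) = 0)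
    (h3 : ∀ i k, i ≠ k → pd K (ip i) (G k) = 0)
    (h4 : ∀ a, pd K (ia a) (H a) ≠ 0) (h5 : ∀ i, pd K (ip i) (G i) ≠ 0) :
    ∑ a, (v.ord (H a) - v.ord (pd K (ia a) (H a))) +
      ∑ i, (v.ord (G i) - v.ord (pd K (ip i) (G i)) + ∑ j : Fin (sz i), v.ord (cv K (iy ⟨i, j⟩))) +
      ∑ l, v.ord (cv K (it l)) ≤ n + 1 := by
  have hd := hs_det H G h1 h2 h3
  have hp1 : (∏ a, pd K (ia a) (H a)) ≠ 0 := Finset.prod_ne_zero_iff.2 fun a _ => h4 a
  have hp2 : (∏ i, pd K (ip i) (G i)) ≠ 0 := Finset.prod_ne_zero_iff.2 fun i _ => h5 i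
  have h6 := can_ge v hn e (pd K) (fun _ => rfl) (hs H G) (by
    rintro (a | i | l | p)
    · exact h0 a
    · exact h0' i
    · exact cv_ne _
    · exact cv_ne _) (by rw [hd]; exact mul_ne_zero hp1 hp2)
  rw [hd, v.map_mul _ _ hp1 hp2, v.ord_prod _ _ (fun a _ => h4 a), v.ord_prod _ _
    (fun i _ => h5 i), sum_Ix] at h6
  have e1 : ∀ a, hs H G (ia a) = H a := fun _ => rfl
  have e2 : ∀ i, hs H G (ip i) = G i := fun _ => rfl
  have e3 : ∀ l, hs H G (it l) = cv K (it l) := fun _ => rfl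
  have e4 : ∀ p, hs H G (iy p) = cv K (iy p) := fun _ => rfl
  simp only [e1, e2, e3, e4] at h6
  rw [sum_iy] at h6
  simp only [Finset.sum_add_distrib, Finset.sum_sub_distrib]
  omega

/-- The log canonical bound. -/
theorem lc_bound (hn : IsCanOrd (affFol K e) v n) :
    ∑ a, v.ord (cv K (ia a)) + ∑ i, v.ord (fk K i) + ∑ l, v.ord (cv K (it l)) ≤ n + 1 := by
  have h := hs_bound v e hn (fun a => cv K (ia a)) (fk K) (fun _ => cv_ne _) fk_ne
    (fun a b hab => pd_cv_ne (by
      intro h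
      exact hab.ne' (ia_inj h))) (fun i a => pd_cv_ne (by simp [ip, ia])) (fun i k h => pd_fk_ne h)
    (fun a => by rw [pd_cv_self]; exact one_ne_zero) (fun i => by
      rw [pd_fk_ip]; exact Finset.prod_ne_zero_iff.2 fun _ _ => cv_ne _)
  have e1 : ∀ i, v.ord (fk K i) - v.ord (pd K (ip i) (fk K i)) +
      ∑ j : Fin (sz i), v.ord (cv K (iy ⟨i, j⟩)) = v.ord (fk K i) := by
    intro i
    rw [pd_fk_ip, v.ord_prod _ _ (fun _ _ => cv_ne _)]
    ring
  simp only [e1, pd_cv_self, v.ord_one, sub_zero] at h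
  exact h

section centre

variable {l : Fin 3}

/-- The coordinates of the centre on the exceptional divisor of the blow-up of the origin. -/
noncomputable def ev (l : Fin 3) : Q5 →ₐ[ℂ] K := aeval fun a => cv K (ia a) / cv K (it l)

theorem ev_X (a : Fin 5) : (ev l (X a) : K) = cv K (ia a) / cv K (it l) := by
  rw [ev, aeval_X]

theorem pd_div (a b : Fin 5) : pd K (ia b) (cv K (ia a) / cv K (it l)) =
    if b = a then (cv K (it l))⁻¹ else 0 := by
  rw [div_eq_mul_inv, Derivation.leibniz, Derivation.leibniz_inv,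
    pd_cv_ne (by simp [ia, it] : ia b ≠ it l), smul_zero, smul_zero, zero_add, pd_cv]
  by_cases h : b = a
  · rw [if_pos h, if_pos (by rw [h]), smul_eq_mul, mul_one]
  · rw [if_neg h, if_neg (fun h' => h (ia_inj h')), smul_zero]

theorem pd_ev (b : Fin 5) (P : Q5) : pd K (ia b) (ev l P) = ev l (pderiv b P) * (cv K (it l))⁻¹ := by
  rw [ev, der_aeval_sum, Finset.sum_eq_single b]
  · rw [pd_div, if_pos rfl]
  · intro a _ hab
    rw [pd_div, if_neg hab.symm, mul_zero]
  · intro h
    exact absurd (Finset.mem_univ _) h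

theorem pd_ev_ip (i : Fin 3) (P : Q5) : pd K (ip i) (ev l P) = 0 := by
  rw [ev, der_aeval_sum]
  refine Finset.sum_eq_zero fun a _ => ?_
  rw [div_eq_mul_inv, Derivation.leibniz, Derivation.leibniz_inv,
    pd_cv_ne (by simp [ip, it] : ip i ≠ it l), pd_cv_ne (by simp [ip, ia] : ip i ≠ ia a)]
  simp

variable (hc : ∀ k : Ix, 1 ≤ v.ord (cv K k)) (hτ : v.ord (cv K (it l)) = 1)

include hc hτ in
theorem ev_reg (P : Q5) : v.Reg (ev l P) := by
  induction P using MvPolynomial.induction_on with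
  | C a =>
    rw [← MvPolynomial.algebraMap_eq, AlgHom.commutes]
    exact v.reg_const a
  | add p q hp hq => rw [map_add]; exact v.reg_add hp hq
  | mul_X p j hp =>
    rw [map_mul, ev_X]
    refine v.reg_mul hp (v.reg_of_ord ?_)
    rw [v.ord_div (cv_ne _) (cv_ne _), hτ]
    have := hc (ia j)
    omega

/-- The centre. -/
noncomputable def qi : Ideal Q5 where
  carrier := {P | v.Pos (ev l P)}
  add_mem' := by
    intro a b ha hb
    change v.Pos (ev l (a + b))
    rw [map_add]
    exact v.pos_add ha hb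
  zero_mem' := Or.inl (map_zero _)
  smul_mem' := by
    intro c a ha
    change v.Pos (ev l (c * a))
    rw [map_mul]
    exact v.pos_mul_left (ev_reg v hc hτ c) ha

theorem mem_qi {P : Q5} : P ∈ qi v hc hτ ↔ v.Pos (ev l P) := Iff.rfl

theorem qi_prime : (qi v hc hτ).IsPrime := by
  constructor
  · intro h
    have : (1 : Q5) ∈ qi v hc hτ := by rw [h]; trivial
    rcases (this : v.Pos (ev l 1)) with h | h
    · rw [map_one] at h
      exact one_ne_zero h
    · rw [map_one, v.ord_one] at h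
      exact lt_irrefl _ h
  · intro a b hab
    change v.Pos (ev l (a * b)) at hab
    by_cases ha : (ev l a : K) = 0
    · left; exact Or.inl ha
    by_cases hb : (ev l b : K) = 0
    · right; exact Or.inl hb
    rw [map_mul] at hab
    have h3 := hab.resolve_left (mul_ne_zero ha hb)
    rw [v.map_mul _ _ ha hb] at h3
    have h4 := v.ord_nonneg ha (ev_reg v hc hτ a)
    rcases lt_or_ge 0 (v.ord (ev l a)) with h5 | h5
    · left; exact Or.inr h5
    · right
      refine Or.inr ?_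
      omega

include hc hτ in
theorem notMem_qi {P : Q5} (h : P ∉ qi v hc hτ) : (ev l P : K) ≠ 0 ∧ v.ord (ev l P) = 0 := by
  rw [mem_qi, DVal.Pos, not_or] at h
  refine ⟨h.1, ?_⟩
  have h4 := v.ord_nonneg h.1 (ev_reg v hc hτ P)
  have := h.2
  omega

open Classical in
include hc hτ in
/-- The main inequality. -/
theorem centre_bound (hn : IsCanOrd (affFol K e) v n) {r : ℕ} (hr : Rk (qi v hc hτ) r)
    (S : Finset (Fin 3)) :
    8 + (r : ℤ) + ∑ i, (if i ∈ S then v.ord (fk K i) else (1 + sz i : ℤ)) ≤ n + 1 := by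
  obtain ⟨P, hP1, hP2, A, hA, rfl⟩ := hr
  have ht : cv K (it l) ≠ 0 := cv_ne _
  have hd : ∀ a b, pd K (ia b) (ev l (P a) * cv K (it l)) = ev l (pderiv b (P a)) := by
    intro a b
    rw [Derivation.leibniz, pd_cv_ne (by simp [ia, it] : ia b ≠ it l), smul_zero, zero_add, pd_ev,
      smul_eq_mul, mul_comm, mul_assoc, inv_mul_cancel₀ ht, mul_one]
  have hP0 : ∀ a, (ev l (P a) : K) ≠ 0 := by
    intro a h0
    have h1 := hd a a
    rw [h0, zero_mul, map_zero] at h1
    exact (notMem_qi v hc hτ (hP2 a)).1 h1.symm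
  have h := hs_bound v e hn (fun a => ev l (P a) * cv K (it l))
    (fun i => if i ∈ S then fk K i else cv K (ip i))
    (fun a => mul_ne_zero (hP0 a) ht)
    (fun i => by split_ifs; exacts [fk_ne i, cv_ne _])
    (fun a b hab => by rw [hd, hP1 a b hab, map_zero])
    (fun i a => by
      rw [Derivation.leibniz, pd_ev_ip, pd_cv_ne (by simp [ip, it] : ip i ≠ it l)]
      simp)
    (fun i k hik => by
      split_ifs
      · exact pd_fk_ne hik
      · exact pd_cv_ne (by
          intro h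
          apply hik
          simpa [ip] using h))
    (fun a => by
      rw [hd]
      exact (notMem_qi v hc hτ (hP2 a)).1)
    (fun i => by
      split_ifs
      · rw [pd_fk_ip]
        exact Finset.prod_ne_zero_iff.2 fun _ _ => cv_ne _
      · rw [pd_cv_self]
        exact one_ne_zero)
  have h1 : ∀ a, v.ord (ev l (P a) * cv K (it l)) - v.ord (pd K (ia a) (ev l (P a) * cv K (it l))) =
      v.ord (ev l (P a)) + 1 := by
    intro a
    rw [hd, (notMem_qi v hc hτ (hP2 a)).2, v.map_mul _ _ (hP0 a) ht, hτ, sub_zero]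
  have h2 : (A.card : ℤ) ≤ ∑ a, v.ord (ev l (P a)) := by
    have h3 : ∑ a ∈ A, (1 : ℤ) ≤ ∑ a ∈ A, v.ord (ev l (P a)) := by
      refine Finset.sum_le_sum fun a ha => ?_
      have := (hA a ha : v.Pos _).resolve_left (hP0 a)
      omega
    have h4 : ∑ a ∈ A, v.ord (ev l (P a)) ≤ ∑ a, v.ord (ev l (P a)) :=
      Finset.sum_le_sum_of_subset_of_nonneg (Finset.subset_univ _)
        fun a _ _ => v.ord_nonneg (hP0 a) (ev_reg v hc hτ _)
    simp only [Finset.sum_const, nsmul_eq_mul, mul_one] at h3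
    omega
  have h5 : ∀ i : Fin 3, (sz i : ℤ) ≤ ∑ j : Fin (sz i), v.ord (cv K (iy ⟨i, j⟩)) := by
    intro i
    have h3 : ∑ j : Fin (sz i), (1 : ℤ) ≤ ∑ j : Fin (sz i), v.ord (cv K (iy ⟨i, j⟩)) :=
      Finset.sum_le_sum fun j _ => hc _
    simpa using h3
  have h6 : ∑ i, (if i ∈ S then v.ord (fk K i) else (1 + sz i : ℤ)) ≤
      ∑ i, (v.ord (if i ∈ S then fk K i else cv K (ip i)) -
        v.ord (pd K (ip i) (if i ∈ S then fk K i else cv K (ip i))) +
        ∑ j : Fin (sz i), v.ord (cv K (iy ⟨i, j⟩))) := by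
    refine Finset.sum_le_sum fun i _ => ?_
    by_cases hi : i ∈ S
    · rw [if_pos hi, if_pos hi, pd_fk_ip, v.ord_prod _ _ (fun _ _ => cv_ne _)]
      linarith
    · rw [if_neg hi, if_neg hi, pd_cv_self, v.ord_one]
      have h7 := h5 i
      have h8 := hc (ip i)
      linarith
  have h7 : (3 : ℤ) ≤ ∑ l, v.ord (cv K (it l)) := by
    have h3 : ∑ l : Fin 3, (1 : ℤ) ≤ ∑ l : Fin 3, v.ord (cv K (it l)) :=
      Finset.sum_le_sum fun j _ => hc _
    simpa using h3
  simp only [h1] at h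
  rw [Finset.sum_add_distrib] at h
  simp only [Finset.sum_const, Finset.card_univ, Fintype.card_fin, nsmul_eq_mul] at h
  push_cast at h
  linarith

end centre

end Pool.Agent.W497.Mld
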