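import Mathlib
import Pool.Agent.W497.Mld.Low

/-!
# The lower bound for log discrepancies over the origin
-/

set_option autoImplicit false
set_option linter.unusedSectionVars false

namespace Pool.Agent.W497.Mld

open Pool.Agent.H436R3.Fol Pool.Agent.H436R3.KT Matrix MvPolynomial

section gen

variable {K : Type} [Field K] [Algebra ℂ K] (v : DVal K)

theorem ord_add_of_lt {a b : K} (hb : b ≠ 0) (h : a = 0 ∨ v.ord b < v.ord a) :
    a + b ≠ 0 ∧ v.ord (a + b) = v.ord b := by
  by_cases ha : a = 0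
  · rw [ha, zero_add]
    exact ⟨hb, rfl⟩
  have h1 := h.resolve_left ha
  have h2 : a + b ≠ 0 := by
    intro h0
    have h3 : a = -b := eq_neg_of_add_eq_zero_left h0
    rw [h3, v.ord_neg hb] at h1
    exact lt_irrefl _ h1
  refine ⟨h2, le_antisymm ?_ ?_⟩
  · by_contra hc
    push Not at hc
    have h3 := v.map_add (a + b) (-a) h2 (neg_ne_zero.2 ha) (by rwa [add_neg_cancel_comm])
    rw [add_neg_cancel_comm, v.ord_neg ha] at h3
    have : min (v.ord (a + b)) (v.ord a) ≤ v.ord b := h3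
    rcases min_le_iff.1 this with h4 | h4 <;> omega
  · have h3 := v.map_add a b ha hb h2
    rw [min_eq_right h1.le] at h3
    exact h3

end gen

variable {K : Type} [Field K] [Algebra ℂ K]
  [Algebra (MvPolynomial Ix ℂ) K] [IsFractionRing (MvPolynomial Ix ℂ) K]
  [IsScalarTower ℂ (MvPolynomial Ix ℂ) K]

theorem gq_hom (l : Fin 3) (i : Fin 3) : aeval (fun a => cv K (ia a)) (gq i) =
    cv K (it l) ^ sz i * ev l (gq i) := by
  have ht : cv K (it l) ≠ 0 := cv_ne _
  fin_cases i
  · simp only [ev, gq, sz, Fin.zero_eta, Matrix.cons_val_zero, map_sub, map_mul, map_pow, aeval_X]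
    field_simp
  · simp only [ev, gq, sz, Fin.mk_one, Matrix.cons_val_one, Matrix.cons_val_zero, map_sub, map_mul,
      map_pow, aeval_X]
    field_simp
  · simp only [ev, gq, sz, Fin.reduceFinMk, Matrix.cons_val, map_sub, map_mul,
      map_pow, aeval_X, map_add]
    field_simp

variable (v : DVal K) {n : ℤ} (e : Fin 24 ≃ Ix) {l : Fin 3}
variable (hc : ∀ k : Ix, 1 ≤ v.ord (cv K k)) (hτ : v.ord (cv K (it l)) = 1)

include hc in
theorem ord_mono (i : Fin 3) :
    (sz i : ℤ) + 1 ≤ v.ord ((∏ j : Fin (sz i), cv K (iy ⟨i, j⟩)) * cv K (ip i)) := by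
  rw [v.map_mul _ _ (Finset.prod_ne_zero_iff.2 fun _ _ => cv_ne _) (cv_ne _),
    v.ord_prod _ _ (fun _ _ => cv_ne _)]
  have h3 : ∑ j : Fin (sz i), (1 : ℤ) ≤ ∑ j : Fin (sz i), v.ord (cv K (iy ⟨i, j⟩)) :=
    Finset.sum_le_sum fun j _ => hc _
  have h4 : ∑ j : Fin (sz i), (1 : ℤ) = sz i := by simp
  have h5 := hc (ip i)
  linarith

include hc hτ in
theorem ord_fk_notMem {i : Fin 3} (h : gq i ∉ qi v hc hτ) : v.ord (fk K i) = sz i := by
  have ht : cv K (it l) ≠ 0 := cv_ne _
  obtain ⟨h1, h2⟩ := notMem_qi v hc hτ h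
  have h3 : cv K (it l) ^ sz i * ev l (gq i) ≠ 0 := mul_ne_zero (pow_ne_zero _ ht) h1
  have h4 : v.ord (cv K (it l) ^ sz i * ev l (gq i)) = sz i := by
    rw [v.map_mul _ _ (pow_ne_zero _ ht) h1, v.ord_pow ht, hτ, h2, mul_one, add_zero]
  rw [fk_eq, gq_hom l, (ord_add_of_lt v h3 (Or.inr ?_)).2, h4]
  rw [h4]
  have := ord_mono v hc i
  omega

include hc hτ in
theorem ord_fk_mem {i : Fin 3} (h : gq i ∈ qi v hc hτ) : (sz i : ℤ) + 1 ≤ v.ord (fk K i) := by
  have ht : cv K (it l) ≠ 0 := cv_ne _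
  have h1 := ord_mono v hc i
  by_cases h2 : (ev l (gq i) : K) = 0
  · rw [fk_eq, gq_hom l, h2, mul_zero, add_zero]
    exact h1
  have h3 := (h : v.Pos _).resolve_left h2
  have h4 : v.ord (cv K (it l) ^ sz i * ev l (gq i)) = sz i + v.ord (ev l (gq i)) := by
    rw [v.map_mul _ _ (pow_ne_zero _ ht) h2, v.ord_pow ht, hτ, mul_one]
  have h5 := v.map_add ((∏ j : Fin (sz i), cv K (iy ⟨i, j⟩)) * cv K (ip i))
    (cv K (it l) ^ sz i * ev l (gq i))
    (mul_ne_zero (Finset.prod_ne_zero_iff.2 fun _ _ => cv_ne _) (cv_ne _))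
    (mul_ne_zero (pow_ne_zero _ ht) h2) (by
      rw [← gq_hom l, ← fk_eq]
      exact fk_ne i)
  rw [← gq_hom l, ← fk_eq, gq_hom l, h4] at h5
  refine le_trans (le_min h1 ?_) h5
  omega

theorem sz0 : sz 0 = 3 := rfl
theorem sz1 : sz 1 = 5 := rfl
theorem sz2 : sz 2 = 5 := rfl

/-- The conditions for the equality case. -/
def EqCase (v : DVal K) : Prop :=
  ∃ (hc : ∀ k : Ix, 1 ≤ v.ord (cv K k)) (l : Fin 3) (hτ : v.ord (cv K (it l)) = 1),
    (∀ i, gq i ∈ qi v hc hτ) ∧ X 0 ∉ qi v hc hτ ∧ X 3 ∉ qi v hc hτ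

include hc in
/-- The lower bound for the log discrepancies over the origin. -/
theorem main_low (hn : IsCanOrd (affFol K e) v n) :
    56 < 4 * (n + 1) - 3 * ∑ i, v.ord (fk K i) ∨
      (n = 25 ∧ ∑ i, v.ord (fk K i) = 16 ∧ EqCase v) := by
  classical
  by_cases ht : ∃ l, v.ord (cv K (it l)) = 1
  · obtain ⟨l, hτ⟩ := ht
    have h𝔮 := qi_prime v hc hτ
    by_cases h0 : gq 0 ∈ qi v hc hτ <;> by_cases h1 : gq 1 ∈ qi v hc hτ <;>
      by_cases h2 : gq 2 ∈ qi v hc hτ
    · -- all
      have e0 := ord_fk_mem v hc hτ h0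
      have e1 := ord_fk_mem v hc hτ h1
      have e2 := ord_fk_mem v hc hτ h2
      rw [sz0] at e0
      rw [sz1] at e1
      rw [sz2] at e2
      by_cases h3 : X 0 ∈ qi v hc hτ ∨ X 3 ∈ qi v hc hτ
      · left
        have h4 := centre_bound v e hc hτ hn (Rk_three h0 h1 h2 h3) {0, 1, 2}
        simp [Fin.sum_univ_three] at h4
        rw [Fin.sum_univ_three]
        omega
      · rw [not_or] at h3
        have h4 := centre_bound v e hc hτ hn (Rk_two01 h0 h1) {0, 1, 2}
        simp [Fin.sum_univ_three] at h4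
        rw [Fin.sum_univ_three]
        by_cases h5 : 56 < 4 * (n + 1) - 3 * (v.ord (fk K 0) + v.ord (fk K 1) + v.ord (fk K 2))
        · exact Or.inl h5
        · right
          refine ⟨by omega, by omega, hc, l, hτ, fun i => ?_, h3.1, h3.2⟩
          fin_cases i
          · exact h0
          · exact h1
          · exact h2
    · have e0 := ord_fk_mem v hc hτ h0
      have e1 := ord_fk_mem v hc hτ h1
      have e2 := ord_fk_notMem v hc hτ h2
      rw [sz0] at e0
      rw [sz1] at e1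
      rw [sz2] at e2
      left
      have h4 := centre_bound v e hc hτ hn (Rk_two01 h0 h1) {0, 1}
      simp [Fin.sum_univ_three, sz2] at h4
      rw [Fin.sum_univ_three]
      omega
    · have e0 := ord_fk_mem v hc hτ h0
      have e1 := ord_fk_notMem v hc hτ h1
      have e2 := ord_fk_mem v hc hτ h2
      rw [sz0] at e0
      rw [sz1] at e1
      rw [sz2] at e2
      left
      have h4 := centre_bound v e hc hτ hn (Rk_two02 h0 h2) {0, 2}
      simp [Fin.sum_univ_three, sz1] at h4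
      rw [Fin.sum_univ_three]
      omega
    · have e0 := ord_fk_mem v hc hτ h0
      have e1 := ord_fk_notMem v hc hτ h1
      have e2 := ord_fk_notMem v hc hτ h2
      rw [sz0] at e0
      rw [sz1] at e1
      rw [sz2] at e2
      left
      have h4 := centre_bound v e hc hτ hn (Rk_one ⟨0, h0⟩) {0}
      simp [Fin.sum_univ_three, sz1, sz2] at h4
      rw [Fin.sum_univ_three]
      omega
    · have e0 := ord_fk_notMem v hc hτ h0
      have e1 := ord_fk_mem v hc hτ h1
      have e2 := ord_fk_mem v hc hτ h2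
      rw [sz0] at e0
      rw [sz1] at e1
      rw [sz2] at e2
      left
      have h4 := centre_bound v e hc hτ hn (Rk_two12 h1 h2) {1, 2}
      simp [Fin.sum_univ_three, sz0] at h4
      rw [Fin.sum_univ_three]
      omega
    · have e0 := ord_fk_notMem v hc hτ h0
      have e1 := ord_fk_mem v hc hτ h1
      have e2 := ord_fk_notMem v hc hτ h2
      rw [sz0] at e0
      rw [sz1] at e1
      rw [sz2] at e2
      left
      have h4 := centre_bound v e hc hτ hn (Rk_one ⟨1, h1⟩) {1}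
      simp [Fin.sum_univ_three, sz0, sz2] at h4
      rw [Fin.sum_univ_three]
      omega
    · have e0 := ord_fk_notMem v hc hτ h0
      have e1 := ord_fk_notMem v hc hτ h1
      have e2 := ord_fk_mem v hc hτ h2
      rw [sz0] at e0
      rw [sz1] at e1
      rw [sz2] at e2
      left
      have h4 := centre_bound v e hc hτ hn (Rk_one ⟨2, h2⟩) {2}
      simp [Fin.sum_univ_three, sz0, sz1] at h4
      rw [Fin.sum_univ_three]
      omega
    · have e0 := ord_fk_notMem v hc hτ h0
      have e1 := ord_fk_notMem v hc hτ h1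
      have e2 := ord_fk_notMem v hc hτ h2
      rw [sz0] at e0
      rw [sz1] at e1
      rw [sz2] at e2
      left
      have h4 := centre_bound v e hc hτ hn Rk_zero ∅
      simp [Fin.sum_univ_three, sz0, sz1, sz2] at h4
      rw [Fin.sum_univ_three]
      omega
  · left
    push Not at ht
    have ht' : ∀ l, 2 ≤ v.ord (cv K (it l)) := by
      intro l
      have h1 := ht l
      have h2 := hc (it l)
      omega
    have h1 := can_ge_sum e hn
    rw [sum_Ix] at h1
    have h2 := lc_bound v e hn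
    have h3 : (5 : ℤ) ≤ ∑ a : Fin 5, v.ord (cv K (ia a)) := by
      have : ∑ a : Fin 5, (1 : ℤ) ≤ ∑ a : Fin 5, v.ord (cv K (ia a)) :=
        Finset.sum_le_sum fun j _ => hc _
      simpa using this
    have h4 : (3 : ℤ) ≤ ∑ a : Fin 3, v.ord (cv K (ip a)) := by
      have : ∑ a : Fin 3, (1 : ℤ) ≤ ∑ a : Fin 3, v.ord (cv K (ip a)) :=
        Finset.sum_le_sum fun j _ => hc _
      simpa using this
    have h5 : (6 : ℤ) ≤ ∑ a : Fin 3, v.ord (cv K (it a)) := by
      have : ∑ a : Fin 3, (2 : ℤ) ≤ ∑ a : Fin 3, v.ord (cv K (it a)) :=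
        Finset.sum_le_sum fun j _ => ht' _
      simpa using this
    have h6 : (13 : ℤ) ≤ ∑ p : (Σ i : Fin 3, Fin (sz i)), v.ord (cv K (iy p)) := by
      have : ∑ p : (Σ i : Fin 3, Fin (sz i)), (1 : ℤ) ≤
          ∑ p : (Σ i : Fin 3, Fin (sz i)), v.ord (cv K (iy p)) :=
        Finset.sum_le_sum fun j _ => hc _
      have h7 : ∑ p : (Σ i : Fin 3, Fin (sz i)), (1 : ℤ) = 13 := rfl
      omega
    omega

end Pool.Agent.W497.Mld
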