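import Mathlib
import Pool.Agent.W497.Mld.Low2

/-!
# The divisor computing the minimal log discrepancy
-/

set_option autoImplicit false
set_option linter.unusedSectionVars false

namespace Pool.Agent.W497.Mld

open Pool.Agent.H436R3.Fol Pool.Agent.H436R3.KT Matrix MvPolynomial

section gen

variable {ι : Type} {K : Type} [Field K] [Algebra ℂ K]
  [Algebra (MvPolynomial ι ℂ) K] [IsFractionRing (MvPolynomial ι ℂ) K]
  [IsScalarTower ℂ (MvPolynomial ι ℂ) K]

theorem algHom_ext_K {L : Type} [Field L] [Algebra ℂ L] {f g : K →ₐ[ℂ] L}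
    (h : ∀ i : ι, f (cv K i) = g (cv K i)) : f = g := by
  have h1 : f.comp (jo ι K) = g.comp (jo ι K) := by
    apply MvPolynomial.algHom_ext
    intro i
    exact h i
  ext x
  obtain ⟨a, b, hb, rfl⟩ := exists_frac (MvPolynomial ι ℂ) x
  rw [← jo_apply, ← jo_apply, map_div₀, map_div₀]
  have h2 := DFunLike.congr_fun h1 a
  have h3 := DFunLike.congr_fun h1 b
  simp only [AlgHom.comp_apply] at h2 h3
  rw [h2, h3]

/-- The pull-back of a divisor along an automorphism of the field. -/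
noncomputable def cmap (φ : K ≃ₐ[ℂ] K) (v : DVal K) : DVal K where
  ord f := v.ord (φ f)
  map_mul f g hf hg := by
    rw [map_mul]
    exact v.map_mul _ _ ((map_ne_zero _).2 hf) ((map_ne_zero _).2 hg)
  map_add f g hf hg hfg := by
    rw [map_add]
    refine v.map_add _ _ ((map_ne_zero _).2 hf) ((map_ne_zero _).2 hg) ?_
    rw [← map_add]
    exact (map_ne_zero _).2 hfg
  surj := by
    obtain ⟨f, hf, h⟩ := v.surj
    refine ⟨φ.symm f, (map_ne_zero _).2 hf, ?_⟩
    rw [AlgEquiv.apply_symm_apply]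
    exact h
  const c hc := by
    rw [AlgEquiv.commutes]
    exact v.const c hc

theorem cmap_ord (φ : K ≃ₐ[ℂ] K) (v : DVal K) (f : K) : (cmap φ v).ord f = v.ord (φ f) := rfl

theorem cmap_reg (φ : K ≃ₐ[ℂ] K) (v : DVal K) (f : K) : (cmap φ v).Reg f ↔ v.Reg (φ f) := by
  unfold DVal.Reg
  rw [cmap_ord, map_eq_zero_iff _ φ.injective]

theorem cmap_pos (φ : K ≃ₐ[ℂ] K) (v : DVal K) (f : K) : (cmap φ v).Pos f ↔ v.Pos (φ f) := by
  unfold DVal.Pos
  rw [cmap_ord, map_eq_zero_iff _ φ.injective]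

theorem cmap_local (φ : K ≃ₐ[ℂ] K) {v : DVal K} {S : Subalgebra ℂ K} (h : IsLocalRing' S v) :
    IsLocalRing' (S.map (φ.symm : K →ₐ[ℂ] K)) (cmap φ v) := by
  refine ⟨?_, fun f hf => ?_⟩
  · rintro _ ⟨f, hf, rfl⟩
    rw [cmap_reg]
    change v.Reg (φ (φ.symm f))
    rw [AlgEquiv.apply_symm_apply]
    exact h.1 f hf
  · rw [cmap_reg] at hf
    obtain ⟨a, b, ha, hb, hb0, hob, hab⟩ := h.2 _ hf
    refine ⟨φ.symm a, φ.symm b, ⟨a, ha, rfl⟩, ⟨b, hb, rfl⟩, (map_ne_zero _).2 hb0, ?_, ?_⟩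
    · rw [cmap_ord, AlgEquiv.apply_symm_apply]
      exact hob
    · apply φ.injective
      rw [map_mul, AlgEquiv.apply_symm_apply, AlgEquiv.apply_symm_apply]
      exact hab

/-- Conjugation of a derivation by an automorphism. -/
noncomputable def cjd (φ : K ≃ₐ[ℂ] K) (D : Derivation ℂ K K) : Derivation ℂ K K :=
  Derivation.mk' ((φ.symm : K →ₐ[ℂ] K).toLinearMap ∘ₗ D.toLinearMap ∘ₗ
    (φ : K →ₐ[ℂ] K).toLinearMap) (by
    intro a b
    change φ.symm (D (φ (a * b))) = a * φ.symm (D (φ b)) + b * φ.symm (D (φ a))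
    rw [map_mul, Derivation.leibniz, map_add, smul_eq_mul, smul_eq_mul, map_mul, map_mul,
      AlgEquiv.symm_apply_apply, AlgEquiv.symm_apply_apply])

theorem cjd_apply (φ : K ≃ₐ[ℂ] K) (D : Derivation ℂ K K) (f : K) :
    cjd φ D f = φ.symm (D (φ f)) := rfl

theorem cjd_pres (φ : K ≃ₐ[ℂ] K) {v : DVal K} {D : Derivation ℂ K K} (h : Preserves v D) :
    Preserves (cmap φ v) (cjd φ D) := by
  intro f hf
  rw [cmap_reg] at hf ⊢
  rw [cjd_apply, AlgEquiv.apply_symm_apply]
  exact h _ hf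

end gen

variable (K : Type) [Field K] [Algebra ℂ K]
  [Algebra (MvPolynomial Ix ℂ) K] [IsFractionRing (MvPolynomial Ix ℂ) K]
  [IsScalarTower ℂ (MvPolynomial Ix ℂ) K]

/-- The variable `z`. -/
noncomputable abbrev cz : K := cv K (ia 0)
noncomputable abbrev cx : K := cv K (ia 1)
noncomputable abbrev cy : K := cv K (ia 2)
noncomputable abbrev cw0 : K := cv K (ia 3)
noncomputable abbrev cw1 : K := cv K (ia 4)

/-- The coordinates adapted to the divisor. -/
noncomputable def uu : Ix → K :=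
  Sum.elim ![cz K, cx K / cz K, (cy K / cz K - (cx K / cz K) ^ 3) / cz K, cw0 K / cz K,
    (cw1 K / cw0 K - ((cx K / cz K) ^ 9 - (cx K / cz K) ^ 8)) / cz K]
    fun o : Fin 3 ⊕ (Fin 3 ⊕ (Σ i : Fin 3, Fin (sz i))) => cv K (Sum.inr o : Ix) / cz K

/-- The polynomials expressing the variables in the adapted coordinates. -/
noncomputable def al : Ix → MvPolynomial Ix ℂ :=
  Sum.elim ![X (ia 0), X (ia 0) * X (ia 1), X (ia 0) ^ 2 * X (ia 2) + X (ia 0) * X (ia 1) ^ 3,
    X (ia 0) * X (ia 3),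
    X (ia 0) * X (ia 3) * (X (ia 0) * X (ia 4) + X (ia 1) ^ 9 - X (ia 1) ^ 8)]
    fun o : Fin 3 ⊕ (Fin 3 ⊕ (Σ i : Fin 3, Fin (sz i))) => X (ia 0) * X (Sum.inr o)

variable {K}

theorem uu_z : uu K (ia 0) = cz K := rfl
theorem uu_x : uu K (ia 1) = cx K / cz K := rfl
theorem uu_y : uu K (ia 2) = (cy K / cz K - (cx K / cz K) ^ 3) / cz K := rfl
theorem uu_w0 : uu K (ia 3) = cw0 K / cz K := rfl
theorem uu_w1 : uu K (ia 4) =
    (cw1 K / cw0 K - ((cx K / cz K) ^ 9 - (cx K / cz K) ^ 8)) / cz K := rfl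
theorem uu_o (o : Fin 3 ⊕ (Fin 3 ⊕ (Σ i : Fin 3, Fin (sz i)))) :
    uu K (Sum.inr o) = cv K (Sum.inr o : Ix) / cz K := rfl

/-- Levels of the adapted coordinates. -/
def lu : Ix → ℕ := Sum.elim (fun a => (a : ℕ)) fun _ => 1

theorem pd_inv_z {j : Ix} (hj : j ≠ ia 0) : pd K j (cz K)⁻¹ = 0 := by
  rw [Derivation.leibniz_inv, pd_cv_ne hj, smul_zero]

theorem pd_div_z {j k : Ix} (hj : j ≠ ia 0) :
    pd K j (cv K k / cz K) = if j = k then (cz K)⁻¹ else 0 := by
  rw [div_eq_mul_inv, Derivation.leibniz, pd_inv_z hj, smul_zero, zero_add, pd_cv]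
  by_cases h : j = k
  · rw [if_pos h, if_pos h, smul_eq_mul, mul_one]
  · rw [if_neg h, if_neg h, smul_zero]

theorem pd_uy {j : Ix} (hz : j ≠ ia 0) (hx : j ≠ ia 1) :
    pd K j (uu K (ia 2)) = if j = ia 2 then (cz K)⁻¹ * (cz K)⁻¹ else 0 := by
  rw [uu_y, div_eq_mul_inv _ (cz K), Derivation.leibniz, pd_inv_z hz, smul_zero, zero_add, map_sub,
    Derivation.leibniz_pow, pd_div_z hz, pd_div_z hz, if_neg hx]
  split_ifs <;> simp

theorem pd_uw1 {j : Ix} (hz : j ≠ ia 0) (hx : j ≠ ia 1) (hw : j ≠ ia 3) :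
    pd K j (uu K (ia 4)) = if j = ia 4 then (cz K)⁻¹ * (cw0 K)⁻¹ else 0 := by
  have h1 : pd K j (cw1 K / cw0 K) = if j = ia 4 then (cw0 K)⁻¹ else 0 := by
    rw [div_eq_mul_inv, Derivation.leibniz, Derivation.leibniz_inv, pd_cv_ne hw, smul_zero,
      smul_zero, zero_add, pd_cv]
    split_ifs <;> simp
  rw [uu_w1, div_eq_mul_inv _ (cz K), Derivation.leibniz, pd_inv_z hz, smul_zero, zero_add, map_sub,
    map_sub, Derivation.leibniz_pow, Derivation.leibniz_pow, h1, pd_div_z hz, if_neg hx]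
  split_ifs <;> simp

/-- The Jacobian of the adapted coordinates. -/
theorem det_uu : (Matrix.of fun j k => pd K j (uu K k)).det = (cz K ^ 24 * cw0 K)⁻¹ := by
  rw [det_lev _ lu]
  · simp only [of_apply]
    rw [Fintype.prod_sum_type (f := fun k => pd K k (uu K k))]
    have e0 : ∀ o : Fin 3 ⊕ (Fin 3 ⊕ (Σ i : Fin 3, Fin (sz i))), pd K (Sum.inr o : Ix) (uu K (Sum.inr o)) = (cz K)⁻¹ := by
      intro o
      rw [uu_o, pd_div_z (by simp), if_pos rfl]
    simp only [e0]
    rw [Fin.prod_univ_five]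
    change pd K (ia 0) (cv K (ia 0)) * pd K (ia 1) (cv K (ia 1) / cz K) * pd K (ia 2) (uu K (ia 2)) *
      pd K (ia 3) (cv K (ia 3) / cz K) * pd K (ia 4) (uu K (ia 4)) * _ = _
    rw [pd_cv_self, pd_div_z (by simp), pd_div_z (by simp), pd_uy (by simp) (by simp),
      pd_uw1 (by simp) (by simp) (by simp), if_pos rfl, if_pos rfl, if_pos rfl, if_pos rfl,
      Finset.prod_const]
    have h1 : (Finset.univ : Finset (Fin 3 ⊕ (Fin 3 ⊕ (Σ i : Fin 3, Fin (sz i))))).card = 19 := rfl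
    rw [h1]
    have hz : cz K ≠ 0 := cv_ne _
    have hw : cw0 K ≠ 0 := cv_ne _
    field_simp
  · rintro j (a | o) hjk hl
    · have hl' : (a : ℕ) ≤ lu j := hl
      rw [of_apply]
      by_cases hz : j = ia 0
      · exfalso
        subst hz
        have : (a : ℕ) ≤ 0 := hl'
        apply hjk
        have : a = 0 := Fin.ext (by simpa using this)
        rw [this]
      fin_cases a
      · exact pd_cv_ne hjk
      · change pd K j (cv K (ia 1) / cz K) = 0
        exact (pd_div_z hz).trans (if_neg hjk)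
      · have hx : j ≠ ia 1 := by
          rintro rfl
          have : (2 : ℕ) ≤ 1 := hl'
          omega
        change pd K j (uu K (ia 2)) = 0
        exact (pd_uy hz hx).trans (if_neg hjk)
      · change pd K j (cv K (ia 3) / cz K) = 0
        exact (pd_div_z hz).trans (if_neg hjk)
      · have hx : j ≠ ia 1 := by
          rintro rfl
          have : (4 : ℕ) ≤ 1 := hl'
          omega
        have hw : j ≠ ia 3 := by
          rintro rfl
          have : (4 : ℕ) ≤ 3 := hl'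
          omega
        change pd K j (uu K (ia 4)) = 0
        exact (pd_uw1 hz hx hw).trans (if_neg hjk)
    · have hz : j ≠ ia 0 := by
        rintro rfl
        have : (1 : ℕ) ≤ 0 := hl
        omega
      rw [of_apply, uu_o, pd_div_z hz, if_neg hjk]

theorem det_uu_ne : (Matrix.of fun j k => pd K j (uu K k)).det ≠ 0 := by
  rw [det_uu]
  exact inv_ne_zero (mul_ne_zero (pow_ne_zero _ (cv_ne _)) (cv_ne _))

theorem algInd_uu : AlgebraicIndependent ℂ (uu K) := algInd_of_jac _ det_uu_ne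

theorem uu_ne (k : Ix) : uu K k ≠ 0 := algInd_uu.ne_zero k

variable (K) in
/-- The automorphism given by the adapted coordinates. -/
noncomputable def psi : K →ₐ[ℂ] K :=
  IsFractionRing.liftAlgHom (algebraicIndependent_iff_injective_aeval.1 (algInd_uu (K := K)))

theorem psi_jo (P : MvPolynomial Ix ℂ) : psi K (jo Ix K P) = aeval (uu K) P := by
  rw [psi, IsFractionRing.liftAlgHom_apply, jo_apply]
  exact IsFractionRing.lift_algebraMap _ _

theorem psi_cv (k : Ix) : psi K (cv K k) = uu K k := by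
  rw [cv, psi_jo, aeval_X]

theorem psi_al (k : Ix) : psi K (jo Ix K (al k)) = cv K k := by
  have hz : cz K ≠ 0 := cv_ne _
  have hw : cw0 K ≠ 0 := cv_ne _
  rw [psi_jo]
  rcases k with a | o
  · fin_cases a
    · change aeval (uu K) (X (ia 0)) = cz K
      rw [aeval_X, uu_z]
    · change aeval (uu K) (X (ia 0) * X (ia 1)) = cx K
      simp only [map_mul, aeval_X, uu_z, uu_x]
      field_simp
    · change aeval (uu K) (X (ia 0) ^ 2 * X (ia 2) + X (ia 0) * X (ia 1) ^ 3) = cy K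
      simp only [map_mul, map_add, map_pow, aeval_X, uu_z, uu_x, uu_y]
      field_simp
      ring
    · change aeval (uu K) (X (ia 0) * X (ia 3)) = cw0 K
      simp only [map_mul, aeval_X, uu_z, uu_w0]
      field_simp
    · change aeval (uu K) (X (ia 0) * X (ia 3) *
        (X (ia 0) * X (ia 4) + X (ia 1) ^ 9 - X (ia 1) ^ 8)) = cw1 K
      simp only [map_mul, map_add, map_sub, map_pow, aeval_X, uu_z, uu_w0, uu_w1, uu_x]
      field_simp
      ring
  · change aeval (uu K) (X (ia 0) * X (Sum.inr o)) = _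
    simp only [map_mul, aeval_X, uu_z, uu_o]
    field_simp

theorem al_inj : Function.Injective (aeval al : MvPolynomial Ix ℂ →ₐ[ℂ] MvPolynomial Ix ℂ) := by
  let K := FractionRing (MvPolynomial Ix ℂ)
  have h1 : ((psi K).comp (jo Ix K)).comp (aeval al) = jo Ix K := by
    apply MvPolynomial.algHom_ext
    intro k
    rw [AlgHom.comp_apply, AlgHom.comp_apply, aeval_X, psi_al]
    rfl
  have h2 : Function.Injective (((psi K).comp (jo Ix K)).comp (aeval al)) := by
    rw [h1]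
    exact jo_inj
  exact Function.Injective.of_comp (f := (psi K).comp (jo Ix K)) h2

variable (K) in
/-- The inverse automorphism. -/
noncomputable def the : K →ₐ[ℂ] K :=
  IsFractionRing.liftAlgHom (g := (jo Ix K).comp (aeval al)) (jo_inj.comp al_inj)

theorem the_jo (P : MvPolynomial Ix ℂ) : the K (jo Ix K P) = jo Ix K (aeval al P) := by
  rw [the, IsFractionRing.liftAlgHom_apply, jo_apply]
  exact IsFractionRing.lift_algebraMap _ _

theorem the_cv (k : Ix) : the K (cv K k) = jo Ix K (al k) := by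
  rw [cv, the_jo, aeval_X]

theorem psi_the : (psi K).comp (the K) = AlgHom.id ℂ K := by
  apply algHom_ext_K (ι := Ix)
  intro k
  rw [AlgHom.comp_apply, the_cv, psi_al]
  rfl

theorem the_psi : (the K).comp (psi K) = AlgHom.id ℂ K := by
  refine AlgHom.ext fun x => ?_
  apply (psi K).toRingHom.injective
  have h := DFunLike.congr_fun psi_the (psi K x)
  rw [AlgHom.comp_apply, AlgHom.id_apply] at h
  exact h

variable (K) in
/-- The automorphism `θ`. -/
noncomputable def the' : K ≃ₐ[ℂ] K := AlgEquiv.ofAlgHom (the K) (psi K) the_psi psi_the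

theorem the'_apply (f : K) : the' K f = the K f := rfl
theorem the'_symm (f : K) : (the' K).symm f = psi K f := rfl

variable (K) in
/-- The divisor computing the minimal log discrepancy. -/
noncomputable def vv0 : DVal K := cmap (the' K) (valP K (X (ia 0) : MvPolynomial Ix ℂ) X_prime)

theorem vX_ord' (i j : Ix) : (valP K (X i : MvPolynomial Ix ℂ) X_prime).ord (cv K j) =
    if i = j then 1 else 0 := by
  have h1 : (valP K (X i : MvPolynomial Ix ℂ) X_prime).ord (cv K j) =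
      (multiplicity (X i : MvPolynomial Ix ℂ) (X j) : ℤ) := valP_ord X_prime (X_ne_zero j)
  rw [h1]
  split_ifs with h
  · rw [h, multiplicity_self]
    rfl
  · rw [multiplicity_eq_zero.2]
    · rfl
    · rw [X_dvd_X]
      exact h

theorem vv0_ord_jo {P : MvPolynomial Ix ℂ} (hP : P ≠ 0) :
    (vv0 K).ord (jo Ix K P) = (multiplicity (X (ia 0)) (aeval al P) : ℤ) := by
  rw [vv0, cmap_ord, the'_apply, the_jo]
  exact valP_ord X_prime (by
    rw [Ne, map_eq_zero_iff _ al_inj]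
    exact hP)

theorem vv0_dvd {P : MvPolynomial Ix ℂ} (hP : P ≠ 0) {N : ℕ} :
    (N : ℤ) ≤ (vv0 K).ord (jo Ix K P) ↔ X (ia 0) ^ N ∣ aeval al P := by
  rw [vv0_ord_jo hP, Nat.cast_le]
  have h0 : aeval al P ≠ 0 := by
    rw [Ne, map_eq_zero_iff _ al_inj]
    exact hP
  exact ((finMult X_prime h0).pow_dvd_iff_le_multiplicity).symm

theorem vv0_reg_uu (k : Ix) : (vv0 K).Reg (uu K k) := by
  rw [vv0, cmap_reg, the'_apply, ← psi_cv]
  have := DFunLike.congr_fun (the_psi (K := K)) (cv K k)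
  rw [AlgHom.comp_apply] at this
  rw [this]
  exact valP_reg X_prime (X k)

theorem vv0_z : (vv0 K).ord (cz K) = 1 := by
  rw [vv0, cmap_ord, the'_apply, the_cv]
  change (valP K (X (ia 0) : MvPolynomial Ix ℂ) X_prime).ord (cv K (ia 0)) = 1
  rw [vX_ord', if_pos rfl]

theorem vv0_w0 : (vv0 K).ord (cw0 K) = 1 := by
  rw [vv0, cmap_ord, the'_apply, the_cv]
  change (valP K (X (ia 0) : MvPolynomial Ix ℂ) X_prime).ord (jo Ix K (X (ia 0) * X (ia 3))) = 1
  rw [map_mul, DVal.map_mul _ _ _ (jo_ne (X_ne_zero _)) (jo_ne (X_ne_zero _))]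
  change (valP K (X (ia 0) : MvPolynomial Ix ℂ) X_prime).ord (cv K (ia 0)) +
    (valP K (X (ia 0) : MvPolynomial Ix ℂ) X_prime).ord (cv K (ia 3)) = 1
  rw [vX_ord', vX_ord', if_pos rfl, if_neg (by simp)]
  norm_num

theorem z_dvd_al (k : Ix) : X (ia 0) ∣ al k := by
  rcases k with a | o
  · fin_cases a
    · exact dvd_refl _
    · exact Dvd.intro _ rfl
    · change X (ia 0) ∣ X (ia 0) ^ 2 * X (ia 2) + X (ia 0) * X (ia 1) ^ 3
      exact ⟨X (ia 0) * X (ia 2) + X (ia 1) ^ 3, by ring⟩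
    · exact Dvd.intro _ rfl
    · change X (ia 0) ∣ X (ia 0) * X (ia 3) * (X (ia 0) * X (ia 4) + X (ia 1) ^ 9 - X (ia 1) ^ 8)
      exact ⟨X (ia 3) * (X (ia 0) * X (ia 4) + X (ia 1) ^ 9 - X (ia 1) ^ 8), by ring⟩
  · exact Dvd.intro _ rfl

theorem vv0_cv (k : Ix) : 1 ≤ (vv0 K).ord (cv K k) := by
  have h : ((1 : ℕ) : ℤ) ≤ (vv0 K).ord (jo Ix K (X k)) := by
    rw [vv0_dvd (X_ne_zero _), aeval_X, pow_one]
    exact z_dvd_al k
  exact_mod_cast h

variable (K) in
/-- The affine chart on which the divisor lies. -/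
noncomputable def SV : Subalgebra ℂ K := (RA Ix K).map ((the' K).symm : K →ₐ[ℂ] K)

theorem vv0_local : IsLocalRing' (SV K) (vv0 K) := cmap_local _ (valP_local X_prime)

theorem SV_fg (e : Fin 24 ≃ Ix) : (SV K).FG := (affVar K e).fg.map _

theorem mem_SV {f : K} : f ∈ SV K ↔ ∃ P : MvPolynomial Ix ℂ, aeval (uu K) P = f := by
  constructor
  · rintro ⟨_, ⟨P, rfl⟩, rfl⟩
    exact ⟨P, (psi_jo P).symm⟩
  · rintro ⟨P, rfl⟩
    exact ⟨jo Ix K P, jo_mem P, psi_jo P⟩

theorem RA_le_SV : RA Ix K ≤ SV K := by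
  rintro _ ⟨P, rfl⟩
  rw [mem_SV]
  refine ⟨aeval al P, ?_⟩
  rw [← psi_jo, ← the_jo]
  exact DFunLike.congr_fun (psi_the (K := K)) (jo Ix K P)

theorem vv0_det : (vv0 K).ord (Matrix.of fun j k => pd K j (uu K k)).det = -25 := by
  have hz : cz K ≠ 0 := cv_ne _
  have hw : cw0 K ≠ 0 := cv_ne _
  rw [det_uu, DVal.ord_inv _ (mul_ne_zero (pow_ne_zero _ hz) hw),
    DVal.map_mul _ _ _ (pow_ne_zero _ hz) hw, DVal.ord_pow _ hz, vv0_z, vv0_w0]
  norm_num

/-- The canonical order of the divisor. -/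
theorem vv0_can (e : Fin 24 ≃ Ix) : IsCanOrd (affFol K e) (vv0 K) 25 := by
  obtain ⟨n, hn, hn0⟩ := exists_can e (v := vv0 K) ⟨SV K, SV_fg e, RA_le_SV, vv0_local⟩
  have h1 : 25 ≤ n := by
    have h := can_ge (vv0 K) hn e (pd K) (fun _ => rfl) (uu K) uu_ne det_uu_ne
    rw [vv0_det] at h
    have h2 : (vv0 K).ord (uu K (ia 0)) ≤ ∑ k : Ix, (vv0 K).ord (uu K k) :=
      Finset.single_le_sum (f := fun k => (vv0 K).ord (uu K k))
        (fun k _ => DVal.ord_nonneg _ (uu_ne k) (vv0_reg_uu k)) (Finset.mem_univ (ia 0))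
    rw [uu_z, vv0_z] at h2
    omega
  have h2 : n ≤ 25 := by
    let A : Matrix (Fin 24) (Fin 24) K :=
      Matrix.of fun i j => cjd (the' K) (pd K (e i)) (cv K (e j))
    let M : Matrix (Fin 24) (Fin 24) K := Matrix.of fun j k => pd K (e j) (uu K (e k))
    have hM : M.det = (Matrix.of fun j k => pd K j (uu K k)).det := by
      rw [← det_submatrix_equiv_self e (Matrix.of fun j k => pd K j (uu K k))]
      rfl
    have hAs : ∀ i, ∑ j, A i j • (affFol K e).D j = cjd (the' K) (pd K (e i)) := by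
      intro i
      rw [der_eq_sum' (ι := Ix) (cjd (the' K) (pd K (e i)))]
      exact e.sum_comp fun k => cjd (the' K) (pd K (e i)) (cv K k) • pd K k
    have hAM : A * M = 1 := by
      ext i k
      rw [Matrix.mul_apply]
      have h3 : ∑ j, A i j * M j k = (∑ j, A i j • (affFol K e).D j) (uu K (e k)) := by
        rw [der_sum_apply]
        rfl
      rw [h3, hAs, cjd_apply, the'_apply, ← psi_cv]
      have h4 := DFunLike.congr_fun (the_psi (K := K)) (cv K (e k))
      rw [AlgHom.comp_apply] at h4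
      rw [h4]
      change (the' K).symm (pd K (e i) (cv K (e k))) = _
      rw [pd_cv, Matrix.one_apply]
      by_cases h : i = k
      · rw [if_pos h, if_pos (by rw [h]), map_one]
      · rw [if_neg h, if_neg (fun h' => h (e.injective h')), map_zero]
    have hdet : A.det * M.det = 1 := by rw [← det_mul, hAM, det_one]
    have hA0 : A.det ≠ 0 := left_ne_zero_of_mul_eq_one hdet
    have hM0 : M.det ≠ 0 := right_ne_zero_of_mul_eq_one hdet
    refine hn.2 ⟨A, hA0, fun i => ?_, ?_⟩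
    · rw [hAs]
      exact cjd_pres _ (pd_pres (valP_local X_prime) rfl (e i))
    · have h5 := congrArg (vv0 K).ord hdet
      rw [DVal.map_mul _ _ _ hA0 hM0, DVal.ord_one, hM, vv0_det] at h5
      omega
  have h3 : n = 25 := le_antisymm h2 h1
  rwa [h3] at hn

end Pool.Agent.W497.Mld
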