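import Mathlib
import Pool.Agent.W497.Mld.Vv

/-!
# Uniqueness of the divisor computing the minimal log discrepancy
-/

set_option autoImplicit false
set_option linter.unusedSectionVars false

namespace Pool.Agent.W497.Mld

open Pool.Agent.H436R3.Fol Pool.Agent.H436R3.KT Matrix MvPolynomial

section gen

theorem totalDegree_pderiv_le {κ : Type} {P : MvPolynomial κ ℂ} (a : κ) {n : ℕ}
    (h : P.totalDegree ≤ n + 1) : (pderiv a P).totalDegree ≤ n := by
  unfold totalDegree
  refine Finset.sup_le fun m hm => ?_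
  rw [mem_support_iff, coeff_pderiv] at hm
  have h1 : m + Finsupp.single a 1 ∈ P.support := by
    rw [mem_support_iff]
    intro h2
    rw [h2, zero_mul] at hm
    exact hm rfl
  have h2 := le_totalDegree h1
  rw [Finsupp.sum_add_index' (fun _ => rfl) (fun _ _ _ => rfl),
    Finsupp.sum_single_index rfl] at h2
  omega

theorem exists_pderiv_ne {κ : Type} {P : MvPolynomial κ ℂ} (h : ∀ c, P ≠ C c) :
    ∃ a, pderiv a P ≠ 0 := by
  classical
  by_contra hcon
  push Not at hcon
  have hc : ∀ m, m ≠ 0 → coeff m P = 0 := by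
    intro m hm
    obtain ⟨i, hi⟩ := Finsupp.ne_iff.1 hm
    rw [Finsupp.zero_apply] at hi
    have h1 : m = (m - Finsupp.single i 1) + Finsupp.single i 1 := by
      rw [tsub_add_cancel_of_le]
      rw [Finsupp.single_le_iff]
      omega
    have h2 := coeff_pderiv (i := i) P (m - Finsupp.single i 1)
    rw [hcon i, coeff_zero, ← h1] at h2
    rcases mul_eq_zero.1 h2.symm with h3 | h3
    · exact h3
    · exfalso
      have : ((m - Finsupp.single i 1 : κ →₀ ℕ) i : ℂ) + 1 ≠ 0 := Nat.cast_add_one_ne_zero _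
      exact this h3
  apply h (coeff 0 P)
  ext m
  rw [coeff_C]
  by_cases hm : m = 0
  · rw [hm]; simp
  · rw [hc m hm, if_neg (Ne.symm hm)]

end gen

variable {K : Type} [Field K] [Algebra ℂ K]
  [Algebra (MvPolynomial Ix ℂ) K] [IsFractionRing (MvPolynomial Ix ℂ) K]
  [IsScalarTower ℂ (MvPolynomial Ix ℂ) K]

variable {v : DVal K} (e : Fin 24 ≃ Ix)

/-- In the equality case the adapted coordinates are regular. -/
theorem eqCase_z (h : EqCase v) : v.ord (cz K) = 1 ∧ v.ord (cw0 K) = 1 := by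
  obtain ⟨hc, l, hτ, _, hz, hw⟩ := h
  have h1 := (notMem_qi v hc hτ hz).2
  have h2 := (notMem_qi v hc hτ hw).2
  rw [ev_X, v.ord_div (cv_ne _) (cv_ne _), hτ] at h1 h2
  refine ⟨?_, ?_⟩
  · change v.ord (cv K (ia 0)) = 1
    omega
  · change v.ord (cv K (ia 3)) = 1
    omega

theorem eqCase_g (h : EqCase v) (i : Fin 3) :
    aeval (fun a => cv K (ia a)) (gq i) = 0 ∨
      (sz i : ℤ) + 1 ≤ v.ord (aeval (fun a => cv K (ia a)) (gq i)) := by
  obtain ⟨hc, l, hτ, hg, _, _⟩ := h
  have ht : cv K (it l) ≠ 0 := cv_ne _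
  rcases hg i with h1 | h1
  · left
    rw [gq_hom l, h1, mul_zero]
  · by_cases h0 : (ev l (gq i) : K) = 0
    · left
      rw [gq_hom l, h0, mul_zero]
    right
    rw [gq_hom l, v.map_mul _ _ (pow_ne_zero _ ht) h0, v.ord_pow ht, hτ]
    omega

theorem eqCase_cv (h : EqCase v) (k : Ix) : 1 ≤ v.ord (cv K k) := h.choose k

theorem reg_div_z (h : EqCase v) (k : Ix) : v.Reg (cv K k / cz K) := by
  refine v.reg_of_ord ?_
  rw [v.ord_div (cv_ne _) (cv_ne _), (eqCase_z h).1]
  have := eqCase_cv h k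
  omega

theorem eqCase_reg (h : EqCase v) (k : Ix) : v.Reg (uu K k) := by
  have hz0 : cz K ≠ 0 := cv_ne _
  have hw0 : cw0 K ≠ 0 := cv_ne _
  obtain ⟨hz, hw⟩ := eqCase_z h
  have hX : v.Reg (cx K / cz K) := reg_div_z h _
  have hY : v.Reg (uu K (ia 2)) := by
    have h1 : uu K (ia 2) = aeval (fun a => cv K (ia a)) (gq 0) * (cz K ^ 4)⁻¹ := by
      rw [uu_y, g0_eq]
      simp only [map_sub, map_mul, map_pow, aeval_X]
      field_simp
    rw [h1]
    have h2 := eqCase_g h 0
    rw [sz0] at h2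
    by_cases h3 : aeval (fun a => cv K (ia a)) (gq 0) = 0
    · rw [h3, zero_mul]
      exact v.reg_zero
    · refine v.reg_of_ord ?_
      rw [v.map_mul _ _ h3 (inv_ne_zero (pow_ne_zero _ hz0)), v.ord_inv (pow_ne_zero _ hz0),
        v.ord_pow hz0, hz]
      have := h2.resolve_left h3
      push_cast at this ⊢
      omega
  rcases k with a | o
  · fin_cases a
    · exact v.reg_of_ord (by
        change 0 ≤ v.ord (cz K)
        omega)
    · exact hX
    · exact hY
    · exact reg_div_z h _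
    · change v.Reg (uu K (ia 4))
      have h1 : uu K (ia 4) = aeval (fun a => cv K (ia a)) (gq 1) * (cz K ^ 5 * cw0 K)⁻¹ +
          (uu K (ia 2) * ((cz K * uu K (ia 2)) ^ 2 + 3 * (cz K * uu K (ia 2)) * (cx K / cz K) ^ 3 +
            3 * (cx K / cz K) ^ 6) - (cx K / cz K) ^ 2 * uu K (ia 2) *
              (cz K * uu K (ia 2) + 2 * (cx K / cz K) ^ 3)) := by
        rw [uu_w1, uu_y, g1_eq]
        simp only [map_sub, map_mul, map_pow, aeval_X]
        field_simp
        ring
      rw [h1]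
      have h2 := eqCase_g h 1
      rw [sz1] at h2
      have hzr : v.Reg (cz K) := v.reg_of_ord (by omega)
      have hn : ∀ n : ℕ, v.Reg (n : K) := fun n => by
        have := v.reg_intCast (n : ℤ)
        exact_mod_cast this
      have h3r : v.Reg (3 : K) := by exact_mod_cast hn 3
      have h2r : v.Reg (2 : K) := by exact_mod_cast hn 2
      refine v.reg_add ?_ ?_
      · by_cases h3 : aeval (fun a => cv K (ia a)) (gq 1) = 0
        · rw [h3, zero_mul]
          exact v.reg_zero
        · refine v.reg_of_ord ?_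
          have h5 : cz K ^ 5 * cw0 K ≠ 0 := mul_ne_zero (pow_ne_zero _ hz0) hw0
          rw [v.map_mul _ _ h3 (inv_ne_zero h5), v.ord_inv h5,
            v.map_mul _ _ (pow_ne_zero _ hz0) hw0, v.ord_pow hz0, hz, hw]
          have := h2.resolve_left h3
          push_cast at this ⊢
          omega
      · have hXO : cx K / cz K ∈ v.O := hX
        have hYO : uu K (ia 2) ∈ v.O := hY
        have hzO : cz K ∈ v.O := hzr
        have h3O : (3 : K) ∈ v.O := h3r
        have h2O : (2 : K) ∈ v.O := h2r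
        have hzY : cz K * uu K (ia 2) ∈ v.O := mul_mem hzO hYO
        exact sub_mem (mul_mem hYO (add_mem (add_mem (pow_mem hzY 2)
          (mul_mem (mul_mem h3O hzY) (pow_mem hXO 3))) (mul_mem h3O (pow_mem hXO 6))))
          (mul_mem (mul_mem (pow_mem hXO 2) hYO) (add_mem hzY (mul_mem h2O (pow_mem hXO 3))))
  · exact reg_div_z h _

theorem eqCase_reg_aeval (h : EqCase v) {κ : Type} (f : κ → Ix) (P : MvPolynomial κ ℂ) :
    v.Reg (aeval (fun k => uu K (f k)) P) := by
  induction P using MvPolynomial.induction_on with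
  | C a =>
    rw [← MvPolynomial.algebraMap_eq, AlgHom.commutes]
    exact v.reg_const a
  | add p q hp hq => rw [map_add]; exact v.reg_add hp hq
  | mul_X p j hp =>
    rw [map_mul, aeval_X]
    exact v.reg_mul hp (eqCase_reg h _)

/-- The variables except `z`. -/
abbrev Iz : Type := {k : Ix // k ≠ ia 0}

theorem eqCase_det (h : EqCase v) :
    v.ord (Matrix.of fun j k => pd K j (uu K k)).det = -25 := by
  obtain ⟨hz, hw⟩ := eqCase_z h
  have hz0 : cz K ≠ 0 := cv_ne _
  have hw0 : cw0 K ≠ 0 := cv_ne _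
  rw [det_uu, DVal.ord_inv _ (mul_ne_zero (pow_ne_zero _ hz0) hw0),
    DVal.map_mul _ _ _ (pow_ne_zero _ hz0) hw0, DVal.ord_pow _ hz0, hz, hw]
  norm_num

include e in
theorem eqCase_pos (hn : IsCanOrd (affFol K e) v 25) (h : EqCase v) (P : MvPolynomial Iz ℂ)
    (hP : P ≠ 0) : ¬ v.Pos (aeval (fun k : Iz => uu K k) P) := by
  suffices hs : ∀ n : ℕ, ∀ P : MvPolynomial Iz ℂ, P.totalDegree ≤ n → P ≠ 0 →
      ¬ v.Pos (aeval (fun k : Iz => uu K k) P) from hs _ P le_rfl hP
  have hconst : ∀ c : ℂ, (C c : MvPolynomial Iz ℂ) ≠ 0 →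
      ¬ v.Pos (aeval (fun k : Iz => uu K k) (C c)) := by
    intro c hc hp
    have hc0 : c ≠ 0 := by
      rintro rfl
      exact hc C_0
    rw [← MvPolynomial.algebraMap_eq, AlgHom.commutes] at hp
    rcases hp with h1 | h1
    · exact hc0 ((map_eq_zero _).1 h1)
    · rw [v.const c hc0] at h1
      exact lt_irrefl _ h1
  intro n
  induction n with
  | zero =>
    intro P hPd hP0
    rw [Nat.le_zero, totalDegree_eq_zero_iff_eq_C] at hPd
    rw [hPd] at hP0 ⊢
    exact hconst _ hP0
  | succ n ih =>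
    intro P hPd hP0 hpos
    by_cases hC : ∃ c, P = C c
    · obtain ⟨c, rfl⟩ := hC
      exact hconst c hP0 hpos
    push Not at hC
    obtain ⟨a, ha⟩ := exists_pderiv_ne hC
    have hnp := ih (pderiv a P) (totalDegree_pderiv_le a hPd) ha
    -- the order of the derivative is zero
    have hd0 : aeval (fun k : Iz => uu K k) (pderiv a P) ≠ 0 := fun h0 => hnp (Or.inl h0)
    have hdz : v.ord (aeval (fun k : Iz => uu K k) (pderiv a P)) = 0 := by
      have h1 := v.ord_nonneg hd0 (eqCase_reg_aeval h (fun k : Iz => (k : Ix)) _)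
      have h2 : ¬ 0 < v.ord (aeval (fun k : Iz => uu K k) (pderiv a P)) := fun h0 => hnp (Or.inr h0)
      omega
    have hP1 : aeval (fun k : Iz => uu K k) P ≠ 0 := by
      intro h0
      have hai : AlgebraicIndependent ℂ (fun k : Iz => uu K k) :=
        algInd_uu.comp _ Subtype.val_injective
      exact hP0 ((algebraicIndependent_iff.1 hai) P h0)
    have hord : 1 ≤ v.ord (aeval (fun k : Iz => uu K k) P) := by
      have := hpos.resolve_left hP1
      omega
    -- the Jacobian
    let M : Matrix Ix Ix K := Matrix.of fun j k => pd K j (uu K k)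
    let H : Ix → K := Function.update (uu K) a (aeval (fun k : Iz => uu K k) P)
    let c : Ix → K := fun k => if hk : k ≠ ia 0 then
      aeval (fun k : Iz => uu K k) (pderiv ⟨k, hk⟩ P) else 0
    have hJ : (Matrix.of fun j k => pd K j (H k)) = M.updateCol a (fun j => ∑ i, c i • M j i) := by
      ext j k
      rw [of_apply, updateCol_apply]
      by_cases hk : k = a
      · rw [if_pos hk, hk]
        change pd K j (Function.update (uu K) a (aeval (fun k : Iz => uu K k) P) a) = _
        rw [Function.update_self, der_aeval_sum]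
        have h1 : ∀ i : Ix, c i • M j i = if hk : i ≠ ia 0 then
            aeval (fun k : Iz => uu K k) (pderiv ⟨i, hk⟩ P) * pd K j (uu K i) else 0 := by
          intro i
          simp only [c, smul_eq_mul]
          split_ifs with hi
          · rfl
          · exact zero_mul _
        rw [← Fintype.sum_subtype_add_sum_subtype (fun i : Ix => i ≠ ia 0)
          (fun i => c i • M j i)]
        have h2 : ∑ i : {x : Ix // ¬ (x ≠ ia 0)}, c i • M j i = 0 := by
          refine Finset.sum_eq_zero fun i _ => ?_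
          rw [h1, dif_neg i.2]
        rw [h2, add_zero]
        refine Finset.sum_congr rfl fun i _ => ?_
        rw [h1, dif_pos i.2]
      · rw [if_neg hk]
        change pd K j (Function.update (uu K) a (aeval (fun k : Iz => uu K k) P) k) = _
        rw [Function.update_of_ne hk]
        rfl
    have hca : c a = aeval (fun k : Iz => uu K k) (pderiv a P) := by
      simp only [c]
      rw [dif_pos a.2]
    have hdet : (Matrix.of fun j k => pd K j (H k)).det = c a * M.det := by
      rw [hJ, det_updateCol_sum, smul_eq_mul]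
    have hM0 : M.det ≠ 0 := det_uu_ne
    have hc0 : c a ≠ 0 := by rw [hca]; exact hd0
    have hH : ∀ k, H k ≠ 0 := by
      intro k
      by_cases hk : k = a
      · rw [hk]
        simp only [H]
        rw [Function.update_self]
        exact hP1
      · simp only [H]
        rw [Function.update_of_ne hk]
        exact uu_ne k
    have hg := can_ge v hn e (pd K) (fun _ => rfl) H hH
      (by rw [hdet]; exact mul_ne_zero hc0 hM0)
    rw [hdet, v.map_mul _ _ hc0 hM0, hca, hdz, eqCase_det h] at hg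
    have hHa : v.ord (H a) = v.ord (aeval (fun k : Iz => uu K k) P) := by
      simp only [H]
      rw [Function.update_self]
    have hHz : v.ord (H (ia 0)) = 1 := by
      simp only [H]
      rw [Function.update_of_ne (Ne.symm a.2), uu_z]
      exact (eqCase_z h).1
    have hnn : ∀ k, 0 ≤ v.ord (H k) := by
      intro k
      by_cases hk : k = a
      · rw [hk, hHa]
        omega
      · simp only [H]
        rw [Function.update_of_ne hk]
        exact v.ord_nonneg (uu_ne k) (eqCase_reg h k)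
    have hsum : v.ord (H a) + v.ord (H (ia 0)) ≤ ∑ k, v.ord (H k) := by
      have h1 : ∑ k ∈ ({(a : Ix), ia 0} : Finset Ix), v.ord (H k) ≤ ∑ k, v.ord (H k) :=
        Finset.sum_le_sum_of_subset_of_nonneg (Finset.subset_univ _) fun k _ _ => hnn k
      rwa [Finset.sum_pair a.2] at h1
    omega

/-- Setting `z` to `0`. -/
noncomputable def z0 : MvPolynomial Ix ℂ →ₐ[ℂ] MvPolynomial Iz ℂ :=
  aeval fun k => if h : k ≠ ia 0 then X ⟨k, h⟩ else 0

theorem z0_dvd (P : MvPolynomial Ix ℂ) :
    X (ia 0) ∣ P - rename (Subtype.val : Iz → Ix) (z0 P) := by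
  induction P using MvPolynomial.induction_on with
  | C a =>
    have : z0 (C a) = C a := by
      rw [← MvPolynomial.algebraMap_eq, AlgHom.commutes, MvPolynomial.algebraMap_eq]
    rw [this, rename_C, sub_self]
    exact dvd_zero _
  | add p q hp hq =>
    rw [map_add, map_add]
    have : p + q - (rename Subtype.val (z0 p) + rename Subtype.val (z0 q)) =
        (p - rename Subtype.val (z0 p)) + (q - rename Subtype.val (z0 q)) := by ring
    rw [this]
    exact dvd_add hp hq
  | mul_X p j hp =>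
    have h1 : X (ia 0) ∣ (X j - rename (Subtype.val : Iz → Ix) (z0 (X j))) := by
      rw [z0, aeval_X]
      split_ifs with h
      · rw [rename_X, sub_self]
        exact dvd_zero _
      · rw [map_zero, sub_zero]
        rw [not_not] at h
        rw [h]
    have h2 : p * X j - rename (Subtype.val : Iz → Ix) (z0 (p * X j)) =
        (p - rename Subtype.val (z0 p)) * X j +
          rename Subtype.val (z0 p) * (X j - rename Subtype.val (z0 (X j))) := by
      rw [map_mul, map_mul]
      ring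
    rw [h2]
    exact dvd_add (hp.mul_right _) (h1.mul_left _)

include e in
/-- The uniqueness. -/
theorem eqCase_agree (hn : IsCanOrd (affFol K e) v 25) (h : EqCase v) {f : K} (hf : f ≠ 0) :
    (vv0 K).ord f = v.ord f := by
  refine agree_of_key vv0_local ?_ ?_ hf
  · intro f hf
    obtain ⟨P, rfl⟩ := mem_SV.1 hf
    exact eqCase_reg_aeval h id P
  · intro f hf hp
    obtain ⟨P, rfl⟩ := mem_SV.1 hf
    obtain ⟨P1, hP1⟩ := z0_dvd P
    have h1 : aeval (uu K) P = aeval (fun k : Iz => uu K k) (z0 P) + cz K * aeval (uu K) P1 := by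
      have h2 : P = rename (Subtype.val : Iz → Ix) (z0 P) + X (ia 0) * P1 := by
        rw [← hP1]; ring
      conv_lhs => rw [h2]
      rw [map_add, map_mul, aeval_X, uu_z, aeval_rename]
      rfl
    have h3 : z0 P = 0 := by
      by_contra h0
      apply eqCase_pos e hn h _ h0
      have h4 : aeval (fun k : Iz => uu K k) (z0 P) =
          aeval (uu K) P + (-(aeval (uu K) P1)) * cz K := by
        rw [h1]; ring
      rw [h4]
      refine v.pos_add hp (v.pos_mul_left (v.reg_neg (eqCase_reg_aeval h id P1)) (Or.inr ?_))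
      rw [(eqCase_z h).1]
      norm_num
    rw [h1, h3, map_zero, zero_add, mul_comm]
    refine (vv0 K).pos_mul_left (vv0_local.1 _ (mem_SV.2 ⟨P1, rfl⟩)) (Or.inr ?_)
    rw [vv0_z]
    norm_num

/-- The orders of the three hypersurfaces. -/
theorem vv0_fk_ge : 16 ≤ ∑ i, (vv0 K).ord (fk K i) := by
  have h1 : ∀ i : Fin 3, ∀ L : ℕ, (L : ℤ) ≤ (sz i : ℤ) + 1 →
      X (ia 0) ^ L ∣ aeval al (rename ia (gq i)) → (L : ℤ) ≤ (vv0 K).ord (fk K i) := by
    intro i L hL hd
    have h2 := ord_mono (vv0 K) vv0_cv i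
    have h3 : aeval (fun a => cv K (ia a)) (gq i) = jo Ix K (rename ia (gq i)) := by
      rw [← aeval_cv (K := K), aeval_rename]
      rfl
    have h4 : (L : ℤ) ≤ (vv0 K).ord (aeval (fun a => cv K (ia a)) (gq i)) := by
      rw [h3, vv0_dvd (rename_ne i)]
      exact hd
    have h5 := (vv0 K).map_add ((∏ j : Fin (sz i), cv K (iy ⟨i, j⟩)) * cv K (ip i))
      (aeval (fun a => cv K (ia a)) (gq i))
      (mul_ne_zero (Finset.prod_ne_zero_iff.2 fun _ _ => cv_ne _) (cv_ne _))
      (by rw [h3]; exact jo_ne (rename_ne i)) (by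
        rw [← fk_eq]
        exact fk_ne i)
    rw [← fk_eq] at h5
    refine le_trans (le_min (hL.trans h2) h4) h5
  have e0 := h1 0 4 (by rw [sz0]; norm_num) (by
    refine ⟨X (ia 2), ?_⟩
    rw [aeval_rename, g0_eq]
    simp only [map_sub, map_mul, map_pow, aeval_X, Function.comp_apply]
    change (X (ia 0) ^ 2 * X (ia 2) + X (ia 0) * X (ia 1) ^ 3) * X (ia 0) ^ 2 -
      (X (ia 0) * X (ia 1)) ^ 3 = _
    ring)
  have e1 := h1 1 6 (by rw [sz1]; norm_num) (by
    refine ⟨X (ia 3) * (X (ia 4) - X (ia 2) * ((X (ia 0) * X (ia 2)) ^ 2 +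
      3 * (X (ia 0) * X (ia 2)) * X (ia 1) ^ 3 + 3 * X (ia 1) ^ 6) +
      X (ia 1) ^ 2 * X (ia 2) * (X (ia 0) * X (ia 2) + 2 * X (ia 1) ^ 3)), ?_⟩
    rw [aeval_rename, g1_eq]
    simp only [map_sub, map_mul, map_pow, aeval_X, Function.comp_apply]
    change (X (ia 0) * X (ia 3) * (X (ia 0) * X (ia 4) + X (ia 1) ^ 9 - X (ia 1) ^ 8)) *
      X (ia 0) ^ 4 - (X (ia 0) * X (ia 3)) *
      ((X (ia 0) ^ 2 * X (ia 2) + X (ia 0) * X (ia 1) ^ 3) ^ 3 * X (ia 0) -
      (X (ia 0) * X (ia 1)) ^ 2 * (X (ia 0) ^ 2 * X (ia 2) + X (ia 0) * X (ia 1) ^ 3) ^ 2) = _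
    ring)
  have e2 := h1 2 6 (by rw [sz2]; norm_num) (by
    refine ⟨X (ia 3) * (X (ia 4) * (X (ia 0) * X (ia 2) + X (ia 1) ^ 3 + X (ia 1) ^ 2) +
      (X (ia 1) ^ 9 - X (ia 1) ^ 8) * X (ia 2) -
      X (ia 2) * ((X (ia 0) * X (ia 2)) ^ 3 + 4 * (X (ia 0) * X (ia 2)) ^ 2 * X (ia 1) ^ 3 +
        6 * (X (ia 0) * X (ia 2)) * X (ia 1) ^ 6 + 4 * X (ia 1) ^ 9) +
      X (ia 1) * X (ia 2) * ((X (ia 0) * X (ia 2)) ^ 2 +
      3 * (X (ia 0) * X (ia 2)) * X (ia 1) ^ 3 + 3 * X (ia 1) ^ 6)), ?_⟩
    rw [aeval_rename, g2_eq]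
    simp only [map_sub, map_mul, map_pow, aeval_X, Function.comp_apply, map_add]
    change (X (ia 0) * X (ia 3) * (X (ia 0) * X (ia 4) + X (ia 1) ^ 9 - X (ia 1) ^ 8)) *
      X (ia 0) ^ 2 * ((X (ia 0) ^ 2 * X (ia 2) + X (ia 0) * X (ia 1) ^ 3) * X (ia 0) +
      (X (ia 0) * X (ia 1)) ^ 2) - (X (ia 0) * X (ia 3)) *
      ((X (ia 0) ^ 2 * X (ia 2) + X (ia 0) * X (ia 1) ^ 3) ^ 4 -
      (X (ia 0) * X (ia 1)) * (X (ia 0) ^ 2 * X (ia 2) + X (ia 0) * X (ia 1) ^ 3) ^ 3) = _
    ring)
  rw [Fin.sum_univ_three]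
  push_cast at e0 e1 e2
  omega

include e in
theorem vv0_fk : ∑ i, (vv0 K).ord (fk K i) = 16 := by
  have h1 := vv0_fk_ge (K := K)
  rcases main_low (vv0 K) e vv0_cv (vv0_can e) with h2 | h2
  · omega
  · exact h2.2.1

end Pool.Agent.W497.Mld
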