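import Mathlib
import Pool.Agent.W497.Mld.Uniq
import Pool.Agent.W497.Mld.Cub

/-!
# Expansions along the cone over the cuspidal cubic
-/

set_option autoImplicit false
set_option linter.unusedSectionVars false

namespace Pool.Agent.W497.Mld

open Pool.Agent.H436R3.Fol

/-- The other variables. -/
abbrev Ox : Type := Fin 3 ⊕ (Fin 3 ⊕ (Σ i : Fin 3, Fin (sz i)))

abbrev A1 : Type := Polynomial ℂ
abbrev C3 : Type := Polynomial (Polynomial A1)
abbrev Jx : Type := Fin 2 ⊕ Ox
abbrev SS : Type := MvPolynomial Jx C3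

/-- The parameter `U`. -/
noncomputable abbrev pU : A1 := Polynomial.X

/-- The curve. -/
noncomputable abbrev pT : Polynomial A1 := TT pU

/-- The variable of `SS` for a variable. -/
def jk : Ix → Jx := Sum.elim ![Sum.inl 0, Sum.inl 0, Sum.inl 0, Sum.inl 1, Sum.inl 1] Sum.inr

/-- The coefficient. -/
noncomputable def pk : Ix → C3 :=
  Sum.elim ![1, Polynomial.C Polynomial.X, Polynomial.X, 1, Polynomial.C (Polynomial.C pU)]
    fun _ => 1

/-- The expansion. -/
noncomputable def kap : MvPolynomial Ix ℂ →ₐ[ℂ] SS :=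
  MvPolynomial.aeval fun k => MvPolynomial.monomial (Finsupp.single (jk k) 1) (tay (pk k))

theorem kap_X (k : Ix) : kap (MvPolynomial.X k) =
    MvPolynomial.monomial (Finsupp.single (jk k) 1) (tay (pk k)) := by
  rw [kap, MvPolynomial.aeval_X]

/-- The coefficients come from polynomials of bounded degree. -/
def Good (s : SS) : Prop := ∀ ν : Jx →₀ ℕ, ∃ p : C3, s.coeff ν = tay p ∧ DegLt p (ν (Sum.inl 0) + 1)

theorem degLt_one : DegLt (1 : C3) 1 := by
  intro l m h
  rw [Polynomial.coeff_one]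
  split_ifs with h1
  · rw [Polynomial.coeff_one, if_neg (by omega)]
  · rw [Polynomial.coeff_zero]

theorem degLt_zero (n : ℕ) : DegLt (0 : C3) n := by
  intro l m _
  simp

theorem degLt_CC (a : A1) : DegLt (Polynomial.C (Polynomial.C a) : C3) 1 := by
  intro l m h
  rw [Polynomial.coeff_C]
  split_ifs with h1
  · rw [Polynomial.coeff_C, if_neg (by omega)]
  · rw [Polynomial.coeff_zero]

theorem degLt_CX : DegLt (Polynomial.C Polynomial.X : C3) 2 := by
  intro l m h
  rw [Polynomial.coeff_C]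
  split_ifs with h1
  · rw [Polynomial.coeff_X, if_neg (by omega)]
  · rw [Polynomial.coeff_zero]

theorem degLt_X : DegLt (Polynomial.X : C3) 2 := by
  intro l m h
  rw [Polynomial.coeff_X]
  split_ifs with h1
  · rw [Polynomial.coeff_one, if_neg (by omega)]
  · rw [Polynomial.coeff_zero]

theorem tay_zero' : tay (0 : C3) = 0 := map_zero _

theorem tay_one : tay (1 : C3) = 1 := Polynomial.taylor_one _

theorem tay_C (a : Polynomial A1) : tay (Polynomial.C a : C3) = Polynomial.C a :=
  Polynomial.taylor_C _ _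

theorem tay_X : tay (Polynomial.X : C3) = Polynomial.X + Polynomial.C (Polynomial.X ^ 3) :=
  Polynomial.taylor_X _

theorem tay_mul (p q : C3) : tay (p * q) = tay p * tay q := Polynomial.taylor_mul _ _ _

theorem tay_sum {ι : Type} (s : Finset ι) (f : ι → C3) :
    tay (∑ i ∈ s, f i) = ∑ i ∈ s, tay (f i) := map_sum _ _ _

theorem Good.add {s t : SS} (hs : Good s) (ht : Good t) : Good (s + t) := by
  intro ν
  obtain ⟨p, hp, hpd⟩ := hs ν
  obtain ⟨q, hq, hqd⟩ := ht ν
  exact ⟨p + q, by rw [MvPolynomial.coeff_add, hp, hq, tay_add], hpd.add hqd⟩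

theorem Good.mul {s t : SS} (hs : Good s) (ht : Good t) : Good (s * t) := by
  classical
  intro ν
  choose p hp hpd using hs
  choose q hq hqd using ht
  refine ⟨∑ x ∈ Finset.HasAntidiagonal.antidiagonal ν, p x.1 * q x.2, ?_, ?_⟩
  · rw [MvPolynomial.coeff_mul, tay_sum]
    refine Finset.sum_congr rfl fun x _ => ?_
    rw [tay_mul, hp, hq]
  · refine DegLt.sum _ fun x hx => ?_
    rw [Finset.HasAntidiagonal.mem_antidiagonal] at hx
    have h := (hpd x.1).mul (hqd x.2)
    have h1 : ν (Sum.inl 0) = x.1 (Sum.inl 0) + x.2 (Sum.inl 0) := by rw [← hx]; rfl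
    rw [h1]
    exact h

theorem good_monomial (j : Jx) (p : C3) (h : DegLt p ((Finsupp.single j 1 : Jx →₀ ℕ) (Sum.inl 0) + 1)) :
    Good (MvPolynomial.monomial (Finsupp.single j 1) (tay p)) := by
  classical
  intro ν
  rw [MvPolynomial.coeff_monomial]
  split_ifs with h1
  · rw [← h1]
    exact ⟨p, rfl, h⟩
  · exact ⟨0, tay_zero'.symm, degLt_zero _⟩

theorem good_X (k : Ix) : Good (kap (MvPolynomial.X k)) := by
  rw [kap_X]
  apply good_monomial
  rcases k with a | o
  · fin_cases a
    · change DegLt (1 : C3) ((Finsupp.single (Sum.inl 0 : Jx) 1 : Jx →₀ ℕ) (Sum.inl 0) + 1)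
      rw [Finsupp.single_eq_same]
      exact degLt_one.mono (by norm_num)
    · change DegLt (Polynomial.C Polynomial.X : C3)
        ((Finsupp.single (Sum.inl 0 : Jx) 1 : Jx →₀ ℕ) (Sum.inl 0) + 1)
      rw [Finsupp.single_eq_same]
      exact degLt_CX
    · change DegLt (Polynomial.X : C3)
        ((Finsupp.single (Sum.inl 0 : Jx) 1 : Jx →₀ ℕ) (Sum.inl 0) + 1)
      rw [Finsupp.single_eq_same]
      exact degLt_X
    · exact degLt_one.mono (by omega)
    · exact (degLt_CC _).mono (by omega)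
  · exact degLt_one.mono (by omega)

theorem good_kap (h : MvPolynomial Ix ℂ) : Good (kap h) := by
  classical
  induction h using MvPolynomial.induction_on with
  | C a =>
    have h1 : kap (MvPolynomial.C a) = MvPolynomial.C (Polynomial.C (Polynomial.C
        (Polynomial.C a))) := by
      rw [← MvPolynomial.algebraMap_eq, AlgHom.commutes]
      rfl
    intro ν
    rw [h1, MvPolynomial.coeff_C]
    split_ifs with h2
    · refine ⟨Polynomial.C (Polynomial.C (Polynomial.C a)), (tay_C _).symm, ?_⟩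
      exact (degLt_CC _).mono (by omega)
    · exact ⟨0, tay_zero'.symm, degLt_zero _⟩
  | add p q hp hq => rw [map_add]; exact hp.add hq
  | mul_X p j hp => rw [map_mul]; exact hp.mul (good_X j)

/-- The filtration: `z, w_0`, the other variables, `Y'` and `T` have weight one. -/
def InI (N : ℕ) (s : SS) : Prop := ∀ (ν : Jx →₀ ℕ) (l : ℕ), pT ^ (N - ν.degree - l) ∣ (s.coeff ν).coeff l

theorem InI.add {N : ℕ} {s t : SS} (hs : InI N s) (ht : InI N t) : InI N (s + t) := by
  intro ν l
  rw [MvPolynomial.coeff_add, Polynomial.coeff_add]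
  exact dvd_add (hs ν l) (ht ν l)

theorem InI.mul {N M : ℕ} {s t : SS} (hs : InI N s) (ht : InI M t) : InI (N + M) (s * t) := by
  classical
  intro ν l
  rw [MvPolynomial.coeff_mul, Polynomial.finsetSum_coeff]
  refine Finset.dvd_sum fun x hx => ?_
  rw [Finset.HasAntidiagonal.mem_antidiagonal] at hx
  rw [Polynomial.coeff_mul]
  refine Finset.dvd_sum fun y hy => ?_
  rw [Finset.HasAntidiagonal.mem_antidiagonal] at hy
  have h1 := mul_dvd_mul (hs x.1 y.1) (ht x.2 y.2)
  rw [← pow_add] at h1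
  refine (pow_dvd_pow _ ?_).trans h1
  have h2 : ν.degree = x.1.degree + x.2.degree := by rw [← hx, map_add]
  omega

theorem inI_zero (s : SS) : InI 0 s := by
  intro ν l
  rw [Nat.zero_sub, Nat.zero_sub, pow_zero]
  exact one_dvd _

theorem inI_X (j : Jx) : InI 1 (MvPolynomial.X j : SS) := by
  classical
  intro ν l
  rw [MvPolynomial.coeff_X]
  split_ifs with h
  · have : ν.degree = 1 := by rw [← h, Finsupp.degree_single]
    rw [this]
    have h2 : 1 - 1 - l = 0 := by omega
    rw [h2, pow_zero]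
    exact one_dvd _
  · rw [Polynomial.coeff_zero]
    exact dvd_zero _

theorem inI_X_pow (j : Jx) (N : ℕ) : InI N ((MvPolynomial.X j : SS) ^ N) := by
  induction N with
  | zero => exact inI_zero _
  | succ n ih =>
    rw [pow_succ]
    exact ih.mul (inI_X j)

theorem inI_C (c : C3) (h : pT ∣ c.coeff 0) : InI 1 (MvPolynomial.C c : SS) := by
  classical
  intro ν l
  rw [MvPolynomial.coeff_C]
  split_ifs with h1
  · rcases l with _ | l
    · rw [Nat.sub_zero]
      refine (pow_dvd_pow _ (Nat.sub_le _ _)).trans ?_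
      rw [pow_one]
      exact h
    · have h2 : 1 - ν.degree - (l + 1) = 0 := by omega
      rw [h2, pow_zero]
      exact one_dvd _
  · rw [Polynomial.coeff_zero]
    exact dvd_zero _

theorem InI.of_X_pow_mul {N M : ℕ} {j : Jx} {s : SS}
    (h : InI (N + M) ((MvPolynomial.X j : SS) ^ M * s)) : InI N s := by
  classical
  intro ν l
  have h1 := h (ν + Finsupp.single j M) l
  rw [MvPolynomial.X_pow_eq_monomial, add_comm ν, MvPolynomial.coeff_monomial_mul, one_mul,
    map_add, Finsupp.degree_single] at h1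
  have h2 : N + M - (M + ν.degree) - l = N - ν.degree - l := by omega
  rwa [h2] at h1

/-- The weights. -/
def wt (M : ℕ) : Jx → ℕ := Sum.elim ![4 * M, 3 * M + 1] fun _ => 3 * M + 1

/-- The total weight. -/
def wtt (M : ℕ) (ν : Jx →₀ ℕ) : ℕ := ∑ j, wt M j * ν j

theorem sum_Jx (f : Jx → ℕ) : ∑ j, f j = f (Sum.inl 0) + f (Sum.inl 1) + ∑ o : Ox, f (Sum.inr o) := by
  rw [Fintype.sum_sum_type, Fin.sum_univ_two]

theorem wtt_eq {M : ℕ} (hM : 1 ≤ M) (ν : Jx →₀ ℕ) :
    wtt M ν = (3 * M + 1) * ν.degree + (M - 1) * ν (Sum.inl 0) := by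
  have h1 : ν.degree = ∑ j, ν j := by
    rw [Finsupp.degree_eq_sum]
  rw [h1, wtt, sum_Jx, sum_Jx]
  have h2 : ∑ o : Ox, wt M (Sum.inr o) * ν (Sum.inr o) =
      (3 * M + 1) * ∑ o : Ox, ν (Sum.inr o) := by
    rw [Finset.mul_sum]
    rfl
  rw [h2]
  have h3 : wt M (Sum.inl 0) = 4 * M := rfl
  have h4 : wt M (Sum.inl 1) = 3 * M + 1 := rfl
  rw [h3, h4]
  obtain ⟨m, rfl⟩ := Nat.exists_eq_add_of_le hM
  rw [Nat.add_sub_cancel_left]
  ring

/-- The base ring homomorphism. -/
noncomputable def bs : Polynomial A1 →+* Polynomial SS :=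
  ((Polynomial.C : SS →+* Polynomial SS).comp (MvPolynomial.C : C3 →+* SS)).comp
    (Polynomial.C : Polynomial A1 →+* C3)

/-- The grading homomorphism on the coefficients. -/
noncomputable def th3 (M : ℕ) : C3 →+* Polynomial SS :=
  Polynomial.eval₂RingHom bs (Polynomial.X ^ M * Polynomial.C (MvPolynomial.C Polynomial.X))

/-- The grading homomorphism. -/
noncomputable def thW (M : ℕ) : SS →+* Polynomial SS :=
  MvPolynomial.eval₂Hom (th3 M) fun j => Polynomial.X ^ wt M j * Polynomial.C (MvPolynomial.X j)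

theorem thW_C (M : ℕ) (c : C3) : thW M (MvPolynomial.C c) = th3 M c :=
  MvPolynomial.eval₂Hom_C _ _ _

theorem thW_X (M : ℕ) (j : Jx) : thW M (MvPolynomial.X j) =
    Polynomial.X ^ wt M j * Polynomial.C (MvPolynomial.X j) := MvPolynomial.eval₂Hom_X' _ _ _

theorem th3_C (M : ℕ) (c : Polynomial A1) : th3 M (Polynomial.C c) = bs c := by
  rw [th3, Polynomial.coe_eval₂RingHom, Polynomial.eval₂_C]

theorem th3_X (M : ℕ) : th3 M Polynomial.X =
    Polynomial.X ^ M * Polynomial.C (MvPolynomial.C Polynomial.X) := by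
  rw [th3, Polynomial.coe_eval₂RingHom, Polynomial.eval₂_X]

/-- Evaluation at one recovers the element. -/
theorem eval_one_thW (M : ℕ) (s : SS) : (thW M s).eval 1 = s := by
  have h1 : ((Polynomial.evalRingHom (1 : SS)).comp (thW M)) = RingHom.id SS := by
    apply MvPolynomial.ringHom_ext'
    · apply Polynomial.ringHom_ext'
      · apply RingHom.ext
        intro c
        change (thW M (MvPolynomial.C (Polynomial.C c))).eval 1 = MvPolynomial.C (Polynomial.C c)
        rw [thW_C, th3_C, bs]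
        simp
      · change (thW M (MvPolynomial.C Polynomial.X)).eval 1 = MvPolynomial.C Polynomial.X
        rw [thW_C, th3_X]
        simp
    · intro j
      change (thW M (MvPolynomial.X j)).eval 1 = MvPolynomial.X j
      rw [thW_X]
      simp
  exact DFunLike.congr_fun h1 s

theorem thW_inj (M : ℕ) : Function.Injective (thW M) := by
  intro a b h
  rw [← eval_one_thW M a, h, eval_one_thW]

theorem monomial_eq' (ν : Jx →₀ ℕ) (c : C3) : (MvPolynomial.monomial ν c : SS) =
    MvPolynomial.C c * ∏ j, (MvPolynomial.X j : SS) ^ ν j := by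
  rw [MvPolynomial.monomial_eq, Finsupp.prod_fintype _ _ (fun _ => pow_zero _)]

theorem thW_monomial (M : ℕ) (ν : Jx →₀ ℕ) (c : C3) : thW M (MvPolynomial.monomial ν c) =
    th3 M c * (Polynomial.X ^ wtt M ν * Polynomial.C (MvPolynomial.monomial ν 1)) := by
  have h1 : ∀ j, thW M ((MvPolynomial.X j : SS) ^ ν j) =
      Polynomial.X ^ (wt M j * ν j) * Polynomial.C ((MvPolynomial.X j : SS) ^ ν j) := by
    intro j
    rw [map_pow, thW_X, mul_pow, ← pow_mul, ← Polynomial.C_pow]
  have h2 : thW M (∏ j, (MvPolynomial.X j : SS) ^ ν j) =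
      Polynomial.X ^ wtt M ν * Polynomial.C (∏ j, (MvPolynomial.X j : SS) ^ ν j) := by
    rw [map_prod, map_prod, wtt, ← Finset.prod_pow_eq_pow_sum, ← Finset.prod_mul_distrib]
    exact Finset.prod_congr rfl fun j _ => h1 j
  rw [monomial_eq' ν c, monomial_eq' ν 1, map_mul, thW_C, MvPolynomial.C_1, one_mul, h2]

/-- A criterion for divisibility by powers of the parameter. -/
theorem dvd_thW {M n : ℕ} {s : SS} (h : ∀ ν l, (s.coeff ν).coeff l ≠ 0 → n ≤ wtt M ν + M * l) :
    Polynomial.X ^ n ∣ thW M s := by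
  rw [MvPolynomial.as_sum s, map_sum]
  refine Finset.dvd_sum fun ν _ => ?_
  rw [thW_monomial]
  have h1 : th3 M (s.coeff ν) = ∑ l ∈ Finset.range ((s.coeff ν).natDegree + 1),
      bs ((s.coeff ν).coeff l) * (Polynomial.X ^ M *
        Polynomial.C (MvPolynomial.C Polynomial.X)) ^ l := by
    rw [th3, Polynomial.coe_eval₂RingHom, Polynomial.eval₂_eq_sum_range]
  rw [h1, Finset.sum_mul]
  refine Finset.dvd_sum fun l _ => ?_
  by_cases h0 : (s.coeff ν).coeff l = 0
  · rw [h0, map_zero, zero_mul, zero_mul]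
    exact dvd_zero _
  · have h2 := h ν l h0
    refine (pow_dvd_pow _ h2).trans ?_
    refine ⟨bs ((s.coeff ν).coeff l) * (Polynomial.C (MvPolynomial.C Polynomial.X)) ^ l *
      Polynomial.C (MvPolynomial.monomial ν 1), ?_⟩
    rw [mul_pow, ← pow_mul, pow_add]
    ring

/-- The lower bound for the orders along the auxiliary valuation. -/
theorem lower_W {M N : ℕ} (hM : 4 * N + 1 ≤ M) {s : SS} (hg : Good s) (hs : InI N s) :
    Polynomial.X ^ ((3 * M + 1) * N) ∣ thW M s := by
  refine dvd_thW fun ν l hl => ?_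
  obtain ⟨p, hp, hd⟩ := hg ν
  have hp0 : p ≠ 0 := by
    rintro rfl
    rw [hp, tay_zero', Polynomial.coeff_zero] at hl
    exact hl rfl
  rw [wtt_eq (by omega)]
  by_cases hk : N ≤ ν.degree
  · have h1 : (3 * M + 1) * N ≤ (3 * M + 1) * ν.degree := Nat.mul_le_mul_left _ hk
    omega
  · obtain ⟨k, hk'⟩ := Nat.exists_eq_add_of_le (not_le.1 hk).le
    have hk1 : 1 ≤ k := by omega
    obtain ⟨h1, h2⟩ := lemC pU k (ν (Sum.inl 0)) p hp0 hd (by
      intro l' _
      have h3 := hs ν l'
      rw [hp, hk', Nat.add_sub_cancel_left] at h3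
      exact h3)
    have h4 : (3 * M + 1) * N = (3 * M + 1) * ν.degree + (3 * M + 1) * k := by
      rw [hk', mul_add]
    rw [h4, add_assoc]
    apply Nat.add_le_add_left
    obtain ⟨m, rfl⟩ := Nat.exists_eq_add_of_le hM
    have h5 : 4 * N + 1 + m - 1 = 4 * N + m := by omega
    rw [h5]
    by_cases h6 : ν (Sum.inl 0) = 3 * k
    · have h7 := h2 hk1 h6
      have h8 : 1 ≤ l := by
        rcases l with _ | l
        · rw [hp] at hl
          exact absurd h7 hl
        · omega
      rw [h6]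
      nlinarith [hk', hk1]
    · have h7 : 3 * k + 1 ≤ ν (Sum.inl 0) := by omega
      have h8 : (4 * N + m) * (3 * k + 1) ≤ (4 * N + m) * ν (Sum.inl 0) :=
        Nat.mul_le_mul_left _ h7
      nlinarith [hk', hk1]

end Pool.Agent.W497.Mld
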