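import Mathlib
import Pool.Agent.W497.Mld.Kap

/-!
# The auxiliary valuations
-/

set_option autoImplicit false
set_option linter.unusedSectionVars false
set_option maxSynthPendingDepth 4

namespace Pool.Agent.W497.Mld

open Pool.Agent.H436R3.Fol

variable (K : Type) [Field K] [Algebra ℂ K]
  [Algebra (MvPolynomial Ix ℂ) K] [IsFractionRing (MvPolynomial Ix ℂ) K]
  [IsScalarTower ℂ (MvPolynomial Ix ℂ) K]

/-- Evaluation of the coefficients. -/
noncomputable def ev1 : A1 →+* K := Polynomial.eval₂RingHom (algebraMap ℂ K) (cw1 K / cw0 K)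

noncomputable def ev2 : Polynomial A1 →+* K := Polynomial.eval₂RingHom (ev1 K) (cx K / cz K)

noncomputable def ev3 : C3 →+* K :=
  Polynomial.eval₂RingHom (ev2 K) (cy K / cz K - (cx K / cz K) ^ 3)

/-- The values of the variables. -/
noncomputable def jv : Jx → K := Sum.elim ![cz K, cw0 K] fun o : Ox => cv K (Sum.inr o : Ix)

/-- The evaluation. -/
noncomputable def rho : SS →+* K := MvPolynomial.eval₂Hom (ev3 K) (jv K)

variable {K}

theorem ev1_C (a : ℂ) : ev1 K (Polynomial.C a) = algebraMap ℂ K a := Polynomial.eval₂_C _ _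
theorem ev1_X : ev1 K pU = cw1 K / cw0 K := Polynomial.eval₂_X _ _
theorem ev2_C (a : A1) : ev2 K (Polynomial.C a) = ev1 K a := Polynomial.eval₂_C _ _
theorem ev2_X : ev2 K Polynomial.X = cx K / cz K := Polynomial.eval₂_X _ _
theorem ev3_C (a : Polynomial A1) : ev3 K (Polynomial.C a) = ev2 K a := Polynomial.eval₂_C _ _
theorem ev3_X : ev3 K Polynomial.X = cy K / cz K - (cx K / cz K) ^ 3 := Polynomial.eval₂_X _ _
theorem rho_C (c : C3) : rho K (MvPolynomial.C c) = ev3 K c := MvPolynomial.eval₂Hom_C _ _ _
theorem rho_X (j : Jx) : rho K (MvPolynomial.X j) = jv K j := MvPolynomial.eval₂Hom_X' _ _ _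
theorem jv_z : jv K (Sum.inl 0) = cz K := rfl
theorem jv_w : jv K (Sum.inl 1) = cw0 K := rfl
theorem jv_o (o : Ox) : jv K (Sum.inr o) = cv K (Sum.inr o : Ix) := rfl

theorem kap_X' (k : Ix) : kap (MvPolynomial.X k) =
    MvPolynomial.C (tay (pk k)) * MvPolynomial.X (jk k) := by
  rw [kap_X, MvPolynomial.C_mul_X_eq_monomial]

theorem kap_z : kap (MvPolynomial.X (ia 0)) = MvPolynomial.X (Sum.inl 0) := by
  rw [kap_X']
  change MvPolynomial.C (tay 1) * MvPolynomial.X (Sum.inl 0) = _
  rw [tay_one, MvPolynomial.C_1, one_mul]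

theorem kap_x : kap (MvPolynomial.X (ia 1)) =
    (MvPolynomial.C (Polynomial.C Polynomial.X : C3) : SS) * MvPolynomial.X (Sum.inl 0) := by
  rw [kap_X']
  change (MvPolynomial.C (tay (Polynomial.C Polynomial.X : C3)) : SS) *
    MvPolynomial.X (Sum.inl 0) = _
  rw [tay_C]

theorem kap_y : kap (MvPolynomial.X (ia 2)) =
    (MvPolynomial.C (Polynomial.X + Polynomial.C (Polynomial.X ^ 3) : C3) : SS) *
      MvPolynomial.X (Sum.inl 0) := by
  rw [kap_X']
  change (MvPolynomial.C (tay (Polynomial.X : C3)) : SS) * MvPolynomial.X (Sum.inl 0) = _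
  rw [tay_X]

theorem kap_w0 : kap (MvPolynomial.X (ia 3)) = MvPolynomial.X (Sum.inl 1) := by
  rw [kap_X']
  change MvPolynomial.C (tay 1) * MvPolynomial.X (Sum.inl 1) = _
  rw [tay_one, MvPolynomial.C_1, one_mul]

theorem kap_w1 : kap (MvPolynomial.X (ia 4)) =
    MvPolynomial.C (Polynomial.C (Polynomial.C pU)) * MvPolynomial.X (Sum.inl 1) := by
  rw [kap_X']
  change MvPolynomial.C (tay (Polynomial.C (Polynomial.C pU))) * MvPolynomial.X (Sum.inl 1) = _
  rw [tay_C]

theorem kap_o (o : Ox) : kap (MvPolynomial.X (Sum.inr o)) = MvPolynomial.X (Sum.inr o) := by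
  rw [kap_X']
  change MvPolynomial.C (tay 1) * MvPolynomial.X (Sum.inr o) = _
  rw [tay_one, MvPolynomial.C_1, one_mul]

theorem kap_C (a : ℂ) : kap (MvPolynomial.C a) = MvPolynomial.C (Polynomial.C (Polynomial.C
    (Polynomial.C a))) := by
  rw [← MvPolynomial.algebraMap_eq, AlgHom.commutes]
  rfl

theorem rho_kap (q : MvPolynomial Ix ℂ) : rho K (kap q) = jo Ix K q := by
  have hz : cz K ≠ 0 := cv_ne _
  have hw : cw0 K ≠ 0 := cv_ne _
  have h : (rho K).comp (kap : MvPolynomial Ix ℂ →+* SS) = (jo Ix K : MvPolynomial Ix ℂ →+* K) := by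
    apply MvPolynomial.ringHom_ext'
    · apply RingHom.ext
      intro a
      change rho K (kap (MvPolynomial.C a)) = jo Ix K (MvPolynomial.C a)
      rw [kap_C, rho_C, ev3_C, ev2_C, ev1_C, jo_C]
    · intro k
      change rho K (kap (MvPolynomial.X k)) = cv K k
      rcases k with a | o
      · fin_cases a
        · change rho K (kap (MvPolynomial.X (ia 0))) = cz K
          rw [kap_z, rho_X, jv_z]
        · change rho K (kap (MvPolynomial.X (ia 1))) = cx K
          rw [kap_x, map_mul, rho_C, rho_X, ev3_C, ev2_X, jv_z, div_mul_cancel₀ _ hz]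
        · change rho K (kap (MvPolynomial.X (ia 2))) = cy K
          rw [kap_y, map_mul, rho_C, rho_X, map_add, ev3_X, ev3_C, map_pow, ev2_X, jv_z,
            sub_add_cancel, div_mul_cancel₀ _ hz]
        · change rho K (kap (MvPolynomial.X (ia 3))) = cw0 K
          rw [kap_w0, rho_X, jv_w]
        · change rho K (kap (MvPolynomial.X (ia 4))) = cw1 K
          rw [kap_w1, map_mul, rho_C, rho_X, ev3_C, ev2_C, ev1_X, jv_w, div_mul_cancel₀ _ hw]
      · rw [kap_o, rho_X]
        rfl
  exact DFunLike.congr_fun h q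

theorem kap_inj : Function.Injective kap := by
  intro a b h
  have h1 := rho_kap (K := FractionRing (MvPolynomial Ix ℂ)) a
  rw [h, rho_kap] at h1
  exact jo_inj h1.symm

section L

variable (K) {L : Type} [Field L] [Algebra ℂ L] [Algebra (Polynomial SS) L]
  [IsFractionRing (Polynomial SS) L] [IsScalarTower ℂ (Polynomial SS) L]

variable (L) in
/-- The embedding of the field defining the auxiliary valuation. -/
noncomputable def phi (M : ℕ) : K →+* L :=
  IsFractionRing.lift (A := MvPolynomial Ix ℂ)
    (g := ((algebraMap (Polynomial SS) L).comp (thW M)).comp (kap : MvPolynomial Ix ℂ →+* SS))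
    (((IsFractionRing.injective (Polynomial SS) L).comp (thW_inj M)).comp kap_inj)

variable {K}

theorem phi_jo (M : ℕ) (q : MvPolynomial Ix ℂ) :
    phi K L M (jo Ix K q) = algebraMap (Polynomial SS) L (thW M (kap q)) := by
  rw [phi, jo_apply]
  exact IsFractionRing.lift_algebraMap _ _

theorem phi_rho_aux (M : ℕ) {s : SS} {q q' : MvPolynomial Ix ℂ} (h : kap q = s * kap q')
    (hq' : q' ≠ 0) : phi K L M (rho K s) = algebraMap (Polynomial SS) L (thW M s) := by
  have h1 := phi_jo (K := K) (L := L) M q
  rw [← rho_kap, h, map_mul, map_mul, map_mul, map_mul, rho_kap q', phi_jo M q'] at h1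
  refine mul_right_cancel₀ ?_ h1
  rw [Ne, map_eq_zero_iff _ (IsFractionRing.injective (Polynomial SS) L),
    map_eq_zero_iff _ (thW_inj M), map_eq_zero_iff _ kap_inj]
  exact hq'

theorem phi_rho_add (M : ℕ) {s t : SS}
    (hs : phi K L M (rho K s) = algebraMap (Polynomial SS) L (thW M s))
    (ht : phi K L M (rho K t) = algebraMap (Polynomial SS) L (thW M t)) :
    phi K L M (rho K (s + t)) = algebraMap (Polynomial SS) L (thW M (s + t)) := by
  rw [map_add, map_add, map_add, map_add, hs, ht]

theorem phi_rho_mul (M : ℕ) {s t : SS}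
    (hs : phi K L M (rho K s) = algebraMap (Polynomial SS) L (thW M s))
    (ht : phi K L M (rho K t) = algebraMap (Polynomial SS) L (thW M t)) :
    phi K L M (rho K (s * t)) = algebraMap (Polynomial SS) L (thW M (s * t)) := by
  rw [map_mul, map_mul, map_mul, map_mul, hs, ht]

theorem phi_rho_C0 (M : ℕ) (a : A1) :
    phi K L M (rho K (MvPolynomial.C (Polynomial.C (Polynomial.C a)))) =
      algebraMap (Polynomial SS) L (thW M (MvPolynomial.C (Polynomial.C (Polynomial.C a)))) := by
  induction a using Polynomial.induction_on with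
  | C a =>
    exact phi_rho_aux M (q := MvPolynomial.C a) (q' := 1)
      (by rw [kap_C, map_one, mul_one]) one_ne_zero
  | add p q hp hq =>
    rw [map_add, map_add, map_add]
    exact phi_rho_add M hp hq
  | monomial n a h =>
    have h1 : (Polynomial.C a * Polynomial.X ^ (n + 1) : A1) =
        (Polynomial.C a * Polynomial.X ^ n) * pU := by rw [pow_succ, mul_assoc]
    rw [h1, map_mul Polynomial.C _ pU, map_mul Polynomial.C _ (Polynomial.C pU),
      map_mul MvPolynomial.C]
    refine phi_rho_mul M h ?_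
    exact phi_rho_aux M (q := MvPolynomial.X (ia 4)) (q' := MvPolynomial.X (ia 3))
      (by rw [kap_w1, kap_w0]) (MvPolynomial.X_ne_zero _)

theorem phi_rho_x (M : ℕ) :
    phi K L M (rho K (MvPolynomial.C (Polynomial.C Polynomial.X))) =
      algebraMap (Polynomial SS) L (thW M (MvPolynomial.C (Polynomial.C Polynomial.X))) :=
  phi_rho_aux M (q := MvPolynomial.X (ia 1)) (q' := MvPolynomial.X (ia 0))
    (by rw [kap_x, kap_z]) (MvPolynomial.X_ne_zero _)

theorem phi_rho_C1 (M : ℕ) (a : Polynomial A1) :
    phi K L M (rho K (MvPolynomial.C (Polynomial.C a))) =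
      algebraMap (Polynomial SS) L (thW M (MvPolynomial.C (Polynomial.C a))) := by
  induction a using Polynomial.induction_on with
  | C a => exact phi_rho_C0 M a
  | add p q hp hq =>
    rw [map_add, map_add]
    exact phi_rho_add M hp hq
  | monomial n a h =>
    have h1 : (Polynomial.C a * Polynomial.X ^ (n + 1) : Polynomial A1) =
        (Polynomial.C a * Polynomial.X ^ n) * Polynomial.X := by rw [pow_succ, mul_assoc]
    rw [h1, map_mul Polynomial.C _ Polynomial.X, map_mul MvPolynomial.C]
    exact phi_rho_mul M h (phi_rho_x M)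

theorem phi_rho_y (M : ℕ) :
    phi K L M (rho K (MvPolynomial.C Polynomial.X)) =
      algebraMap (Polynomial SS) L (thW M (MvPolynomial.C Polynomial.X)) := by
  have h2 : phi K L M (rho K (MvPolynomial.C (Polynomial.X + Polynomial.C (Polynomial.X ^ 3)))) =
      algebraMap (Polynomial SS) L
        (thW M (MvPolynomial.C (Polynomial.X + Polynomial.C (Polynomial.X ^ 3)))) :=
    phi_rho_aux M (q := MvPolynomial.X (ia 2)) (q' := MvPolynomial.X (ia 0))
      (by rw [kap_y, kap_z]) (MvPolynomial.X_ne_zero _)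
  rw [map_add MvPolynomial.C, map_add (rho K), map_add (thW M), map_add (phi K L M),
    map_add (algebraMap (Polynomial SS) L), phi_rho_C1] at h2
  exact add_right_cancel h2

theorem phi_rho_C2 (M : ℕ) (a : C3) :
    phi K L M (rho K (MvPolynomial.C a)) =
      algebraMap (Polynomial SS) L (thW M (MvPolynomial.C a)) := by
  induction a using Polynomial.induction_on with
  | C a => exact phi_rho_C1 M a
  | add p q hp hq =>
    rw [map_add]
    exact phi_rho_add M hp hq
  | monomial n a h =>
    have h1 : (Polynomial.C a * Polynomial.X ^ (n + 1) : C3) =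
        (Polynomial.C a * Polynomial.X ^ n) * Polynomial.X := by rw [pow_succ, mul_assoc]
    rw [h1, map_mul MvPolynomial.C]
    exact phi_rho_mul M h (phi_rho_y M)

theorem phi_rho_X (M : ℕ) (j : Jx) :
    phi K L M (rho K (MvPolynomial.X j)) =
      algebraMap (Polynomial SS) L (thW M (MvPolynomial.X j)) := by
  rcases j with a | o
  · fin_cases a
    · exact phi_rho_aux M (s := MvPolynomial.X (Sum.inl 0)) (q := MvPolynomial.X (ia 0))
        (q' := 1) (by rw [kap_z, map_one, mul_one]) one_ne_zero
    · exact phi_rho_aux M (s := MvPolynomial.X (Sum.inl 1)) (q := MvPolynomial.X (ia 3))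
        (q' := 1) (by rw [kap_w0, map_one, mul_one]) one_ne_zero
  · exact phi_rho_aux M (s := MvPolynomial.X (Sum.inr o)) (q := MvPolynomial.X (Sum.inr o))
      (q' := 1) (by rw [kap_o, map_one, mul_one]) one_ne_zero

theorem phi_rho (M : ℕ) (s : SS) :
    phi K L M (rho K s) = algebraMap (Polynomial SS) L (thW M s) := by
  induction s using MvPolynomial.induction_on with
  | C a => exact phi_rho_C2 M a
  | add p q hp hq => exact phi_rho_add M hp hq
  | mul_X p j hp => exact phi_rho_mul M hp (phi_rho_X M j)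

end L

theorem rho_inj : Function.Injective (rho K) := by
  intro a b h
  have h1 := phi_rho (K := K) (L := FractionRing (Polynomial SS)) 1 a
  rw [h, phi_rho] at h1
  exact (thW_inj 1 (IsFractionRing.injective (Polynomial SS) _ h1)).symm

end Pool.Agent.W497.Mld
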