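import Mathlib
import Pool.Agent.W497.Mld.Kap2

/-!
# The valuation algebra is not finitely generated
-/

set_option autoImplicit false
set_option linter.unusedSectionVars false
set_option maxSynthPendingDepth 4

namespace Pool.Agent.W497.Mld

open Pool.Agent.H436R3.Fol

variable {K : Type} [Field K] [Algebra ℂ K]
  [Algebra (MvPolynomial Ix ℂ) K] [IsFractionRing (MvPolynomial Ix ℂ) K]
  [IsScalarTower ℂ (MvPolynomial Ix ℂ) K]

theorem pT_eq : (pT : Polynomial A1) =
    Polynomial.X ^ 9 - Polynomial.X ^ 8 - Polynomial.C pU := rfl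

/-- Clearing denominators. -/
theorem exists_rho_uu (k : Ix) : ∃ (M : ℕ) (s : SS), InI M s ∧ cz K ^ M * uu K k = rho K s := by
  have hz : cz K ≠ 0 := cv_ne _
  have hw : cw0 K ≠ 0 := cv_ne _
  rcases k with a | o
  · fin_cases a
    · refine ⟨0, MvPolynomial.X (Sum.inl 0), inI_zero _, ?_⟩
      rw [rho_X, jv_z, pow_zero, one_mul]
      rfl
    · refine ⟨0, MvPolynomial.C (Polynomial.C Polynomial.X), inI_zero _, ?_⟩
      rw [rho_C, ev3_C, ev2_X, pow_zero, one_mul]
      rfl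
    · refine ⟨1, MvPolynomial.C Polynomial.X, inI_C _ (by rw [Polynomial.coeff_X_zero]; exact dvd_zero _), ?_⟩
      change cz K ^ 1 * uu K (ia 2) = _
      rw [rho_C, ev3_X, pow_one, uu_y, mul_div_cancel₀ _ hz]
    · refine ⟨1, MvPolynomial.X (Sum.inl 1), inI_X _, ?_⟩
      change cz K ^ 1 * uu K (ia 3) = _
      rw [rho_X, jv_w, pow_one, uu_w0, mul_div_cancel₀ _ hz]
    · refine ⟨1, MvPolynomial.C (Polynomial.C (-pT)), inI_C _ ?_, ?_⟩
      · rw [Polynomial.coeff_C_zero]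
        exact (dvd_neg.2 (dvd_refl _))
      · change cz K ^ 1 * uu K (ia 4) = _
        rw [rho_C, ev3_C, pow_one, uu_w1, mul_div_cancel₀ _ hz, pT_eq, map_neg, map_sub, map_sub,
          map_pow, map_pow, ev2_X, ev2_C, ev1_X]
        ring
  · refine ⟨1, MvPolynomial.X (Sum.inr o), inI_X _, ?_⟩
    rw [rho_X, jv_o, pow_one, uu_o, mul_div_cancel₀ _ hz]

theorem exists_rho (P : MvPolynomial Ix ℂ) : ∃ (M : ℕ) (s : SS), InI M s ∧
    cz K ^ M * MvPolynomial.aeval (uu K) P = rho K s := by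
  induction P using MvPolynomial.induction_on with
  | C a =>
    refine ⟨0, MvPolynomial.C (Polynomial.C (Polynomial.C (Polynomial.C a))), inI_zero _, ?_⟩
    rw [rho_C, ev3_C, ev2_C, ev1_C, pow_zero, one_mul, ← MvPolynomial.algebraMap_eq,
      AlgHom.commutes]
  | add p q hp hq =>
    obtain ⟨M, s, hs, h1⟩ := hp
    obtain ⟨M', t, ht, h2⟩ := hq
    refine ⟨M + M', MvPolynomial.X (Sum.inl 0) ^ M' * s + MvPolynomial.X (Sum.inl 0) ^ M * t,
      InI.add ?_ ?_, ?_⟩
    · rw [add_comm M]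
      exact (inI_X_pow _ _).mul hs
    · exact (inI_X_pow _ _).mul ht
    · rw [map_add, map_add, map_mul, map_mul, map_pow, map_pow, rho_X, jv_z, ← h1, ← h2]
      ring
  | mul_X p j hp =>
    obtain ⟨M, s, hs, h1⟩ := hp
    obtain ⟨M', t, ht, h2⟩ := exists_rho_uu (K := K) j
    refine ⟨M + M', s * t, hs.mul ht, ?_⟩
    rw [map_mul, map_mul, MvPolynomial.aeval_X, ← h1, ← h2]
    ring

/-- The order along the divisor bounds the filtration. -/
theorem inI_of_ord {h : MvPolynomial Ix ℂ} (h0 : h ≠ 0) {N : ℕ}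
    (hN : (N : ℤ) ≤ (vv0 K).ord (jo Ix K h)) : InI N (kap h) := by
  rw [vv0_dvd h0] at hN
  obtain ⟨P, hP⟩ := hN
  obtain ⟨M, s, hs, h1⟩ := exists_rho (K := K) P
  have h2 : jo Ix K h = cz K ^ N * MvPolynomial.aeval (uu K) P := by
    have h3 : jo Ix K h = MvPolynomial.aeval (uu K) (MvPolynomial.aeval al h) := by
      rw [← psi_jo, ← the_jo]
      exact (DFunLike.congr_fun (psi_the (K := K)) (jo Ix K h)).symm
    rw [h3, hP, map_mul, map_pow, MvPolynomial.aeval_X, uu_z]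
  have h4 : (MvPolynomial.X (Sum.inl 0) : SS) ^ M * kap h =
      MvPolynomial.X (Sum.inl 0) ^ N * s := by
    apply rho_inj (K := K)
    rw [map_mul, map_mul, map_pow, map_pow, rho_X, jv_z, rho_kap, h2, ← h1]
    ring
  apply InI.of_X_pow_mul (M := M) (j := Sum.inl 0)
  rw [h4]
  exact (inI_X_pow _ _).mul hs

section L

variable {L : Type} [Field L] [Algebra ℂ L] [Algebra (Polynomial SS) L]
  [IsFractionRing (Polynomial SS) L] [IsScalarTower ℂ (Polynomial SS) L]

variable (L) in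
/-- The auxiliary valuation. -/
noncomputable def wL : DVal L := valP L (Polynomial.X : Polynomial SS) Polynomial.prime_X

theorem wL_ge {q : Polynomial SS} (hq : q ≠ 0) {n : ℕ} (h : Polynomial.X ^ n ∣ q) :
    (n : ℤ) ≤ (wL L).ord (algebraMap (Polynomial SS) L q) := by
  have h1 : (wL L).ord (algebraMap (Polynomial SS) L q) = (multiplicity Polynomial.X q : ℤ) :=
    valP_ord Polynomial.prime_X hq
  rw [h1, Nat.cast_le]
  exact (finMult Polynomial.prime_X hq).le_multiplicity_of_pow_dvd h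

theorem wL_eq_zero {q : Polynomial SS} (h : q.coeff 0 ≠ 0) :
    (wL L).ord (algebraMap (Polynomial SS) L q) = 0 := by
  have hq : q ≠ 0 := by
    rintro rfl
    exact h (Polynomial.coeff_zero 0)
  have h1 : (wL L).ord (algebraMap (Polynomial SS) L q) = (multiplicity Polynomial.X q : ℤ) :=
    valP_ord Polynomial.prime_X hq
  rw [h1, multiplicity_eq_zero.2]
  · rfl
  · rw [Polynomial.X_dvd_iff]
    exact h

theorem wL_X : (wL L).ord (algebraMap (Polynomial SS) L Polynomial.X) = 1 := by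
  have h1 : (wL L).ord (algebraMap (Polynomial SS) L Polynomial.X) =
      (multiplicity (Polynomial.X : Polynomial SS) Polynomial.X : ℤ) :=
    valP_ord Polynomial.prime_X Polynomial.X_ne_zero
  rw [h1, multiplicity_self]
  rfl

theorem alg_ne {q : Polynomial SS} (hq : q ≠ 0) : algebraMap (Polynomial SS) L q ≠ 0 :=
  (map_ne_zero_iff _ (IsFractionRing.injective (Polynomial SS) L)).2 hq

theorem phi_reg (M : ℕ) (q : MvPolynomial Ix ℂ) : (wL L).Reg (phi K L M (jo Ix K q)) := by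
  rw [phi_jo]
  exact valP_reg Polynomial.prime_X _

/-- The lower bound. -/
theorem phi_lower {M N : ℕ} (hM : 4 * N + 1 ≤ M) {h : MvPolynomial Ix ℂ} (h0 : h ≠ 0)
    (hN : (N : ℤ) ≤ (vv0 K).ord (jo Ix K h)) :
    (((3 * M + 1) * N : ℕ) : ℤ) ≤ (wL L).ord (phi K L M (jo Ix K h)) := by
  rw [phi_jo]
  refine wL_ge ?_ (lower_W hM (good_kap h) (inI_of_ord h0 hN))
  rw [Ne, map_eq_zero_iff _ (thW_inj M), map_eq_zero_iff _ kap_inj]
  exact h0

theorem wL_pow (a : ℕ) (j : Jx) : (wL L).ord (algebraMap (Polynomial SS) L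
    (Polynomial.X ^ a * Polynomial.C (MvPolynomial.X j))) = a := by
  have h1 : (Polynomial.C (MvPolynomial.X j : SS)) ≠ 0 := by
    rw [Ne, Polynomial.C_eq_zero]
    exact MvPolynomial.X_ne_zero j
  rw [map_mul, DVal.map_mul _ _ _ (alg_ne (pow_ne_zero _ Polynomial.X_ne_zero)) (alg_ne h1),
    map_pow, DVal.ord_pow _ (alg_ne Polynomial.X_ne_zero), wL_X, wL_eq_zero]
  · ring
  · rw [Polynomial.coeff_C_zero]
    exact MvPolynomial.X_ne_zero j

theorem phi_z (M : ℕ) : (wL L).ord (phi K L M (cz K)) = 4 * M := by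
  have h1 : phi K L M (cz K) = algebraMap (Polynomial SS) L
      (Polynomial.X ^ wt M (Sum.inl 0) * Polynomial.C (MvPolynomial.X (Sum.inl 0))) := by
    rw [← thW_X, ← kap_z, ← phi_jo (K := K)]
    rfl
  rw [h1, wL_pow]
  have : wt M (Sum.inl 0) = 4 * M := rfl
  rw [this]
  push_cast
  ring

theorem phi_w (M : ℕ) : (wL L).ord (phi K L M (cw0 K)) = 3 * M + 1 := by
  have h1 : phi K L M (cw0 K) = algebraMap (Polynomial SS) L
      (Polynomial.X ^ wt M (Sum.inl 1) * Polynomial.C (MvPolynomial.X (Sum.inl 1))) := by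
    rw [← thW_X, ← kap_w0, ← phi_jo (K := K)]
    rfl
  rw [h1, wL_pow]
  have : wt M (Sum.inl 1) = 3 * M + 1 := rfl
  rw [this]
  push_cast
  ring

theorem th3_coeff_zero {M : ℕ} (hM : 1 ≤ M) (c : C3) :
    (th3 M c).coeff 0 = MvPolynomial.C (Polynomial.C (c.coeff 0)) := by
  have h1 : th3 M c = ∑ l ∈ Finset.range (c.natDegree + 1),
      bs (c.coeff l) * (Polynomial.X ^ M *
        Polynomial.C (MvPolynomial.C Polynomial.X)) ^ l := by
    rw [th3, Polynomial.coe_eval₂RingHom, Polynomial.eval₂_eq_sum_range]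
  rw [h1, Polynomial.finsetSum_coeff, Finset.sum_eq_single 0]
  · rw [pow_zero, mul_one]
    exact Polynomial.coeff_C_zero
  · intro l _ hl
    rw [Polynomial.mul_coeff_zero, mul_pow, Polynomial.mul_coeff_zero, ← pow_mul,
      Polynomial.coeff_X_pow, if_neg, zero_mul, mul_zero]
    have : 0 < M * l := Nat.mul_pos hM (Nat.pos_of_ne_zero hl)
    omega
  · intro h
    exact absurd (Finset.mem_range.2 (Nat.succ_pos _)) h

theorem phi_ev3 {M : ℕ} (hM : 1 ≤ M) {c : C3} (hc : c.coeff 0 ≠ 0) :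
    (wL L).ord (phi K L M (ev3 K c)) = 0 := by
  rw [← rho_C, phi_rho, thW_C]
  apply wL_eq_zero
  rw [th3_coeff_zero hM, Ne, map_eq_zero_iff _ (MvPolynomial.C_injective _ _),
    Polynomial.C_eq_zero]
  exact hc

end L

section ge

variable (v : DVal K)

/-- Elements of order at least `n`. -/
def Ge (n : ℕ) (f : K) : Prop := f = 0 ∨ (n : ℤ) ≤ v.ord f

theorem Ge.add {n : ℕ} {f g : K} (hf : Ge v n f) (hg : Ge v n g) : Ge v n (f + g) := by
  by_cases h1 : f = 0
  · rwa [h1, zero_add]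
  by_cases h2 : g = 0
  · rwa [h2, add_zero]
  by_cases h3 : f + g = 0
  · exact Or.inl h3
  exact Or.inr (le_trans (le_min (hf.resolve_left h1) (hg.resolve_left h2)) (v.map_add f g h1 h2 h3))

theorem Ge.mul {n m : ℕ} {f g : K} (hf : Ge v n f) (hg : Ge v m g) : Ge v (n + m) (f * g) := by
  by_cases h1 : f = 0
  · left; rw [h1, zero_mul]
  by_cases h2 : g = 0
  · left; rw [h2, mul_zero]
  right
  rw [v.map_mul f g h1 h2]
  have := hf.resolve_left h1
  have := hg.resolve_left h2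
  push_cast
  omega

theorem Ge.pow {n : ℕ} {f : K} (hf : Ge v n f) (m : ℕ) : Ge v (m * n) (f ^ m) := by
  induction m with
  | zero =>
    rw [pow_zero, Nat.zero_mul]
    exact Or.inr (by rw [v.ord_one]; rfl)
  | succ m ih =>
    rw [pow_succ, Nat.succ_mul]
    exact ih.mul v hf

theorem Ge.mono {n m : ℕ} {f : K} (hf : Ge v n f) (h : m ≤ n) : Ge v m f :=
  hf.imp id fun h1 => le_trans (by exact_mod_cast h) h1

theorem Ge.sum {ι : Type} (s : Finset ι) {f : ι → K} {n : ℕ} (hf : ∀ i ∈ s, Ge v n (f i)) :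
    Ge v n (∑ i ∈ s, f i) := by
  classical
  induction s using Finset.induction_on with
  | empty => exact Or.inl Finset.sum_empty
  | insert a s ha ih =>
    rw [Finset.sum_insert ha]
    exact Ge.add v (hf a (Finset.mem_insert_self _ _))
      (ih fun i hi => hf i (Finset.mem_insert_of_mem hi))

theorem ge_zero_iff {f : K} : Ge v 0 f ↔ v.Reg f := by
  rw [Ge, DVal.Reg]
  rfl

end ge

theorem ge_z_uu (k : Ix) : Ge (vv0 K) 1 (cz K * uu K k) := by
  have h1 : Ge (vv0 K) 1 (cz K) := Or.inr (by rw [vv0_z]; rfl)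
  have h2 : Ge (vv0 K) 0 (uu K k) := (ge_zero_iff _).2 (vv0_reg_uu k)
  exact h1.mul _ h2

theorem ev_T : ev2 K pT = -(cz K * uu K (ia 4)) := by
  have hz : cz K ≠ 0 := cv_ne _
  rw [pT_eq, map_sub, map_sub, map_pow, map_pow, ev2_X, ev2_C, ev1_X, uu_w1, mul_div_cancel₀ _ hz]
  ring

theorem ge_T : Ge (vv0 K) 1 (ev2 K pT) := by
  rw [ev_T]
  have h1 : -(cz K * uu K (ia 4)) = (-1) * (cz K * uu K (ia 4)) := by ring
  rw [h1]
  have h2 : Ge (vv0 K) 0 (-1 : K) := (ge_zero_iff _).2 ((vv0 K).reg_neg (vv0 K).reg_one)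
  have := h2.mul _ (ge_z_uu (K := K) (ia 4))
  rwa [zero_add] at this

theorem reg_ev2 (a : Polynomial A1) : (vv0 K).Reg (ev2 K a) := by
  have hX : (vv0 K).Reg (cx K / cz K) := vv0_reg_uu (ia 1)
  have hU : (vv0 K).Reg (cw1 K / cw0 K) := by
    have hz : cz K ≠ 0 := cv_ne _
    have h1 : cw1 K / cw0 K = cz K * uu K (ia 4) + ((cx K / cz K) ^ 9 - (cx K / cz K) ^ 8) := by
      rw [uu_w1, mul_div_cancel₀ _ hz]
      ring
    rw [h1]
    have hXO : cx K / cz K ∈ (vv0 K).O := hX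
    have h2 : cz K * uu K (ia 4) ∈ (vv0 K).O :=
      (ge_zero_iff _).1 ((ge_z_uu (K := K) (ia 4)).mono _ (Nat.zero_le _))
    exact add_mem h2 (sub_mem (pow_mem hXO 9) (pow_mem hXO 8))
  have h1 : ∀ b : A1, ev1 K b ∈ (vv0 K).O := by
    intro b
    induction b using Polynomial.induction_on with
    | C a => rw [ev1_C]; exact (vv0 K).reg_const a
    | add p q hp hq => rw [map_add]; exact add_mem hp hq
    | monomial n a h =>
      rw [pow_succ, ← mul_assoc, map_mul (ev1 K) _ Polynomial.X]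
      refine mul_mem h ?_
      have : ev1 K Polynomial.X = cw1 K / cw0 K := ev1_X
      rw [this]
      exact hU
  change ev2 K a ∈ (vv0 K).O
  induction a using Polynomial.induction_on with
  | C a => rw [ev2_C]; exact h1 a
  | add p q hp hq => rw [map_add]; exact add_mem hp hq
  | monomial n a h =>
    rw [pow_succ, ← mul_assoc, map_mul (ev2 K) _ Polynomial.X]
    refine mul_mem h ?_
    rw [ev2_X]
    exact hX

theorem ge_ev3 {k : ℕ} {c : C3} (h : ∀ l < k, pT ^ (k - l) ∣ c.coeff l) :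
    Ge (vv0 K) k (ev3 K c) := by
  have hz : cz K ≠ 0 := cv_ne _
  have h1 : ev3 K c = ∑ l ∈ Finset.range (c.natDegree + 1),
      ev2 K (c.coeff l) * (cz K * uu K (ia 2)) ^ l := by
    rw [ev3, Polynomial.coe_eval₂RingHom, Polynomial.eval₂_eq_sum_range, uu_y,
      mul_div_cancel₀ _ hz]
  rw [h1]
  refine Ge.sum _ _ fun l _ => ?_
  have h2 : Ge (vv0 K) (l * 1) ((cz K * uu K (ia 2)) ^ l) := (ge_z_uu (ia 2)).pow _ l
  by_cases hl : l < k
  · obtain ⟨d, hd⟩ := h l hl
    rw [hd, map_mul, map_pow]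
    have h3 : Ge (vv0 K) ((k - l) * 1) (ev2 K pT ^ (k - l)) := ge_T.pow _ _
    have h4 : Ge (vv0 K) 0 (ev2 K d) := (ge_zero_iff _).2 (reg_ev2 d)
    exact ((h3.mul _ h4).mul _ h2).mono _ (by omega)
  · have h4 : Ge (vv0 K) 0 (ev2 K (c.coeff l)) := (ge_zero_iff _).2 (reg_ev2 _)
    exact (h4.mul _ h2).mono _ (by omega)

/-- Elements that become polynomials after multiplication. -/
def Cl (n : ℕ) (f : K) : Prop := ∃ D : ℕ, ∀ E, D ≤ E →
  ∃ h : MvPolynomial Ix ℂ, jo Ix K h = cz K ^ n * cw0 K ^ E * f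

theorem Cl.add {n : ℕ} {f g : K} (hf : Cl n f) (hg : Cl n g) : Cl n (f + g) := by
  obtain ⟨D, hD⟩ := hf
  obtain ⟨D', hD'⟩ := hg
  refine ⟨max D D', fun E hE => ?_⟩
  obtain ⟨h1, e1⟩ := hD E ((le_max_left _ _).trans hE)
  obtain ⟨h2, e2⟩ := hD' E ((le_max_right _ _).trans hE)
  exact ⟨h1 + h2, by rw [map_add, e1, e2]; ring⟩

theorem Cl.zero (n : ℕ) : Cl n (0 : K) := ⟨0, fun E _ => ⟨0, by rw [map_zero, mul_zero]⟩⟩

theorem Cl.sum {n : ℕ} {ι : Type} (s : Finset ι) {f : ι → K} (hf : ∀ i ∈ s, Cl n (f i)) :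
    Cl n (∑ i ∈ s, f i) := by
  classical
  induction s using Finset.induction_on with
  | empty => rw [Finset.sum_empty]; exact Cl.zero n
  | insert a s ha ih =>
    rw [Finset.sum_insert ha]
    exact (hf a (Finset.mem_insert_self _ _)).add
      (ih fun i hi => hf i (Finset.mem_insert_of_mem hi))

theorem cl_ev1 (a : A1) : Cl 0 (ev1 K a) := by
  have hw : cw0 K ≠ 0 := cv_ne _
  induction a using Polynomial.induction_on' with
  | add p q hp hq => rw [map_add]; exact hp.add hq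
  | monomial n c =>
    refine ⟨n, fun E hE => ?_⟩
    obtain ⟨d, rfl⟩ := Nat.exists_eq_add_of_le hE
    refine ⟨MvPolynomial.C c * MvPolynomial.X (ia 4) ^ n * MvPolynomial.X (ia 3) ^ d, ?_⟩
    have h1 : ev1 K (Polynomial.monomial n c) = algebraMap ℂ K c * (cw1 K / cw0 K) ^ n := by
      rw [ev1, Polynomial.coe_eval₂RingHom, Polynomial.eval₂_monomial]
    have h2 : jo Ix K (MvPolynomial.C c * MvPolynomial.X (ia 4) ^ n *
        MvPolynomial.X (ia 3) ^ d) = algebraMap ℂ K c * cw1 K ^ n * cw0 K ^ d := by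
      rw [map_mul, map_mul, map_pow, map_pow, jo_C]
      rfl
    rw [h1, h2, pow_zero, one_mul, pow_add, div_pow]
    field_simp

theorem cl_term {n l m : ℕ} (h : l + m ≤ n) (a : A1) :
    Cl n (ev1 K a * (cx K / cz K) ^ m * (cy K / cz K) ^ l) := by
  have hz : cz K ≠ 0 := cv_ne _
  obtain ⟨D, hD⟩ := cl_ev1 (K := K) a
  refine ⟨D, fun E hE => ?_⟩
  obtain ⟨q, hq⟩ := hD E hE
  obtain ⟨d, rfl⟩ := Nat.exists_eq_add_of_le h
  refine ⟨q * MvPolynomial.X (ia 1) ^ m * MvPolynomial.X (ia 2) ^ l *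
    MvPolynomial.X (ia 0) ^ d, ?_⟩
  have h2 : jo Ix K (q * MvPolynomial.X (ia 1) ^ m * MvPolynomial.X (ia 2) ^ l *
      MvPolynomial.X (ia 0) ^ d) = jo Ix K q * cx K ^ m * cy K ^ l * cz K ^ d := by
    rw [map_mul, map_mul, map_mul, map_pow, map_pow, map_pow]
    rfl
  rw [h2, hq, pow_zero, one_mul, pow_add, pow_add, div_pow, div_pow]
  field_simp

/-- The evaluation at `x / z`, `y / z`. -/
noncomputable def e3 (K : Type) [Field K] [Algebra ℂ K]
    [Algebra (MvPolynomial Ix ℂ) K] [IsFractionRing (MvPolynomial Ix ℂ) K]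
    [IsScalarTower ℂ (MvPolynomial Ix ℂ) K] : C3 →+* K :=
  Polynomial.eval₂RingHom (ev2 K) (cy K / cz K)

theorem ev3_tay (p : C3) : ev3 K (tay p) = e3 K p := by
  induction p using Polynomial.induction_on with
  | C a => rw [tay_C, ev3_C, e3, Polynomial.coe_eval₂RingHom, Polynomial.eval₂_C]
  | add p q hp hq => rw [tay_add, map_add, map_add, hp, hq]
  | monomial n a h =>
    rw [pow_succ, ← mul_assoc, tay_mul, map_mul, map_mul (e3 K), h, tay_X, map_add, ev3_X, ev3_C,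
      map_pow, ev2_X]
    have : e3 K Polynomial.X = cy K / cz K := Polynomial.eval₂_X _ _
    rw [this]
    ring

theorem cl_e3 {n : ℕ} {p : C3} (h : DegLt p (n + 1)) : Cl n (e3 K p) := by
  have h1 : e3 K p = ∑ l ∈ Finset.range (p.natDegree + 1),
      ev2 K (p.coeff l) * (cy K / cz K) ^ l := by
    rw [e3, Polynomial.coe_eval₂RingHom, Polynomial.eval₂_eq_sum_range]
  rw [h1]
  refine Cl.sum _ fun l _ => ?_
  have h2 : ev2 K (p.coeff l) = ∑ m ∈ Finset.range ((p.coeff l).natDegree + 1),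
      ev1 K ((p.coeff l).coeff m) * (cx K / cz K) ^ m := by
    rw [ev2, Polynomial.coe_eval₂RingHom, Polynomial.eval₂_eq_sum_range]
  rw [h2, Finset.sum_mul]
  refine Cl.sum _ fun m _ => ?_
  by_cases hlm : l + m ≤ n
  · exact cl_term hlm _
  · rw [h l m (by omega), map_zero, zero_mul, zero_mul]
    exact Cl.zero n

/-- Elements of the valuation ideals with small order along the auxiliary valuation. -/
theorem exists_small {L : Type} [Field L] [Algebra ℂ L] [Algebra (Polynomial SS) L]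
    [IsFractionRing (Polynomial SS) L] [IsScalarTower ℂ (Polynomial SS) L]
    {M : ℕ} (hM : 1 ≤ M) (k : ℕ) : ∃ D : ℕ, ∀ E, D ≤ E →
      ∃ h : MvPolynomial Ix ℂ, h ≠ 0 ∧ ((4 * k + 1 + E : ℕ) : ℤ) ≤ (vv0 K).ord (jo Ix K h) ∧
        (wL L).ord (phi K L M (jo Ix K h)) = 4 * M * (3 * k + 1) + (3 * M + 1) * E := by
  have hz : cz K ≠ 0 := cv_ne _
  have hw : cw0 K ≠ 0 := cv_ne _
  obtain ⟨p, hp, hp0, hpT⟩ := exists_pk pU k
  have hc0 : (tay p).coeff 0 ≠ 0 := by
    rw [hp0]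
    exact pow_ne_zero _ (TT_monic pU).ne_zero
  have he0 : ev3 K (tay p) ≠ 0 := by
    rw [← rho_C, Ne, map_eq_zero_iff _ rho_inj, map_eq_zero_iff _ (MvPolynomial.C_injective _ _)]
    intro h0
    rw [h0, Polynomial.coeff_zero] at hc0
    exact hc0 rfl
  obtain ⟨D, hD⟩ := cl_e3 (K := K) (n := 3 * k + 1) hp
  refine ⟨D, fun E hE => ?_⟩
  obtain ⟨h, hh⟩ := hD E hE
  rw [← ev3_tay] at hh
  have hne : jo Ix K h ≠ 0 := by
    rw [hh]
    exact mul_ne_zero (mul_ne_zero (pow_ne_zero _ hz) (pow_ne_zero _ hw)) he0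
  refine ⟨h, ?_, ?_, ?_⟩
  · rintro rfl
    exact hne (map_zero _)
  · rw [hh, DVal.map_mul _ _ _ (mul_ne_zero (pow_ne_zero _ hz) (pow_ne_zero _ hw)) he0,
      DVal.map_mul _ _ _ (pow_ne_zero _ hz) (pow_ne_zero _ hw), DVal.ord_pow _ hz,
      DVal.ord_pow _ hw, vv0_z, vv0_w0]
    have := (ge_ev3 (K := K) hpT).resolve_left he0
    push_cast
    linarith
  · have hz' : phi K L M (cz K) ≠ 0 := (map_ne_zero _).2 hz
    have hw' : phi K L M (cw0 K) ≠ 0 := (map_ne_zero _).2 hw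
    have he' : phi K L M (ev3 K (tay p)) ≠ 0 := (map_ne_zero _).2 he0
    rw [hh, map_mul, map_mul, map_pow, map_pow,
      DVal.map_mul _ _ _ (mul_ne_zero (pow_ne_zero _ hz') (pow_ne_zero _ hw')) he',
      DVal.map_mul _ _ _ (pow_ne_zero _ hz') (pow_ne_zero _ hw'), DVal.ord_pow _ hz',
      DVal.ord_pow _ hw', phi_z, phi_w, phi_ev3 hM hc0]
    push_cast
    ring

end Pool.Agent.W497.Mld
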