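import Mathlib
import Pool.Agent.W497.Mld.DC
import Pool.Agent.W497.Mld.Kap3

/-!
# A germ whose minimal log discrepancy is computed by no divisorial contraction
-/

set_option autoImplicit false
set_option linter.unusedSectionVars false
set_option maxSynthPendingDepth 4

namespace Pool.Agent.W497.Mld

open Pool.Agent.H436R3.Fol Pool.Agent.H436R3.KT

variable {K : Type} [Field K] [Algebra ℂ K]
  [Algebra (MvPolynomial Ix ℂ) K] [IsFractionRing (MvPolynomial Ix ℂ) K]
  [IsScalarTower ℂ (MvPolynomial Ix ℂ) K] (e : Fin 24 ≃ Ix)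

section origin

variable (K) in
/-- The evaluation at the origin. -/
noncomputable def orig' : (jo Ix K).range →ₐ[ℂ] ℂ :=
  (MvPolynomial.aeval (fun _ => (0 : ℂ)) : MvPolynomial Ix ℂ →ₐ[ℂ] ℂ).comp
    ((AlgEquiv.ofInjective (jo Ix K) jo_inj).symm : (jo Ix K).range →ₐ[ℂ] MvPolynomial Ix ℂ)

theorem orig'_jo (q : MvPolynomial Ix ℂ) (h : jo Ix K q ∈ (jo Ix K).range) :
    orig' K ⟨jo Ix K q, h⟩ = MvPolynomial.aeval (fun _ => (0 : ℂ)) q := by
  have h1 : (⟨jo Ix K q, h⟩ : (jo Ix K).range) = AlgEquiv.ofInjective (jo Ix K) jo_inj q := rfl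
  rw [orig', AlgHom.comp_apply, h1]
  congr 1
  exact AlgEquiv.symm_apply_apply _ _

/-- The origin. -/
noncomputable def orig : Pt (affVar K e) := orig' K

theorem orig_jo (q : MvPolynomial Ix ℂ) (h : jo Ix K q ∈ (affVar K e).R) :
    orig e ⟨jo Ix K q, h⟩ = MvPolynomial.aeval (fun _ => (0 : ℂ)) q := orig'_jo q h

theorem pos_sub {v : DVal K} (hc : ∀ k : Ix, 1 ≤ v.ord (cv K k)) (q : MvPolynomial Ix ℂ) :
    v.Pos (jo Ix K q - algebraMap ℂ K (MvPolynomial.aeval (fun _ => (0 : ℂ)) q)) := by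
  have hpos : ∀ k : Ix, v.Pos (cv K k) := fun k => Or.inr (by have := hc k; omega)
  have hreg : ∀ p : MvPolynomial Ix ℂ, v.Reg (jo Ix K p) := fun p =>
    reg_RA (fun k => Or.inr (by have := hc k; omega)) (jo_mem p)
  induction q using MvPolynomial.induction_on with
  | C a =>
    left
    rw [jo_C, ← MvPolynomial.algebraMap_eq, AlgHom.commutes]
    exact sub_self _
  | add p q hp hq =>
    rw [map_add, map_add, map_add]
    have h1 : jo Ix K p + jo Ix K q - (algebraMap ℂ K (MvPolynomial.aeval (fun _ => (0 : ℂ)) p) +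
        algebraMap ℂ K (MvPolynomial.aeval (fun _ => (0 : ℂ)) q)) =
        (jo Ix K p - algebraMap ℂ K (MvPolynomial.aeval (fun _ => (0 : ℂ)) p)) +
        (jo Ix K q - algebraMap ℂ K (MvPolynomial.aeval (fun _ => (0 : ℂ)) q)) := by ring
    rw [h1]
    exact v.pos_add hp hq
  | mul_X p j hp =>
    rw [map_mul, map_mul, MvPolynomial.aeval_X, mul_zero, map_zero, sub_zero]
    exact v.pos_mul_left (hreg p) (hpos j)

theorem pos_iff_orig {v : DVal K} (hc : ∀ k : Ix, 1 ≤ v.ord (cv K k)) (f : (affVar K e).R) :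
    v.Pos (f : K) ↔ orig e f = 0 := by
  obtain ⟨_, ⟨q, rfl⟩⟩ := f
  change v.Pos (jo Ix K q) ↔ orig e ⟨jo Ix K q, _⟩ = 0
  rw [orig_jo]
  have h := pos_sub hc q
  constructor
  · intro h1
    by_contra h2
    have h3 : v.Pos (algebraMap ℂ K (MvPolynomial.aeval (fun _ => (0 : ℂ)) q)) := by
      have h4 : algebraMap ℂ K (MvPolynomial.aeval (fun _ => (0 : ℂ)) q) = jo Ix K q +
          (-1) * (jo Ix K q - algebraMap ℂ K (MvPolynomial.aeval (fun _ => (0 : ℂ)) q)) := by ring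
      rw [h4]
      exact v.pos_add h1 (v.pos_mul_left (v.reg_neg v.reg_one) h)
    rcases h3 with h3 | h3
    · exact h2 ((map_eq_zero _).1 h3)
    · rw [v.const _ h2] at h3
      exact lt_irrefl _ h3
  · intro h1
    rwa [h1, map_zero, sub_zero] at h

theorem over_cv {v : DVal K} (hv : IsOverGerm (orig e) v) (k : Ix) : 1 ≤ v.ord (cv K k) := by
  have h1 : v.Pos (cv K k) := by
    refine (hv.2 ⟨cv K k, cv_mem k⟩).2 ?_
    have := orig_jo (K := K) e (MvPolynomial.X k) (jo_mem _)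
    rw [MvPolynomial.aeval_X] at this
    exact this
  have := h1.resolve_left (cv_ne k)
  omega

end origin

section nonext

theorem wt_pos {M : ℕ} (hM : 1 ≤ M) (j : Jx) : 0 < wt M j := by
  rcases j with a | o
  · fin_cases a
    · change 0 < 4 * M
      omega
    · change 0 < 3 * M + 1
      omega
  · change 0 < 3 * M + 1
    omega

theorem thW_kap_coeff_zero {M : ℕ} (hM : 1 ≤ M) (q : MvPolynomial Ix ℂ) :
    (thW M (kap q)).coeff 0 = MvPolynomial.C (Polynomial.C (Polynomial.C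
      (Polynomial.C (MvPolynomial.aeval (fun _ => (0 : ℂ)) q)))) := by
  induction q using MvPolynomial.induction_on with
  | C a =>
    rw [kap_C, thW_C, th3_C]
    have h1 : MvPolynomial.aeval (fun _ : Ix => (0 : ℂ)) (MvPolynomial.C a) = a := by
      rw [← MvPolynomial.algebraMap_eq, AlgHom.commutes]
      rfl
    rw [h1]
    exact Polynomial.coeff_C_zero
  | add p q hp hq =>
    rw [map_add, map_add, Polynomial.coeff_add, hp, hq, map_add, map_add, map_add, map_add, map_add]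
  | mul_X p j hp =>
    rw [map_mul, map_mul, Polynomial.mul_coeff_zero, kap_X', map_mul, Polynomial.mul_coeff_zero,
      thW_X, Polynomial.mul_coeff_zero, Polynomial.coeff_X_pow, if_neg (wt_pos hM _).ne, zero_mul,
      mul_zero, mul_zero, map_mul, MvPolynomial.aeval_X, mul_zero, map_zero, map_zero, map_zero,
      map_zero]

theorem phi_unit {L : Type} [Field L] [Algebra ℂ L] [Algebra (Polynomial SS) L]
    [IsFractionRing (Polynomial SS) L] [IsScalarTower ℂ (Polynomial SS) L] {M : ℕ} (hM : 1 ≤ M)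
    {g : MvPolynomial Ix ℂ} (hg : MvPolynomial.aeval (fun _ => (0 : ℂ)) g ≠ 0) :
    (wL L).ord (phi K L M (jo Ix K g)) = 0 := by
  rw [phi_jo]
  apply wL_eq_zero
  rw [thW_kap_coeff_zero hM, Ne, map_eq_zero_iff _ (MvPolynomial.C_injective _ _),
    Polynomial.C_eq_zero, Polynomial.C_eq_zero, Polynomial.C_eq_zero]
  exact hg

theorem vv0_unit {g : MvPolynomial Ix ℂ} (hg : MvPolynomial.aeval (fun _ => (0 : ℂ)) g ≠ 0) :
    (vv0 K).ord (jo Ix K g) = 0 := by
  have hg0 : g ≠ 0 := by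
    rintro rfl
    exact hg (map_zero _)
  have h1 : ¬ (vv0 K).Pos (jo Ix K g) := by
    intro h
    have h2 := pos_sub (vv0_cv (K := K)) g
    have h3 : (vv0 K).Pos (algebraMap ℂ K (MvPolynomial.aeval (fun _ => (0 : ℂ)) g)) := by
      have h4 : algebraMap ℂ K (MvPolynomial.aeval (fun _ => (0 : ℂ)) g) = jo Ix K g +
          (-1) * (jo Ix K g - algebraMap ℂ K (MvPolynomial.aeval (fun _ => (0 : ℂ)) g)) := by ring
      rw [h4]
      exact (vv0 K).pos_add h ((vv0 K).pos_mul_left ((vv0 K).reg_neg (vv0 K).reg_one) h2)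
    rcases h3 with h3 | h3
    · exact hg ((map_eq_zero _).1 h3)
    · rw [(vv0 K).const _ hg] at h3
      exact lt_irrefl _ h3
  have h2 : (vv0 K).Reg (jo Ix K g) := vv0_local.1 _ (RA_le_SV (jo_mem g))
  have h3 := (vv0 K).ord_nonneg (jo_ne hg0) h2
  have h4 : ¬ 0 < (vv0 K).ord (jo Ix K g) := fun h => h1 (Or.inr h)
  omega

theorem not_sameDiv_valP {v : DVal K} (hv : SameDiv v (vv0 K)) (p : MvPolynomial Ix ℂ)
    (hp : Prime p) : ¬ SameDiv (valP K p hp) v := by
  intro h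
  have h1 : ∀ k : Ix, p ∣ MvPolynomial.X k := by
    intro k
    have h2 : (valP K p hp).Pos (cv K k) := by
      right
      rw [h _ (cv_ne k), hv _ (cv_ne k)]
      have := vv0_cv (K := K) k
      omega
    exact (valP_pos_iff (K := K) hp (MvPolynomial.X k)).1 h2
  have h2 : Associated p (MvPolynomial.X (ia 0)) :=
    hp.associated_of_dvd MvPolynomial.X_prime (h1 _)
  have h3 : (MvPolynomial.X (ia 0) : MvPolynomial Ix ℂ) ∣ MvPolynomial.X (ia 1) :=
    h2.symm.dvd.trans (h1 _)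
  rw [MvPolynomial.X_dvd_X] at h3
  exact absurd h3 (by simp [ia])

include e in
/-- The divisor computing the minimal log discrepancy is not the exceptional divisor of a
divisorial contraction to a neighbourhood of the origin. -/
theorem not_contraction {v : DVal K} (hv : SameDiv v (vv0 K)) {g : MvPolynomial Ix ℂ}
    (hg : MvPolynomial.aeval (fun _ => (0 : ℂ)) g ≠ 0) {U : AffVar K}
    (hU : U.R = RA Ix K ⊔ Algebra.adjoin ℂ {(jo Ix K g)⁻¹}) (Y : ProjBir U) :
    ¬ IsDivContraction Y v := by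
  intro hY
  have hg0 : g ≠ 0 := by
    rintro rfl
    exact hg (map_zero _)
  have hg1 : jo Ix K g ≠ 0 := jo_ne hg0
  obtain ⟨N, hN, hξ, hmain⟩ := dc_main e g Y hY hg0 hU (not_sameDiv_valP hv)
  let L := FractionRing (Polynomial SS)
  let M := 4 * N + 1
  have hM1 : 1 ≤ M := by omega
  let W : K → ℤ := fun f => (wL L).ord (phi K L M f)
  obtain ⟨i, hi⟩ := exists_min fun i => W (Y.ξ i)
  have hgW : W (jo Ix K g) = 0 := phi_unit hM1 hg
  -- the lower bound
  obtain ⟨⟨m, q, hq⟩, hqN⟩ := hξ i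
  change jo Ix K q = jo Ix K g ^ m * Y.ξ i at hq
  have hgx : jo Ix K g ^ m * Y.ξ i ≠ 0 := mul_ne_zero (pow_ne_zero _ hg1) (Y.ne i)
  have hq0 : q ≠ 0 := by
    rintro rfl
    rw [map_zero] at hq
    exact hgx hq.symm
  have h1 : (((3 * M + 1) * N : ℕ) : ℤ) ≤ W (Y.ξ i) := by
    have h2 : W (jo Ix K q) = W (Y.ξ i) := by
      have hg2 : phi K L M (jo Ix K g) ≠ 0 := (map_ne_zero _).2 hg1
      have hx2 : phi K L M (Y.ξ i) ≠ 0 := (map_ne_zero _).2 (Y.ne i)
      have h3 : W (jo Ix K g ^ m * Y.ξ i) = m * W (jo Ix K g) + W (Y.ξ i) := by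
        change (wL L).ord (phi K L M (jo Ix K g ^ m * Y.ξ i)) = _
        rw [map_mul, map_pow, (wL L).map_mul _ _ (pow_ne_zero _ hg2) hx2, (wL L).ord_pow hg2]
      rw [hq, h3, hgW, mul_zero, zero_add]
    rw [← h2]
    refine phi_lower le_rfl hq0 ?_
    rw [hq, (vv0 K).map_mul _ _ (pow_ne_zero _ hg1) (Y.ne i), (vv0 K).ord_pow hg1, vv0_unit hg,
      mul_zero, zero_add, ← hv _ (Y.ne i)]
    exact hqN
  -- the element
  obtain ⟨D, hD⟩ := exists_small (K := K) (L := L) (M := M) hM1 M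
  let j := 4 * M + 1 + D
  have hj : 4 * M + 1 + D ≤ j * N := Nat.le_mul_of_pos_right _ hN
  obtain ⟨E, hE⟩ := Nat.exists_eq_add_of_le hj
  obtain ⟨h, h0, hord, hW⟩ := hD (D + E) (Nat.le_add_right _ _)
  have hne : jo Ix K h ≠ 0 := jo_ne h0
  have hjN : ((j * N : ℕ) : ℤ) ≤ v.ord (jo Ix K h) := by
    rw [hv _ hne]
    refine le_trans ?_ hord
    rw [Nat.cast_le, hE]
    omega
  have h2 := hmain (jo Ix K h) (jo_mem h) hne j (by exact_mod_cast hjN) i
  have h3 : (wL L).Reg (phi K L M (jo Ix K h / Y.ξ i ^ j)) := by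
    refine chart_reg Y (wL L) (phi K L M) (fun f hf => ?_) hi h2
    refine reg_U g (wL L) (phi K L M) hg0 hU ?_ hgW hf
    rintro _ ⟨g, rfl⟩
    exact phi_reg M g
  have hx : phi K L M (Y.ξ i) ≠ 0 := (map_ne_zero _).2 (Y.ne i)
  have hh : phi K L M (jo Ix K h) ≠ 0 := (map_ne_zero _).2 hne
  rw [map_div₀, map_pow] at h3
  have h4 := (wL L).ord_nonneg (div_ne_zero hh (pow_ne_zero _ hx)) h3
  rw [(wL L).ord_div hh (pow_ne_zero _ hx), (wL L).ord_pow hx, hW] at h4
  have h5 : ((j : ℕ) : ℤ) * (((3 * M + 1) * N : ℕ) : ℤ) ≤ (j : ℤ) * W (Y.ξ i) :=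
    mul_le_mul_of_nonneg_left h1 (Int.natCast_nonneg _)
  have h6 : (j : ℤ) * W (Y.ξ i) ≤ 4 * M * (3 * M + 1) + (3 * M + 1) * ((D + E : ℕ) : ℤ) := by
    have : W (Y.ξ i) = (wL L).ord (phi K L M (Y.ξ i)) := rfl
    rw [this]
    linarith
  have h7 : ((j * N : ℕ) : ℤ) = 4 * M + 1 + D + E := by
    rw [hE]
    push_cast
    ring
  have h8 : ((j : ℕ) : ℤ) * (((3 * M + 1) * N : ℕ) : ℤ) =
      (3 * M + 1) * ((j * N : ℕ) : ℤ) := by
    push_cast
    ring
  rw [h8, h7] at h5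
  push_cast at h6
  nlinarith [h5, h6]

/-- The divisor is not extractable over a neighbourhood of the origin. -/
theorem not_extractable {v : DVal K} (hv : SameDiv v (vv0 K)) {U : AffVar K}
    (hU : IsNbhd (orig e (K := K)) U) : ¬ IsExtractable U v := by
  rintro ⟨Y, hY⟩
  obtain ⟨⟨_, ⟨g, rfl⟩⟩, hg, hR⟩ := hU
  refine not_contraction e hv (g := g) ?_ hR Y hY
  intro h
  apply hg
  exact (orig_jo e g _).trans h

/-- The divisor is not extractable. -/
theorem not_extractable' {v : DVal K} (hv : SameDiv v (vv0 K)) :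
    ¬ IsExtractable (affVar K e) v := by
  apply not_extractable e hv
  refine ⟨1, ?_, ?_⟩
  · rw [map_one]
    exact one_ne_zero
  · rw [OneMemClass.coe_one, inv_one]
    refine (sup_eq_left.2 (Algebra.adjoin_le ?_)).symm
    rintro _ rfl
    exact one_mem _

end nonext

section pair

/-- The three prime divisors. -/
noncomputable def Dk (K : Type) [Field K] [Algebra ℂ K]
    [Algebra (MvPolynomial Ix ℂ) K] [IsFractionRing (MvPolynomial Ix ℂ) K]
    [IsScalarTower ℂ (MvPolynomial Ix ℂ) K] (i : Fin 3) : DVal K := valP K (Fq i) (Fq_prime i)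

/-- The divisor `B = (3/4) (D_1 + D_2 + D_3)`. -/
noncomputable def Bd : EffDiv (affVar K e) where
  n := 3
  D := Dk K
  on := fun i => valP_local (Fq_prime i)
  a := fun _ => 3 / 4
  nonneg := fun _ => by norm_num

theorem same_of_dvd {p : MvPolynomial Ix ℂ} (hp : Prime p) {i : Fin 3} (h : p ∣ Fq i) :
    SameDiv (valP K p hp) (Dk K i) := by
  intro f hf
  refine agree_of_key (valP_local hp) ?_ ?_ hf
  · rintro _ ⟨g, rfl⟩
    exact valP_reg (Fq_prime i) g
  · rintro _ ⟨g, rfl⟩ hg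
    have h1 := (valP_pos_iff (K := K) (Fq_prime i) g).1 hg
    exact (valP_pos_iff (K := K) hp g).2 (h.trans h1)

theorem Dk_fk (i : Fin 3) : (Dk K i).ord (fk K i) = 1 := by
  have h : (Dk K i).ord (fk K i) = (multiplicity (Fq i) (Fq i) : ℤ) :=
    valP_ord (Fq_prime i) (Fq_prime i).ne_zero
  rw [h, multiplicity_self]
  rfl

theorem Dk_ne {i k : Fin 3} (h : i ≠ k) : ¬ SameDiv (Dk K i) (Dk K k) := by
  intro h1
  have h2 := h1 _ (fk_ne k)
  rw [Dk_fk] at h2
  have h3 : (Dk K i).ord (fk K k) = (multiplicity (Fq i) (Fq k) : ℤ) :=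
    valP_ord (Fq_prime i) (Fq_prime k).ne_zero
  rw [h3, multiplicity_eq_zero.2 (Fq_not_dvd h)] at h2
  exact absurd h2 (by norm_num)

open Classical in
theorem mult_eq {v : DVal K} (hv : IsLocalRing' (RA Ix K) v) :
    (Bd e).mult v = ∑ i : Fin 3, (3 / 4 : ℝ) * (v.ord (fk K i) : ℝ) := by
  unfold EffDiv.mult
  change ∑ i : Fin 3, (if ∀ f : K, f ≠ 0 → v.ord f = (Dk K i).ord f then (3 / 4 : ℝ) else 0) = _
  refine Finset.sum_congr rfl fun i _ => ?_
  split_ifs with h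
  · rw [h _ (fk_ne i), Dk_fk]
    norm_num
  · obtain ⟨p, hp, hpv⟩ := exists_prime_of_local hv
    have h1 : v.ord (fk K i) = 0 := by
      rw [hpv _ (fk_ne i)]
      have h2 : (valP K p hp).ord (fk K i) = (multiplicity p (Fq i) : ℤ) :=
        valP_ord hp (Fq_prime i).ne_zero
      rw [h2, multiplicity_eq_zero.2]
      · rfl
      · intro h3
        apply h
        intro f hf
        rw [hpv f hf]
        exact same_of_dvd hp h3 f hf
    rw [h1]
    norm_num

/-- The local equation of `K_X + B`. -/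
noncomputable def eqB (P : Pt (affVar K e)) : LocEq (Bd e) P where
  n := 3
  ρ := fun _ => 3 / 4
  g := fk K
  ne := fk_ne
  eq := by
    intro v hv
    refine ⟨0, can_zero e hv.1, ?_⟩
    rw [Int.cast_zero, zero_add]
    exact mult_eq e hv.1

/-- The local equation of `K_X`. -/
noncomputable def eq0 (P : Pt (affVar K e)) : LocEq (zeroDiv (affVar K e)) P where
  n := 0
  ρ := Fin.elim0
  g := Fin.elim0
  ne := fun i => i.elim0
  eq := by
    intro v hv
    refine ⟨0, can_zero e hv.1, ?_⟩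
    rw [Int.cast_zero, zero_add]
    unfold EffDiv.mult
    rfl

theorem ord_nonneg_of_over {v : DVal K}
    (hv : ∃ S : Subalgebra ℂ K, S.FG ∧ (affVar K e).R ≤ S ∧ IsLocalRing' S v) {f : K}
    (hf : f ∈ RA Ix K) (hf0 : f ≠ 0) : 0 ≤ v.ord f := by
  obtain ⟨S, _, hRS, hSv⟩ := hv
  exact v.ord_nonneg hf0 (hSv.1 f (hRS hf))

theorem klt_all (Q : Pt (affVar K e)) : IsKltPt Q := by
  refine ⟨eq0 e Q, fun i => i.elim0, fun v hv => ?_⟩
  obtain ⟨n, hn, hn0⟩ := exists_can e (v := v) hv.1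
  refine ⟨1 + n, ⟨n, hn, ?_⟩, ?_⟩
  · have h1 : ∑ i, (eq0 e Q).ρ i * (v.ord ((eq0 e Q).g i) : ℝ) = 0 := rfl
    rw [h1, sub_zero]
  · have : (0 : ℝ) ≤ n := by exact_mod_cast hn0
    linarith

theorem sum_fk (v : DVal K) (Q : Pt (affVar K e)) :
    ∑ i, (eqB e Q).ρ i * (v.ord ((eqB e Q).g i) : ℝ) =
      3 / 4 * ((∑ i, v.ord (fk K i) : ℤ) : ℝ) := by
  change ∑ i : Fin 3, (3 / 4 : ℝ) * (v.ord (fk K i) : ℝ) = _
  rw [← Finset.mul_sum]
  push_cast
  rfl

theorem lc_all (Q : Pt (affVar K e)) : IsLcAt (Bd e) Q := by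
  refine ⟨eqB e Q, fun v hv => ?_⟩
  obtain ⟨n, hn, hn0⟩ := exists_can e (v := v) hv.1
  refine ⟨_, ⟨n, hn, rfl⟩, ?_⟩
  rw [sum_fk]
  have h1 := lc_bound v e hn
  have h2 : 0 ≤ ∑ a : Fin 5, v.ord (cv K (ia a)) :=
    Finset.sum_nonneg fun a _ => ord_nonneg_of_over e hv.1 (cv_mem _) (cv_ne _)
  have h3 : 0 ≤ ∑ l : Fin 3, v.ord (cv K (it l)) :=
    Finset.sum_nonneg fun a _ => ord_nonneg_of_over e hv.1 (cv_mem _) (cv_ne _)
  have h4 : 0 ≤ ∑ i, v.ord (fk K i) :=
    Finset.sum_nonneg fun a _ => ord_nonneg_of_over e hv.1 (jo_mem _) (fk_ne _)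
  have h5 : ∑ i, v.ord (fk K i) ≤ n + 1 := by linarith
  have h6 : ((∑ i, v.ord (fk K i) : ℤ) : ℝ) ≤ n + 1 := by exact_mod_cast h5
  have h7 : (0 : ℝ) ≤ ((∑ i, v.ord (fk K i) : ℤ) : ℝ) := by exact_mod_cast h4
  linarith

theorem vv0_over : IsOverGerm (orig e) (vv0 K) :=
  ⟨⟨SV K, SV_fg e, RA_le_SV, vv0_local⟩, pos_iff_orig e vv0_cv⟩

theorem vv0_disc : IsLogDisc (eqB e (orig e)) (vv0 K) 14 := by
  refine ⟨25, vv0_can e, ?_⟩
  rw [sum_fk, vv0_fk e]
  norm_num

/-- The minimal log discrepancy. -/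
theorem mld_eq : IsMld (eqB e (orig e)) (K := K) 14 := by
  refine ⟨⟨vv0 K, vv0_over e, vv0_disc e⟩, ?_⟩
  rintro a ⟨v, hv, n, hn, rfl⟩
  rw [sum_fk]
  rcases main_low v e (over_cv e hv) hn with h | h
  · have h1 : (56 : ℝ) < ((4 * (n + 1) - 3 * ∑ i, v.ord (fk K i) : ℤ) : ℝ) := by exact_mod_cast h
    push_cast at h1 ⊢
    linarith
  · rw [h.1, h.2.1]
    norm_num

/-- The minimal log discrepancy is computed by exactly one divisor. -/
theorem mld_unique {v : DVal K} (hv : IsOverGerm (orig e) v)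
    (h : IsLogDisc (eqB e (orig e)) v 14) : SameDiv v (vv0 K) := by
  obtain ⟨n, hn, h1⟩ := h
  rw [sum_fk] at h1
  rcases main_low v e (over_cv e hv) hn with h | h
  · exfalso
    have h2 : (56 : ℝ) < ((4 * (n + 1) - 3 * ∑ i, v.ord (fk K i) : ℤ) : ℝ) := by exact_mod_cast h
    push_cast at h2 h1
    linarith
  · intro f hf
    rw [h.1] at hn
    exact (eqCase_agree e hn h.2.2 hf).symm

theorem sameDiv_reg {v w : DVal K} (h : SameDiv v w) (f : K) : v.Reg f ↔ w.Reg f := by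
  by_cases hf : f = 0
  · exact ⟨fun _ => Or.inl hf, fun _ => Or.inl hf⟩
  · unfold DVal.Reg
    rw [h f hf]

/-- The same divisors have the same log discrepancies. -/
theorem disc_of_same {v : DVal K} (h : SameDiv v (vv0 K)) :
    IsLogDisc (eqB e (orig e)) v 14 := by
  obtain ⟨n, hn, h1⟩ := vv0_disc (K := K) e
  refine ⟨n, ?_, ?_⟩
  · have hp : ∀ D : Derivation ℂ K K, Preserves v D ↔ Preserves (vv0 K) D := by
      intro D
      constructor
      · intro h1 f hf
        rw [← sameDiv_reg h] at hf ⊢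
        exact h1 f hf
      · intro h1 f hf
        rw [sameDiv_reg h] at hf ⊢
        exact h1 f hf
    obtain ⟨⟨A, hA0, hA, hAn⟩, hl⟩ := hn
    refine ⟨⟨A, hA0, fun i => (hp _).2 (hA i), (h _ hA0).trans hAn⟩, ?_⟩
    rintro m ⟨C, hC0, hC, hm⟩
    exact hl ⟨C, hC0, fun i => (hp _).1 (hC i), (h _ hC0).symm.trans hm⟩
  · rw [h1]
    congr 1
    refine Finset.sum_congr rfl fun i _ => ?_
    rw [h _ ((eqB e (orig e)).ne i)]

open Classical in
theorem coeff_in : CoeffIn (Bd (K := K) e) {3 / 4} := by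
  intro v _ h0
  have h1 : (Bd e).mult v = ∑ i : Fin 3, (if SameDiv v (Dk K i) then (3 / 4 : ℝ) else 0) := by
    unfold EffDiv.mult
    rfl
  rw [h1] at h0 ⊢
  obtain ⟨i, _, hi⟩ := Finset.exists_ne_zero_of_sum_ne_zero h0
  have hi' : SameDiv v (Dk K i) := by
    by_contra h
    rw [if_neg h] at hi
    exact hi rfl
  rw [Finset.sum_eq_single i, if_pos hi']
  · rfl
  · intro k _ hk
    rw [if_neg]
    intro h
    exact Dk_ne hk fun f hf => (h f hf).symm.trans (hi' f hf)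
  · intro h
    exact absurd (Finset.mem_univ _) h

theorem isAffineSpace : IsAffineSpace (affVar K e) 24 := by
  refine ⟨rfl, ⟨?_⟩⟩
  exact (AlgEquiv.ofInjective (jo Ix K) jo_inj).symm.trans
    (MvPolynomial.renameEquiv ℂ e.symm)

end pair

end Pool.Agent.W497.Mld
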